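import Pool.Agent.Lib.MP_3dbc4a_an_W.Defs

/-!
# MP_3dbc4a_an, project W, block O: definitions
-/

set_option autoImplicit false

open Filter Set
open scoped Topology

namespace Pool.Agent.WildW

/-- word with one fold: past `om` in `K_1` (`om 0` at `-1`), future `op` in `K_2` (`op 0` at
`1`) -/
def sf (i : Fin 8) (om : ℕ → KA) (op : ℕ → KB) : ℤ → Lt := fun n =>
  if n < 0 then .p (.e (om (-n - 1).toNat)) else if n = 0 then .d i else .p (.f (op (n -
1).toNat))

/-- the filler letter of the pasts -/
def estar : KA := (true, 0)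

/-- the middle letter of `K_2` -/
def mid : KB := ⟨2 ^ 19, by norm_num⟩

/-- the lowest letter of `K_2` -/
def bot : KB := ⟨0, by norm_num⟩

/-- the highest letter of `K_2` -/
def top : KB := ⟨2 ^ 20 - 1, by norm_num⟩

/-- the past `E` followed (further in the past) by `estar` forever -/
def extE (E : List KA) : ℕ → KA := fun n => E.getD n estar

/-- the future `B` followed by `v` forever -/
def extB (B : List KB) (v : KB) : ℕ → KB := fun n => B.getD n v

/-- residual of a one fold word -/
noncomputable def Rr (F : Fam) (a : Fin 8 → ℝ) (i : Fin 8) (om : ℕ → KA) (op : ℕ → KB) : ℝ :=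
  Phi F a (symOf (sf i om op)) 0

/-- product of the first `l` forward fractions after the index `0` -/
noncomputable def prodR (F : Fam) (a : Fin 8 → ℝ) (s : ℤ → Lt) (l : ℕ) : ℝ :=
  ∏ n ∈ Finset.range l, rs F a (symOf s) (n + 1)

/-- `b *` product of `b θ` over the `N` indices before `0` -/
noncomputable def prodT (F : Fam) (a : Fin 8 → ℝ) (s : ℤ → Lt) (N : ℕ) : ℝ :=
  b * ∏ n ∈ Finset.range N, (b * ts F a (symOf s) (-(n : ℤ) - 1))

/-- size of the cell of `B` -/
noncomputable def Sv (F : Fam) (a : Fin 8 → ℝ) (i : Fin 8) (E : List KA) (B : List KB) : ℝ :=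
  prodR F a (sf i (extE E) (extB B mid)) B.length

/-- size of the cell of `E` -/
noncomputable def Wv (F : Fam) (a : Fin 8 → ℝ) (i : Fin 8) (E : List KA) (B : List KB) : ℝ :=
  prodT F a (sf i (extE E) (extB B mid)) E.length

/-- **Node**: the zero of the residual lies inside the cell of `B`, and the two cells are in
proportion. -/
structure Node (F : Fam) (a : Fin 8 → ℝ) (i : Fin 8) (E : List KA) (B : List KB) (lo hi : ℝ) :
    Prop where
  len : B.length = 6 * E.length
  up : Wv F a i E B ≤ Rr F a i (extE E) (extB B bot)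
  dn : Rr F a i (extE E) (extB B top) ≤ -Wv F a i E B
  Xlo : lo * Wv F a i E B ≤ b * Sv F a i E B
  Xhi : b * Sv F a i E B ≤ hi * Wv F a i E B

/-- lower and upper half of the letters of `K_1` -/
def side (c : KA) : Bool := decide (2 ^ 13 ≤ (c.2 : ℕ))

/-- size of the cell `B` for an arbitrary past -/
noncomputable def Sw (F : Fam) (a : Fin 8 → ℝ) (i : Fin 8) (om : ℕ → KA) (B : List KB) : ℝ :=
  prodR F a (sf i om (extB B mid)) B.length

/-- the word of length `k` with the number `j < (2^20)^k` in base `2^20` (leading digit first) -/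
def dig : ℕ → ℕ → List KB
  | 0, _ => []
  | k + 1, j => dig k (j / 2 ^ 20) ++ [⟨j % 2 ^ 20, Nat.mod_lt _ (by norm_num)⟩]

end Pool.Agent.WildW
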