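import Pool.Agent.Lib.MP_3dbc4a_an_WO.Tang

/-!
# MP_3dbc4a_an, project W, block O: comparison of residuals
-/

set_option autoImplicit false

open Filter Set
open scoped Topology

namespace Pool.Agent.WildW

open OB

/-- forward part -/
private theorem sharp_R (F : Fam) {a : Fin 8 → ℝ} (ha : Cube a) {s s' : ℤ → Lt}
    (hs : Adm (symOf s)) (hs' : Adm (symOf s')) {l : ℕ} (h0 : s 0 = s' 0)
    (hp : ∀ n : ℕ, n < l → ∃ j, s (n + 1) = .p (.f j) ∧ s' (n + 1) = .p (.f j)) :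
    ∃ c P : ℝ, 0 ≤ c ∧ c ≤ b * (1 / 2 ^ 19) ∧
      xs F a (symOf s) 1 - xs F a (symOf s') 1 =
        c * (xs F a (symOf s) 0 - xs F a (symOf s') 0) +
        P * (xs F a (symOf s) (l + 1) - xs F a (symOf s') (l + 1)) ∧
      |P - prodR F a s l| ≤ 1 / 2 ^ 135 * prodR F a s l := by
  obtain ⟨ρ, hρ, hid, hpr⟩ := fut F ha hs hs' h0 hp
  rcases Nat.eq_zero_or_pos l with rfl | hl
  · refine ⟨0, 1, le_rfl, by have := b_pos; positivity, ?_, ?_⟩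
    · rw [zero_mul, zero_add, one_mul, Nat.cast_zero, zero_add]
    · rw [Finset.prod_range_zero] at hpr
      exact hpr
  · have h1 := hid 0 hl
    rw [Nat.cast_zero, zero_add] at h1
    rw [Finset.range_eq_Ico] at hpr
    have hb := b_pos
    obtain ⟨h2, h3⟩ := hρ 0 hl
    have h4 : 0 ≤ ρ 0 := le_trans (by positivity) h2
    exact ⟨b * ρ 0, _, mul_nonneg hb.le h4, mul_le_mul_of_nonneg_left h3 hb.le, h1, hpr⟩

/-- backward part -/
private theorem sharp_T (F : Fam) {a : Fin 8 → ℝ} (ha : Cube a) {s s' : ℤ → Lt}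
    (hs : Adm (symOf s)) (hs' : Adm (symOf s')) {N : ℕ} (h0 : s 0 = s' 0)
    (hm : ∀ n : ℕ, n < N → ∃ c, s (-(n : ℤ) - 1) = .p (.e c) ∧ s' (-(n : ℤ) - 1) = .p (.e c)) :
    ∃ c P : ℝ, 0 ≤ c ∧ c ≤ 1 / 2 ^ 19 ∧
      xs F a (symOf s) (-1) - xs F a (symOf s') (-1) =
        c * (xs F a (symOf s) 0 - xs F a (symOf s') 0) +
        P * (xs F a (symOf s) (-(N : ℤ) - 1) - xs F a (symOf s') (-(N : ℤ) - 1)) ∧
      |b * P - prodT F a s N| ≤ 1 / 2 ^ 135 * prodT F a s N := by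
  obtain ⟨τ, hτ, hid, hpr⟩ := pst F ha hs hs' h0 hm
  rcases Nat.eq_zero_or_pos N with rfl | hN
  · refine ⟨0, 1, le_rfl, by positivity, ?_, ?_⟩
    · rw [zero_mul, zero_add, one_mul, Nat.cast_zero, neg_zero, zero_sub]
    · rw [Finset.prod_range_zero] at hpr
      exact hpr
  · have h1 := hid 0 hN
    rw [Nat.cast_zero, neg_zero, zero_sub] at h1
    rw [Finset.range_eq_Ico] at hpr
    obtain ⟨h2, h3⟩ := hτ 0 hN
    have h4 : 0 ≤ τ 0 := le_trans (by positivity) h2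
    exact ⟨τ 0, _, h4, h3, h1, hpr⟩

private theorem sharp_n0 : (0 : ℝ) ≤ 1 / 2 ^ 135 := by norm_num

private theorem sharp_n1 : (2 : ℝ) * (1 / 2 ^ 100 * (1 / 2 ^ 19)) = 1 / 2 ^ 118 := by norm_num

private theorem sharp_n2 : (1 : ℝ) / 2 ^ 118 * (1 / 2 ^ 130) + 1 / 2 ^ 135 * 4 ≤ 1 / 2 ^ 125 := by
  norm_num

private theorem sharp_n3 :
    (1 : ℝ) / 2 ^ 118 * (1 / 2 ^ 130) * 2 ^ 100 + 1 / 2 ^ 135 * 4 ≤ 1 / 2 ^ 125 := by
  norm_num

private theorem sharp_n4 {R T u D0 D1 D2 P Q : ℝ} (hR : 0 ≤ R) (hT : 0 ≤ T)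
    (hu : |u| ≤ 1 / 2 ^ 118) (h0 : |D0| ≤ 1 / 2 ^ 130 * (R + T / (1 / 2 ^ 100)))
    (h1 : |D1| ≤ 4) (h2 : |D2| ≤ 4) (hP : |P - R| ≤ 1 / 2 ^ 135 * R)
    (hQ : |Q - T| ≤ 1 / 2 ^ 135 * T) :
    |u * D0 + (R - P) * D1 + (T - Q) * D2| ≤ 1 / 2 ^ 125 * (R + T) := by
  have e1 : |u * D0| ≤ 1 / 2 ^ 118 * (1 / 2 ^ 130 * (R + T / (1 / 2 ^ 100))) := by
    rw [abs_mul]
    exact mul_le_mul hu h0 (abs_nonneg _) (by positivity)
  have e2 : |(R - P) * D1| ≤ 1 / 2 ^ 135 * R * 4 := by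
    rw [abs_mul, abs_sub_comm]
    exact mul_le_mul hP h1 (abs_nonneg _) (mul_nonneg sharp_n0 hR)
  have e3 : |(T - Q) * D2| ≤ 1 / 2 ^ 135 * T * 4 := by
    rw [abs_mul, abs_sub_comm]
    exact mul_le_mul hQ h2 (abs_nonneg _) (mul_nonneg sharp_n0 hT)
  have e4 : T / (1 / 2 ^ 100) = 2 ^ 100 * T := by
    rw [div_div_eq_mul_div, div_one, mul_comm]
  rw [e4] at e1
  have e5 : |u * D0 + (R - P) * D1 + (T - Q) * D2| ≤
      |u * D0| + |(R - P) * D1| + |(T - Q) * D2| := abs_add_three _ _ _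
  have e6 := mul_le_mul_of_nonneg_right sharp_n2 hR
  have e7 := mul_le_mul_of_nonneg_right sharp_n3 hT
  calc |u * D0 + (R - P) * D1 + (T - Q) * D2|
      ≤ |u * D0| + |(R - P) * D1| + |(T - Q) * D2| := e5
    _ ≤ 1 / 2 ^ 118 * (1 / 2 ^ 130 * (R + 2 ^ 100 * T)) + 1 / 2 ^ 135 * R * 4 +
        1 / 2 ^ 135 * T * 4 := add_le_add (add_le_add e1 e2) e3
    _ = (1 / 2 ^ 118 * (1 / 2 ^ 130) + 1 / 2 ^ 135 * 4) * R +
        (1 / 2 ^ 118 * (1 / 2 ^ 130) * 2 ^ 100 + 1 / 2 ^ 135 * 4) * T := by ring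
    _ ≤ 1 / 2 ^ 125 * R + 1 / 2 ^ 125 * T := add_le_add e6 e7
    _ = 1 / 2 ^ 125 * (R + T) := by ring

/-- **O5 (Sharp)** comparison of residuals.
Proof. `Φ - Φ' = (P~_0 - b τ_0 - b ρ_0) Δ_0 - b ∏(b τ) Δ_{-N-1} - ∏ρ Δ_{l+1}` (O2, O3; for `l = 0`
resp. `N = 0` the factors `ρ_0`, `τ_0` are absent), `|P~_0| ≤ 2^-117` (`0 ≤ P1(x_0), P1(x'_0) ≤
2^-118`
and `P1` is monotone on the window), O4; the products are within `2^-135` of `prodR`, `prodT`;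
`|Δ| ≤ 4`; `2^-246 prodT / b = 2^-146 prodT`. -/
theorem sharp (F : Fam) {a : Fin 8 → ℝ} (ha : Cube a) {s s' : ℤ → Lt} (hs : Adm (symOf s))
    (hs' : Adm (symOf s')) {i : Fin 8} {l N : ℕ} (h0 : s 0 = .d i) (h0' : s' 0 = .d i)
    (hp : ∀ n : ℕ, n < l → ∃ j, s (n + 1) = .p (.f j) ∧ s' (n + 1) = .p (.f j))
    (hm : ∀ n : ℕ, n < N → ∃ c, s (-(n : ℤ) - 1) = .p (.e c) ∧ s' (-(n : ℤ) - 1) = .p (.e c)) :
    |Phi F a (symOf s) 0 - Phi F a (symOf s') 0 +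
      prodR F a s l * (xs F a (symOf s) (l + 1) - xs F a (symOf s') (l + 1)) +
      prodT F a s N * (xs F a (symOf s) (-(N : ℤ) - 1) - xs F a (symOf s') (-(N : ℤ) - 1))| ≤
      1 / 2 ^ 125 * (prodR F a s l + prodT F a s N) := by
  have hb := b_pos
  have hss : s 0 = s' 0 := h0.trans h0'.symm
  obtain ⟨c, P, hc0, hc1, hid, hP⟩ := sharp_R F ha hs hs' hss hp
  obtain ⟨c', Q, hc0', hc1', hid', hQ⟩ := sharp_T F ha hs hs' hss hm
  have hR0 : 0 ≤ prodR F a s l :=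
    le_trans (by positivity) (prodR_b F ha hs fun n hn => (hp n hn).imp fun j hj => hj.1).1
  have hT0 : 0 ≤ prodT F a s N :=
    le_trans (by positivity) (prodT_b F ha hs fun n hn => (hm n hn).imp fun j hj => hj.1).1
  have hW := xs_W F ha hs 0
  rw [h0] at hW
  have hW' := xs_W F ha hs' 0
  rw [h0'] at hW'
  obtain ⟨q, hq, hq1, hq2⟩ := dd_fo F ha i hW hW'
  have hf := fold_eq F ha hs h0
  have hf' := fold_eq F ha hs' h0'
  have g1 := rs_b F ha hs (0 + 1)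
  have g2 := ts_b F ha hs (0 - 1)
  have g3 := rs_b F ha hs' (0 + 1)
  have g4 := ts_b F ha hs' (0 - 1)
  have k1 : 0 ≤ F.P1 a (xs F a (symOf s) 0) := by
    rw [hf]
    exact mul_nonneg hb.le (add_nonneg g1.1 g2.1)
  have k2 : 0 ≤ F.P1 a (xs F a (symOf s') 0) := by
    rw [hf']
    exact mul_nonneg hb.le (add_nonneg g3.1 g4.1)
  have k3 : F.P1 a (xs F a (symOf s) 0) ≤ b * (1 / 2 ^ 19 + 1 / 2 ^ 19) := by
    rw [hf]
    exact mul_le_mul_of_nonneg_left (add_le_add g1.2 g2.2) hb.le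
  have k4 : F.P1 a (xs F a (symOf s') 0) ≤ b * (1 / 2 ^ 19 + 1 / 2 ^ 19) := by
    rw [hf']
    exact mul_le_mul_of_nonneg_left (add_le_add g3.2 g4.2) hb.le
  have k5 : 0 ≤ q := (le_min k1 k2).trans hq1
  have k6 : q ≤ b * (1 / 2 ^ 19 + 1 / 2 ^ 19) := hq2.trans (max_le k3 k4)
  have k7 : b * (1 / 2 ^ 19 + 1 / 2 ^ 19) = 1 / 2 ^ 118 := by
    rw [b_eq, ← sharp_n1]
    ring
  have k8 : b * c' ≤ b * (1 / 2 ^ 19) := mul_le_mul_of_nonneg_left hc1' hb.le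
  have k9 : 0 ≤ b * c' := mul_nonneg hb.le hc0'
  have hu : |q - b * c' - c| ≤ 1 / 2 ^ 118 := by
    rw [k7] at k6
    have k10 : b * (1 / 2 ^ 19) + b * (1 / 2 ^ 19) = 1 / 2 ^ 118 := by
      rw [← k7]
      ring
    rw [abs_le]
    constructor <;> linarith
  have hD0 := tang_shift F ha hs hs' h0 h0' hp hm
  rw [show prodT F a s N / b = prodT F a s N / (1 / 2 ^ 100) from rfl] at hD0
  have hD1 := xs_dist F ha ha hs hs' (l + 1) (l + 1)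
  have hD2 := xs_dist F ha ha hs hs' (-(N : ℤ) - 1) (-(N : ℤ) - 1)
  have key := sharp_n4 hR0 hT0 hu hD0 hD1 hD2 hP hQ
  have e : Phi F a (symOf s) 0 - Phi F a (symOf s') 0 +
      prodR F a s l * (xs F a (symOf s) (l + 1) - xs F a (symOf s') (l + 1)) +
      prodT F a s N * (xs F a (symOf s) (-(N : ℤ) - 1) - xs F a (symOf s') (-(N : ℤ) - 1)) =
      (q - b * c' - c) * (xs F a (symOf s) 0 - xs F a (symOf s') 0) +
      (prodR F a s l - P) * (xs F a (symOf s) (l + 1) - xs F a (symOf s') (l + 1)) +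
      (prodT F a s N - b * Q) *
        (xs F a (symOf s) (-(N : ℤ) - 1) - xs F a (symOf s') (-(N : ℤ) - 1)) := by
    unfold Phi
    rw [zero_add, zero_sub]
    linear_combination hq - hid - b * hid'
  rw [e]
  exact key

end Pool.Agent.WildW
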