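import Pool.Agent.Lib.MP_3dbc4a_an_WO.OBas

/-!
# MP_3dbc4a_an, project W, block O: positions
-/

set_option autoImplicit false

open Filter Set
open scoped Topology

namespace Pool.Agent.WildW

open OB

private theorem pos_eps : eps ≤ h :=
  eps_le_h.trans (div_le_self h_pos.le (one_le_pow₀ (by norm_num)))

private theorem pos_bh : b * h ≤ h := by
  have h1 := h_pos
  have h2 := b_lt_one
  nlinarith

private theorem pos_eq (F : Fam) {a : Fin 8 → ℝ} (ha : Cube a) {s : ℤ → Sym} (hs : Adm s)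
    {n : ℤ} {j : KB} (hn : s n = .p (.f j)) :
    |2 + sg * (xs F a s n - (2 + (j : ℕ) / 2 ^ 20)) -
      (xs F a s (n + 1) + b * xs F a s (n - 1))| ≤ eps := by
  have hS := isSol_sol F ha hs
  have h1 := hS.plx n _ hn
  have h2 := F.pl0 a ha (.f j) _ (W_sub_Wp _ (hS.plW n _ hn))
  rw [h1, abs_sub_comm] at h2
  exact h2

private theorem pos_W (F : Fam) {a : Fin 8 → ℝ} (ha : Cube a) {s : ℤ → Sym} (hs : Adm s)
    {n : ℤ} {j : KB} (hn : s n = .p (.f j)) :
    2 + (j : ℕ) / 2 ^ 20 - h ≤ xs F a s n ∧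
      xs F a s n ≤ 2 + (j : ℕ) / 2 ^ 20 + 1 / sg + 4 * h := by
  have hS := isSol_sol F ha hs
  have h1 := hS.plW n _ hn
  have h2 : 2 + (j : ℕ) / 2 ^ 20 - b / sg ≤ xs F a s n := h1.1
  have h3 : xs F a s n ≤ 2 + (j : ℕ) / 2 ^ 20 + (3 - 2 + 4 * b) / sg := h1.2
  have h4 : (3 - 2 + 4 * b) / sg = 1 / sg + 4 * (b / sg) := by ring
  rw [← h_eq] at h2 h4
  exact ⟨h2, by linarith⟩

/-- the step of the backward iteration -/
private theorem pos_step {T U V x d : ℝ} (hT : 0 ≤ T) (hx : sg * d ≤ x) (hxT : x ≤ T + V)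
    (hV : V ≤ U * b) : d ≤ T / 2 ^ 20 + U * h := by
  by_contra hcon
  push Not at hcon
  have h1 := sg_lo
  have h2 : sg * (T / 2 ^ 20 + U * h) < sg * d := mul_lt_mul_of_pos_left hcon sg_pos
  have h3 : sg * (T / 2 ^ 20 + U * h) = sg * (T / 2 ^ 20) + U * (sg * h) := by ring
  have h4 : 2 ^ 20 * (T / 2 ^ 20) ≤ sg * (T / 2 ^ 20) :=
    mul_le_mul_of_nonneg_right h1 (by positivity)
  have h5 : (2 : ℝ) ^ 20 * (T / 2 ^ 20) = T := by ring
  rw [sg_mul_h] at h3
  linarith

/-- **O9** seven letters `bot` in a row: `δ_n = x_n - 2 ≤ (δ_{n+1} + 3.1 b)/sg + eps`. -/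
theorem pos_bot (F : Fam) {a : Fin 8 → ℝ} (ha : Cube a) {s : ℤ → Sym} (hs : Adm s) {n : ℤ}
    (hn : ∀ k : ℕ, k < 7 → s (n + k) = .p (.f bot)) :
    2 - h ≤ xs F a s n ∧ xs F a s n ≤ 2 + 4 * h := by
  have hb0 : ((bot : KB) : ℕ) = 0 := rfl
  have hm : ∀ m, -(4 * h) ≤ xs F a s m ∧ xs F a s m ≤ 3 + h := fun m =>
    IsSol.mem F hs (isSol_sol F ha hs) m
  have hh := h_pos
  have hb := b_pos
  have key : ∀ m k : ℕ, m + k = 7 →
      xs F a s (n + k) - 2 ≤ 2 / 2 ^ (20 * m) + 16 / 5 * h := by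
    intro m
    induction m with
    | zero =>
      intro k _
      have h1 := (hm (n + k)).2
      have h2 : h ≤ 1 / 2 ^ 120 := h_hi
      have h3 : (1 : ℝ) / 2 ^ 120 ≤ 1 := by norm_num
      rw [mul_zero, pow_zero, div_one]
      linarith
    | succ m ih =>
      intro k hk
      have h1 := ih (k + 1) (by omega)
      have h2 := pos_eq F ha hs (hn k (by omega))
      have h3 : n + ((k + 1 : ℕ) : ℤ) = n + k + 1 := by push_cast; ring
      rw [h3] at h1
      rw [hb0, abs_le] at h2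
      push_cast at h2
      have h4 := (hm (n + k - 1)).2
      have h5 : b * xs F a s (n + k - 1) ≤ b * (3 + h) := mul_le_mul_of_nonneg_left h4 hb.le
      have h6 := pos_step (T := 2 / 2 ^ (20 * m)) (U := 16 / 5)
        (V := 16 / 5 * h + b * (3 + h) + eps)
        (x := xs F a s (n + k + 1) - 2 + b * xs F a s (n + k - 1) + eps)
        (d := xs F a s (n + k) - 2) (by positivity) (by linarith [h2.2])
        (by linarith) (by
          have h7 := mul_h_le_b
          have h8 := pos_bh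
          have h9 := pos_eps
          linarith)
      have h7 : (2 : ℝ) / 2 ^ (20 * m) / 2 ^ 20 = 2 / 2 ^ (20 * (m + 1)) := by
        rw [div_div, ← pow_add]
        congr 2
      rwa [h7] at h6
  have h0 := key 7 0 rfl
  have hn0 := hn 0 (by norm_num)
  rw [Nat.cast_zero, add_zero] at h0 hn0
  have hW := pos_W F ha hs hn0
  rw [hb0] at hW
  refine ⟨?_, ?_⟩
  · have h1 := hW.1
    push_cast at h1
    linarith
  · have h1 : (2 : ℝ) / 2 ^ (20 * 7) ≤ 4 / 5 * (1 / 2 ^ 121) := by norm_num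
    have h2 : 4 / 5 * (1 / 2 ^ 121) ≤ 4 / 5 * h := mul_le_mul_of_nonneg_left h_lo (by norm_num)
    linarith

/-- **O9'** seven letters `top` in a row: `δ_n = 3 - x_n ≤ 16 h + δ_{n+1}/sg + (4 h b + eps)/sg`
(`2^-20 = 1/sg + 16 h`); the upper bound is the end of the window. -/
theorem pos_top (F : Fam) {a : Fin 8 → ℝ} (ha : Cube a) {s : ℤ → Sym} (hs : Adm s) {n : ℤ}
    (hn : ∀ k : ℕ, k < 7 → s (n + k) = .p (.f top)) :
    3 - 17 * h ≤ xs F a s n ∧ xs F a s n ≤ 3 - 12 * h := by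
  have ht : ((top : KB) : ℕ) = 1048575 := by
    change 2 ^ 20 - 1 = 1048575
    norm_num
  have hm : ∀ m, -(4 * h) ≤ xs F a s m ∧ xs F a s m ≤ 3 + h := fun m =>
    IsSol.mem F hs (isSol_sol F ha hs) m
  have hh := h_pos
  have hb := b_pos
  have hsg : sg * (1 / 2 ^ 20) = 1 + 16 * b := by
    unfold sg
    ring
  have hoff : (2 : ℝ) + 1048575 / 2 ^ 20 = 3 - 1 / 2 ^ 20 := by norm_num
  have key : ∀ m k : ℕ, m + k = 7 →
      3 - xs F a s (n + k) ≤ 4 / 2 ^ (20 * m) + 33 / 2 * h := by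
    intro m
    induction m with
    | zero =>
      intro k _
      have h1 := (hm (n + k)).1
      have h2 : h ≤ 1 / 2 ^ 120 := h_hi
      have h3 : (1 : ℝ) / 2 ^ 120 ≤ 1 / 8 := by norm_num
      rw [mul_zero, pow_zero, div_one]
      linarith
    | succ m ih =>
      intro k hk
      have h1 := ih (k + 1) (by omega)
      have h2 := pos_eq F ha hs (hn k (by omega))
      have h3 : n + ((k + 1 : ℕ) : ℤ) = n + k + 1 := by push_cast; ring
      rw [h3] at h1
      rw [ht, abs_le] at h2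
      push_cast at h2
      rw [hoff] at h2
      have h4 := (hm (n + k - 1)).1
      have h5 : b * (-(4 * h)) ≤ b * xs F a s (n + k - 1) := mul_le_mul_of_nonneg_left h4 hb.le
      have h6 := pos_step (T := 4 / 2 ^ (20 * m)) (U := 33 / 2)
        (V := 33 / 2 * h + 16 * b + 4 * (b * h) + eps)
        (x := 16 * b + (3 - xs F a s (n + k + 1)) - b * xs F a s (n + k - 1) + eps)
        (d := 3 - xs F a s (n + k)) (by positivity) (by
          have h7 : sg * (xs F a s (n + k) - (3 - 1 / 2 ^ 20)) =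
            sg * (1 / 2 ^ 20) - sg * (3 - xs F a s (n + k)) := by ring
          rw [h7, hsg] at h2
          linarith [h2.1])
        (by linarith) (by
          have h7 := mul_h_le_b
          have h8 := pos_bh
          have h9 := pos_eps
          linarith)
      have h7 : (4 : ℝ) / 2 ^ (20 * m) / 2 ^ 20 = 4 / 2 ^ (20 * (m + 1)) := by
        rw [div_div, ← pow_add]
        congr 2
      rwa [h7] at h6
  have h0 := key 7 0 rfl
  have hn0 := hn 0 (by norm_num)
  rw [Nat.cast_zero, add_zero] at h0 hn0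
  have hW := pos_W F ha hs hn0
  rw [ht] at hW
  push_cast at hW
  rw [hoff] at hW
  refine ⟨?_, ?_⟩
  · have h1 : (4 : ℝ) / 2 ^ (20 * 7) ≤ 1 / 2 * (1 / 2 ^ 121) := by norm_num
    have h2 : 1 / 2 * (1 / 2 ^ 121) ≤ 1 / 2 * h := mul_le_mul_of_nonneg_left h_lo (by norm_num)
    linarith
  · have h1 := hW.2
    have h2 := inv_M
    linarith

/-- **O9''** the middle letter -/
theorem pos_mid (F : Fam) {a : Fin 8 → ℝ} (ha : Cube a) {s : ℤ → Sym} (hs : Adm s) {n : ℤ}
    (hn : s n = .p (.f mid)) : 5 / 2 - h ≤ xs F a s n ∧ xs F a s n ≤ 5 / 2 + 1 / 2 ^ 19 := by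
  have ht : ((mid : KB) : ℕ) = 524288 := by
    change 2 ^ 19 = 524288
    norm_num
  have hoff : (2 : ℝ) + 524288 / 2 ^ 20 = 5 / 2 := by norm_num
  have hW := pos_W F ha hs hn
  rw [ht] at hW
  push_cast at hW
  rw [hoff] at hW
  refine ⟨hW.1, ?_⟩
  have h1 := hW.2
  have h2 := inv_sg_le
  have h3 : h ≤ 1 / 2 ^ 120 := h_hi
  have h4 : (1 : ℝ) / 2 ^ 20 + 4 * (1 / 2 ^ 120) ≤ 1 / 2 ^ 19 := by norm_num
  linarith

end Pool.Agent.WildW
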