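import Pool.Agent.Lib.MP_3dbc4a_an_WO.AdmSf
import Pool.Agent.Lib.MP_3dbc4a_an_WO.Pos
import Pool.Agent.Lib.MP_3dbc4a_an_WO.Sharp

/-!
# MP_3dbc4a_an, project W, block O: the residual of a word through a node
-/

set_option autoImplicit false

open Filter Set
open scoped Topology

namespace Pool.Agent.WildW

open OB

/-- the letters of a one fold word past the end of `B` -/
theorem nr_tail (i : Fin 8) (om : ℕ → KA) (B : List KB) (v : KB) (k : ℕ) :
    symOf (sf i om (extB B v)) ((B.length : ℤ) + 1 + k) = .p (.f v) := by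
  apply symOf_p
  have h1 : (B.length : ℤ) + 1 + k = ((B.length + k : ℕ) : ℤ) + 1 := by push_cast; ring
  rw [h1, sf_pos, extB_ge (by omega)]

/-- the numbers of `O21` -/
theorem nr_num {S W W' : ℝ} (hS : 0 ≤ S) (hW : 0 ≤ W) (hX : 100 * W ≤ b * S)
    (hW' : W' = W) : W' ≤ 1 / 2 ^ 100 * S := by
  rw [b_eq] at hX
  subst hW'
  linarith

/-- **O21** the residual of a word through a node. -/
theorem node_resid (F : Fam) {a : Fin 8 → ℝ} (ha : Cube a) {i : Fin 8} {E : List KA}
    {B : List KB} {lo hi : ℝ} (hN : Node F a i E B lo hi) (hlo : 100 ≤ lo)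
    {s : ℤ → Lt} (hs : Adm (symOf s)) (h0 : s 0 = .d i)
    (hm : ∀ n : ℕ, n < E.length → s (-(n : ℤ) - 1) = .p (.e (extE E n)))
    (hp : ∀ n : ℕ, n ≤ B.length → s (n + 1) = .p (.f (extB B mid n))) :
    |Phi F a (symOf s) 0| ≤ 3 * Sv F a i E B := by
  have hc := adm_sf i (extE E) (extB B mid)
  have hb := adm_sf i (extE E) (extB B bot)
  have ht := adm_sf i (extE E) (extB B top)
  -- the products are positive
  have hS : 0 < Sv F a i E B := by
    refine lt_of_lt_of_le ?_ (prodR_b F ha hc (l := B.length)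
      (fun n _ => ⟨extB B mid n, sf_pos _ _ _ n⟩)).1
    positivity
  have hW : 0 < Wv F a i E B := by
    refine lt_of_lt_of_le ?_ (prodT_b F ha hc (N := E.length)
      (fun n _ => ⟨extE E n, sf_neg _ _ _ n⟩)).1
    exact mul_pos b_pos (by positivity)
  have hWS : Wv F a i E B ≤ 1 / 2 ^ 100 * Sv F a i E B := by
    refine nr_num hS.le hW.le ?_ rfl
    refine le_trans ?_ hN.Xlo
    exact mul_le_mul_of_nonneg_right hlo hW.le
  -- comparison of the middle word with the words `bot`, `top`, `s`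
  have e1 := sharp F ha hc hb (l := B.length) (N := E.length) (i := i) (sf_zero _ _ _)
    (sf_zero _ _ _)
    (fun n hn => ⟨extB B mid n, sf_pos _ _ _ n, by
      rw [sf_pos, extB_lt hn, extB_lt hn]⟩)
    (fun n _ => ⟨extE E n, sf_neg _ _ _ n, sf_neg _ _ _ n⟩)
  have e2 := sharp F ha hc ht (l := B.length) (N := E.length) (i := i) (sf_zero _ _ _)
    (sf_zero _ _ _)
    (fun n hn => ⟨extB B mid n, sf_pos _ _ _ n, by
      rw [sf_pos, extB_lt hn, extB_lt hn]⟩)
    (fun n _ => ⟨extE E n, sf_neg _ _ _ n, sf_neg _ _ _ n⟩)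
  have e3 := sharp F ha hc hs (l := B.length) (N := E.length) (i := i) (sf_zero _ _ _)
    h0
    (fun n hn => ⟨extB B mid n, sf_pos _ _ _ n, hp n hn.le⟩)
    (fun n hn => ⟨extE E n, sf_neg _ _ _ n, hm n hn⟩)
  -- positions
  have pb := pos_bot F ha hb (n := (B.length : ℤ) + 1)
    (fun k _ => nr_tail i (extE E) B bot k)
  have pt := pos_top F ha ht (n := (B.length : ℤ) + 1)
    (fun k _ => nr_tail i (extE E) B top k)
  have pc := pos_mid F ha hc (n := (B.length : ℤ) + 1) (by
    have := nr_tail i (extE E) B mid 0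
    simpa using this)
  have ps := pos_mid F ha hs (n := (B.length : ℤ) + 1) (symOf_p (by
    rw [hp B.length le_rfl, extB_ge le_rfl]))
  have d1 := xs_dist F ha ha hc hb (-(E.length : ℤ) - 1) (-(E.length : ℤ) - 1)
  have d2 := xs_dist F ha ha hc ht (-(E.length : ℤ) - 1) (-(E.length : ℤ) - 1)
  have d3 := xs_dist F ha ha hc hs (-(E.length : ℤ) - 1) (-(E.length : ℤ) - 1)
  have hup := hN.up
  have hdn := hN.dn
  unfold Rr at hup hdn
  change |_ + Sv F a i E B * _ + Wv F a i E B * _| ≤ 1 / 2 ^ 125 * (Sv F a i E B + Wv F a i E B)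
    at e1
  change |_ + Sv F a i E B * _ + Wv F a i E B * _| ≤ 1 / 2 ^ 125 * (Sv F a i E B + Wv F a i E B)
    at e2
  change |_ + Sv F a i E B * _ + Wv F a i E B * _| ≤ 1 / 2 ^ 125 * (Sv F a i E B + Wv F a i E B)
    at e3
  generalize Phi F a (symOf (sf i (extE E) (extB B mid))) 0 = Pc at *
  generalize Phi F a (symOf (sf i (extE E) (extB B bot))) 0 = Pb at *
  generalize Phi F a (symOf (sf i (extE E) (extB B top))) 0 = Pt at *
  generalize Phi F a (symOf s) 0 = Ps at *
  generalize xs F a (symOf (sf i (extE E) (extB B mid))) ((B.length : ℤ) + 1) = xc at *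
  generalize xs F a (symOf (sf i (extE E) (extB B bot))) ((B.length : ℤ) + 1) = xb at *
  generalize xs F a (symOf (sf i (extE E) (extB B top))) ((B.length : ℤ) + 1) = xt at *
  generalize xs F a (symOf s) ((B.length : ℤ) + 1) = x at *
  generalize xs F a (symOf (sf i (extE E) (extB B mid))) (-(E.length : ℤ) - 1) -
    xs F a (symOf (sf i (extE E) (extB B bot))) (-(E.length : ℤ) - 1) = y1 at *
  generalize xs F a (symOf (sf i (extE E) (extB B mid))) (-(E.length : ℤ) - 1) -
    xs F a (symOf (sf i (extE E) (extB B top))) (-(E.length : ℤ) - 1) = y2 at *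
  generalize xs F a (symOf (sf i (extE E) (extB B mid))) (-(E.length : ℤ) - 1) -
    xs F a (symOf s) (-(E.length : ℤ) - 1) = y3 at *
  generalize Sv F a i E B = S at *
  generalize Wv F a i E B = W at *
  have hh := h_pos
  have hh2 := h_hi
  have hh3 : h ≤ 1 / 100 := le_trans hh2 (by norm_num)
  have hW2 : W ≤ 1 / 1000 * S := by
    refine le_trans hWS (mul_le_mul_of_nonneg_right ?_ hS.le)
    norm_num
  have hE : (1 : ℝ) / 2 ^ 125 * (S + W) ≤ 1 / 100 * S := by
    have h1 : (1 : ℝ) / 2 ^ 125 ≤ 1 / 200 := by norm_num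
    have h2 : (1 : ℝ) / 2 ^ 125 * (S + W) ≤ 1 / 200 * (S + W) :=
      mul_le_mul_of_nonneg_right h1 (by linarith)
    linarith
  have w1 : |W * y1| ≤ 4 / 1000 * S := by
    rw [abs_mul, abs_of_pos hW]
    have := mul_le_mul hW2 d1 (abs_nonneg _) (by linarith)
    linarith
  have w2 : |W * y2| ≤ 4 / 1000 * S := by
    rw [abs_mul, abs_of_pos hW]
    have := mul_le_mul hW2 d2 (abs_nonneg _) (by linarith)
    linarith
  have w3 : |W * y3| ≤ 4 / 1000 * S := by
    rw [abs_mul, abs_of_pos hW]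
    have := mul_le_mul hW2 d3 (abs_nonneg _) (by linarith)
    linarith
  have h19 : (1 : ℝ) / 2 ^ 19 ≤ 1 / 100 := by norm_num
  have v1 : S * (xc - xb) ≤ 7 / 10 * S := by
    have : xc - xb ≤ 7 / 10 := by linarith [pc.2, pb.1]
    have := mul_le_mul_of_nonneg_left this hS.le
    linarith
  have v2 : -(7 / 10 * S) ≤ S * (xc - xt) := by
    have : -(7 / 10) ≤ xc - xt := by linarith [pc.1, pt.2]
    have := mul_le_mul_of_nonneg_left this hS.le
    linarith
  have v3 : |S * (xc - x)| ≤ 1 / 10 * S := by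
    rw [abs_mul, abs_of_pos hS, mul_comm]
    refine mul_le_mul_of_nonneg_right ?_ hS.le
    rw [abs_le]
    constructor <;> linarith [pc.1, pc.2, ps.1, ps.2]
  have e1' := abs_le.1 (le_trans e1 hE)
  have e2' := abs_le.1 (le_trans e2 hE)
  have e3' := abs_le.1 (le_trans e3 hE)
  have w1' := abs_le.1 w1
  have w2' := abs_le.1 w2
  have w3' := abs_le.1 w3
  have v3' := abs_le.1 v3
  rw [abs_le]
  constructor <;> linarith [e1'.1, e1'.2, e2'.1, e2'.2, e3'.1, e3'.2, w1'.1, w1'.2, w2'.1,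
    w2'.2, w3'.1, w3'.2, v3'.1, v3'.2]

end Pool.Agent.WildW
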