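import Pool.Agent.Lib.MP_3dbc4a_an_WO.OBas

/-!
# MP_3dbc4a_an, project W, block O: dependence of the products on the parameter
-/

set_option autoImplicit false

open Filter Set
open scoped Topology

namespace Pool.Agent.WildW

open OB

private theorem prodp_close {l : ℕ} {ρ ρ' : ℕ → ℝ} {δ : ℝ} (hδ : 0 ≤ δ)
    (hpos : ∀ n < l, 0 < ρ n) (h : ∀ n < l, |ρ' n - ρ n| ≤ δ * ρ n) (hl : (l : ℝ) * δ ≤ 1) :
    |∏ n ∈ Finset.range l, ρ' n - ∏ n ∈ Finset.range l, ρ n| ≤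
      2 * ((l : ℝ) * δ) * ∏ n ∈ Finset.range l, ρ n := by
  set e : ℕ → ℝ := fun n => (ρ' n - ρ n) / ρ n with he
  have h1 : ∏ n ∈ Finset.range l, ρ' n =
      (∏ n ∈ Finset.range l, ρ n) * ∏ n ∈ Finset.range l, (1 + e n) := by
    rw [← Finset.prod_mul_distrib]
    refine Finset.prod_congr rfl fun n hn => ?_
    have := (hpos n (Finset.mem_range.1 hn)).ne'
    rw [he]
    field_simp
    ring
  have hP : 0 < ∏ n ∈ Finset.range l, ρ n :=
    Finset.prod_pos fun n hn => hpos n (Finset.mem_range.1 hn)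
  have h2 : ∑ n ∈ Finset.range l, ‖e n‖ ≤ (l : ℝ) * δ := by
    have : ∀ n ∈ Finset.range l, ‖e n‖ ≤ δ := by
      intro n hn
      have h0 := hpos n (Finset.mem_range.1 hn)
      rw [he, Real.norm_eq_abs, abs_div, abs_of_pos h0, div_le_iff₀ h0]
      exact h n (Finset.mem_range.1 hn)
    refine (Finset.sum_le_sum this).trans (le_of_eq ?_)
    rw [Finset.sum_const, Finset.card_range, nsmul_eq_mul]
  have h3 : ‖∏ n ∈ Finset.range l, (1 + e n) - 1‖ ≤ 2 * ((l : ℝ) * δ) := by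
    refine (Finset.norm_prod_one_add_sub_one_le _ _).trans ?_
    have h4 : Real.exp (∑ n ∈ Finset.range l, ‖e n‖) ≤ Real.exp ((l : ℝ) * δ) :=
      Real.exp_le_exp.2 h2
    have h0 : 0 ≤ (l : ℝ) * δ := by positivity
    have h5 := Real.abs_exp_sub_one_le (x := (l : ℝ) * δ) (by rw [abs_of_nonneg h0]; exact hl)
    rw [abs_of_nonneg h0] at h5
    have h6 := le_abs_self (Real.exp ((l : ℝ) * δ) - 1)
    linarith
  rw [h1]
  have h7 : (∏ n ∈ Finset.range l, ρ n) * ∏ n ∈ Finset.range l, (1 + e n) -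
      ∏ n ∈ Finset.range l, ρ n =
      (∏ n ∈ Finset.range l, ρ n) * (∏ n ∈ Finset.range l, (1 + e n) - 1) := by ring
  rw [h7, abs_mul, abs_of_pos hP, mul_comm]
  exact mul_le_mul_of_nonneg_right h3 hP.le

private theorem prodp_num : 2 * (2 ^ 21 * eps) ≤ 1 / 2 ^ 900 := by
  have h1 : (2 : ℝ) ^ 1000 = 2 ^ 900 * 2 ^ 100 := by rw [← pow_add]
  unfold eps
  rw [h1]
  have h2 : (0 : ℝ) < 2 ^ 900 := by positivity
  rw [show (2 : ℝ) * (2 ^ 21 * (1 / (2 ^ 900 * 2 ^ 100))) =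
    1 / 2 ^ 900 * (2 * 2 ^ 21 / 2 ^ 100) by field_simp]
  have h3 : (2 : ℝ) * 2 ^ 21 / 2 ^ 100 ≤ 1 := by norm_num
  exact mul_le_of_le_one_right (by positivity) h3

private theorem prodp_eps : eps ≤ 1 := by
  have h1 := eps_le_b
  have h2 := b_lt_one
  have h3 := b_pos
  have h4 : b / 2 ^ 800 ≤ b := div_le_self h3.le (one_le_pow₀ (by norm_num))
  exact h1.trans (h4.trans h2.le)

private theorem prodp_num' : 2 ^ 21 * eps ≤ 1 := by
  have h1 := prodp_num
  have h2 : (1 : ℝ) / 2 ^ 900 ≤ 1 := by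
    rw [div_le_one (by positivity)]
    exact one_le_pow₀ (by norm_num)
  have h3 : 2 * (2 ^ 21 * eps) ≤ 1 := h1.trans h2
  have h4 : 0 < 2 ^ 21 * eps := mul_pos (by norm_num) eps_pos
  linarith only [h3, h4]

/-- the common end of both proofs -/
private theorem prodp_fin {l : ℕ} {ρ ρ' : ℕ → ℝ} {d : ℝ} (hd : 0 ≤ d)
    (hpos : ∀ n < l, 1 / 2 ^ 21 ≤ ρ n) (h : ∀ n < l, |ρ' n - ρ n| ≤ eps * d)
    (hl : (l : ℝ) * d ≤ 1) :
    |∏ n ∈ Finset.range l, ρ' n - ∏ n ∈ Finset.range l, ρ n| ≤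
      1 / 2 ^ 900 * ∏ n ∈ Finset.range l, ρ n := by
  have he := eps_pos
  have h0 : ∀ n < l, 0 < ρ n := fun n hn => lt_of_lt_of_le (by norm_num) (hpos n hn)
  have h1 : (l : ℝ) * (2 ^ 21 * (eps * d)) ≤ 2 ^ 21 * eps := by
    have h2 : (l : ℝ) * (2 ^ 21 * (eps * d)) = 2 ^ 21 * eps * ((l : ℝ) * d) := by ring
    rw [h2]
    exact mul_le_of_le_one_right (by positivity) hl
  have h3 := prodp_close (l := l) (ρ := ρ) (ρ' := ρ') (δ := 2 ^ 21 * (eps * d)) (by positivity)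
    h0 (fun n hn => (h n hn).trans ?_) (h1.trans prodp_num')
  · refine h3.trans (mul_le_mul_of_nonneg_right ?_ (Finset.prod_nonneg fun n hn =>
      (h0 n (Finset.mem_range.1 hn)).le))
    exact (mul_le_mul_of_nonneg_left h1 (by norm_num)).trans prodp_num
  · have h4 := hpos n hn
    have h5 : 1 ≤ 2 ^ 21 * ρ n := by
      have := mul_le_mul_of_nonneg_left h4 (by norm_num : (0 : ℝ) ≤ 2 ^ 21)
      norm_num at this ⊢
      linarith
    calc eps * d = eps * d * 1 := (mul_one _).symm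
      _ ≤ eps * d * (2 ^ 21 * ρ n) := mul_le_mul_of_nonneg_left h5 (by positivity)
      _ = 2 ^ 21 * (eps * d) * ρ n := by ring

/-- a fraction is at least `2^-21` if the slope is at most `2^21 - 1` -/
private theorem prodp_low {u P v : ℝ} (hu : 0 < u) (hv : 0 ≤ v) (hP : P ≤ 2 ^ 21)
    (h : u * (P - b * v) = 1) : 1 / 2 ^ 21 ≤ u := by
  have hb := b_pos
  have h1 : 0 ≤ b * v := by positivity
  rw [div_le_iff₀ (by norm_num)]
  calc (1 : ℝ) = u * (P - b * v) := h.symm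
    _ ≤ u * 2 ^ 21 := mul_le_mul_of_nonneg_left (by linarith) hu.le

private theorem prodp_r (F : Fam) {a a' : Fin 8 → ℝ} (ha : Cube a) (ha' : Cube a')
    {s : ℤ → Lt} (hs : Adm (symOf s)) (n : ℤ) :
    |rs F a' (symOf s) n - rs F a (symOf s) n| ≤ eps * dist a a' ∧
      |ts F a' (symOf s) n - ts F a (symOf s) n| ≤ eps * dist a a' := by
  have h1 := Ed_par F ha ha' hs n
  unfold Ed at h1
  have h2 := (max_le_iff.1 h1).2
  have h3 := max_le_iff.1 h2
  exact ⟨by rw [abs_sub_comm]; exact h3.1, by rw [abs_sub_comm]; exact h3.2⟩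

/-- **O8** dependence of the products on the parameter (each factor changes by a relative
`2^-1018 dist a a'`). -/
theorem prodR_par (F : Fam) {a a' : Fin 8 → ℝ} (ha : Cube a) (ha' : Cube a') {s : ℤ → Lt}
    (hs : Adm (symOf s)) {l : ℕ} (hp : ∀ n : ℕ, n < l → ∃ j, s (n + 1) = .p (.f j))
    (hl : (l : ℝ) * dist a a' ≤ 1) :
    |prodR F a' s l - prodR F a s l| ≤ 1 / 2 ^ 900 * prodR F a s l := by
  refine prodp_fin dist_nonneg (fun n hn => ?_) (fun n _ => (prodp_r F ha ha' hs _).1) hl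
  obtain ⟨j, hj⟩ := hp n hn
  refine prodp_low (rs_pos F ha hs hj) (rs_b F ha hs _).1 ?_ (rs_rec F ha hs hj)
  have h1 := (abs_le.1 (P1_pl F ha hs hj)).2
  have h2 : (Pl.f j).sl = sg := rfl
  have h3 := sg_hi
  have h4 := prodp_eps
  rw [h2] at h1
  have h5 : (2 : ℝ) ^ 20 + 1 / 2 ^ 76 + 1 ≤ 2 ^ 21 := by norm_num
  linarith

/-- **O8'** -/
theorem prodT_par (F : Fam) {a a' : Fin 8 → ℝ} (ha : Cube a) (ha' : Cube a') {s : ℤ → Lt}
    (hs : Adm (symOf s)) {N : ℕ} (hm : ∀ n : ℕ, n < N → ∃ c, s (-(n : ℤ) - 1) = .p (.e c))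
    (hl : (N : ℝ) * dist a a' ≤ 1) :
    |prodT F a' s N - prodT F a s N| ≤ 1 / 2 ^ 900 * prodT F a s N := by
  have hb := b_pos
  have key := prodp_fin (l := N) (ρ := fun n : ℕ => ts F a (symOf s) (-(n : ℤ) - 1))
    (ρ' := fun n : ℕ => ts F a' (symOf s) (-(n : ℤ) - 1)) dist_nonneg (fun n hn => ?_)
    (fun n _ => (prodp_r F ha ha' hs _).2) hl
  · have e : ∀ c : Fin 8 → ℝ, prodT F c s N =
        b * b ^ N * ∏ n ∈ Finset.range N, ts F c (symOf s) (-(n : ℤ) - 1) := by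
      intro c
      unfold prodT
      rw [Finset.prod_mul_distrib, Finset.prod_const, Finset.card_range]
      ring
    rw [e, e, ← mul_sub, abs_mul, abs_of_pos (by positivity : 0 < b * b ^ N)]
    calc b * b ^ N * |∏ n ∈ Finset.range N, ts F a' (symOf s) (-(n : ℤ) - 1) -
            ∏ n ∈ Finset.range N, ts F a (symOf s) (-(n : ℤ) - 1)|
        ≤ b * b ^ N * (1 / 2 ^ 900 * ∏ n ∈ Finset.range N, ts F a (symOf s) (-(n : ℤ) - 1)) :=
          mul_le_mul_of_nonneg_left key (by positivity)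
      _ = _ := by
          rw [mul_left_comm]
  · obtain ⟨c, hc⟩ := hm n hn
    refine prodp_low (ts_pos F ha hs hc) (ts_b F ha hs _).1 ?_ (ts_rec F ha hs hc)
    have h1 := (abs_le.1 (P1_pl F ha hs hc)).2
    have h2 : (Pl.e c).sl ≤ 3 * 2 ^ 19 := by
      show (if c.1 then (3 : ℝ) * 2 ^ 19 else 3 * 2 ^ 18) ≤ 3 * 2 ^ 19
      split_ifs <;> norm_num
    have h4 := prodp_eps
    have h5 : (3 : ℝ) * 2 ^ 19 + 1 ≤ 2 ^ 21 := by norm_num
    linarith

end Pool.Agent.WildW
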