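import Pool.Agent.Lib.MP_3dbc4a_an_WO.AdmSf
import Pool.Agent.Lib.MP_3dbc4a_an_WO.ProdP

/-!
# MP_3dbc4a_an, project W, block O: the ratio and the parameter
-/

set_option autoImplicit false

open Filter Set
open scoped Topology

namespace Pool.Agent.WildW

open OB

/-- **O23** the range of the ratio survives small changes of the parameter (O8). -/
theorem ratio_par (F : Fam) {a a' : Fin 8 → ℝ} (ha : Cube a) (ha' : Cube a') {i : Fin 8}
    {E : List KA} {B : List KB} (hlen : B.length = 6 * E.length)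
    (hlo : 149 * Wv F a i E B ≤ b * Sv F a i E B) (hhi : b * Sv F a i E B ≤ 301 * Wv F a i E B)
    (hl : (B.length : ℝ) * dist a a' ≤ 1) :
    140 * Wv F a' i E B ≤ b * Sv F a' i E B ∧ b * Sv F a' i E B ≤ 320 * Wv F a' i E B := by
  unfold Wv Sv at *
  set s := sf i (extE E) (extB B mid) with hs
  have hadm : Adm (symOf s) := adm_sf i _ _
  have hp : ∀ n : ℕ, n < B.length → ∃ j, s (n + 1) = .p (.f j) := fun n _ ↦ ⟨_, sf_pos i _ _ n⟩
  have hm : ∀ n : ℕ, n < E.length → ∃ c, s (-(n : ℤ) - 1) = .p (.e c) :=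
    fun n _ ↦ ⟨_, sf_neg i _ _ n⟩
  have hEB : (E.length : ℝ) ≤ B.length := by
    rw [hlen]
    push_cast
    have : (0 : ℝ) ≤ E.length := Nat.cast_nonneg _
    linarith
  have h1 := prodR_par F ha ha' hadm hp hl
  have h2 := prodT_par F ha ha' hadm hm
    ((mul_le_mul_of_nonneg_right hEB dist_nonneg).trans hl)
  have h3 : (0 : ℝ) < prodR F a s B.length :=
    lt_of_lt_of_le (by positivity) (prodR_b F ha hadm hp).1
  have hb := b_pos
  have h4 : (0 : ℝ) < prodT F a s E.length :=
    lt_of_lt_of_le (by positivity) (prodT_b F ha hadm hm).1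
  have h5 : (1 : ℝ) / 2 ^ 900 ≤ 1 / 1000 :=
    one_div_le_one_div_of_le (by norm_num) (le_trans (by norm_num : (1000 : ℝ) ≤ 2 ^ 100)
      (pow_le_pow_right₀ (by norm_num) (by norm_num)))
  set S := prodR F a s B.length with hS
  set S' := prodR F a' s B.length with hS'
  set W := prodT F a s E.length with hW
  set W' := prodT F a' s E.length with hW'
  have h6 : |S' - S| ≤ 1 / 1000 * S := h1.trans (mul_le_mul_of_nonneg_right h5 h3.le)
  have h7 : |W' - W| ≤ 1 / 1000 * W := h2.trans (mul_le_mul_of_nonneg_right h5 h4.le)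
  have h8 := abs_le.1 h6
  have h9 := abs_le.1 h7
  have h10 : b * S' ≤ b * (1001 / 1000 * S) := mul_le_mul_of_nonneg_left (by linarith) hb.le
  have h11 : b * (999 / 1000 * S) ≤ b * S' := mul_le_mul_of_nonneg_left (by linarith) hb.le
  constructor
  · nlinarith
  · nlinarith

end Pool.Agent.WildW
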