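import Pool.Agent.Lib.MP_3dbc4a_an_WO.OBas

/-!
# MP_3dbc4a_an, project W, block O: sizes of the fractions
-/

set_option autoImplicit false

open Filter Set
open scoped Topology

namespace Pool.Agent.WildW

open OB

private theorem rsf_num1 : (2 : ℝ) ^ 20 ≤ sg - eps - b * (1 / 2 ^ 19) := by
  have h1 : eps ≤ 1 / 2 ^ 100 := by
    have h2 := eps_le_b
    have h3 : b / 2 ^ 800 ≤ b := div_le_self b_pos.le (one_le_pow₀ (by norm_num))
    exact h2.trans h3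
  have h2 : sg = 2 ^ 20 + 1 / 2 ^ 76 := by
    unfold sg b
    norm_num
  have h3 : b * (1 / 2 ^ 19) ≤ 1 / 2 ^ 100 := by
    unfold b
    norm_num
  have h4 : (1 : ℝ) / 2 ^ 100 + 1 / 2 ^ 100 ≤ 1 / 2 ^ 76 := by norm_num
  linarith

private theorem rsf_num2 : (1 - 1 / 2 ^ 95) * (sg + eps) ≤ 2 ^ 20 := by
  have h1 : eps ≤ 1 / 2 ^ 100 := by
    have h2 := eps_le_b
    have h3 : b / 2 ^ 800 ≤ b := div_le_self b_pos.le (one_le_pow₀ (by norm_num))
    exact h2.trans h3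
  have h2 : sg = 2 ^ 20 + 1 / 2 ^ 76 := by
    unfold sg b
    norm_num
  have h5 : (0 : ℝ) ≤ 1 - 1 / 2 ^ 95 := by norm_num
  calc (1 - 1 / 2 ^ 95) * (sg + eps) ≤ (1 - 1 / 2 ^ 95) * (2 ^ 20 + 1 / 2 ^ 76 + 1 / 2 ^ 100) := by
        apply mul_le_mul_of_nonneg_left _ h5
        linarith
    _ ≤ 2 ^ 20 := by norm_num

/-- **O6** the forward fraction at a letter of `K_2` (`1/r = P1 - b r'`, `sg = 2^20 (1 + 2^-96)`) -/
theorem rs_f (F : Fam) {a : Fin 8 → ℝ} (ha : Cube a) {s : ℤ → Sym} (hs : Adm s) {n : ℤ} {j : KB}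
    (hn : s n = .p (.f j)) :
    (1 - 1 / 2 ^ 95) / 2 ^ 20 ≤ rs F a s n ∧ rs F a s n ≤ 1 / 2 ^ 20 := by
  have hS := isSol_sol F ha hs
  have h1 := hS.plr n _ hn
  have h2 := F.pl1 a ha _ _ (W_sub_Wp _ (hS.plW n _ hn))
  have h3 := hS.rb (n + 1)
  have h4 := hS.rb n
  have h5 : (Pl.f j).sl = sg := rfl
  rw [h5] at h2
  have h6 := abs_le.1 h2
  have h7 : b * rs F a s (n + 1) ≤ b * (1 / 2 ^ 19) := mul_le_mul_of_nonneg_left h3.2 b_pos.le
  have h8 : 0 ≤ b * rs F a s (n + 1) := mul_nonneg b_pos.le h3.1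
  have h9 : 2 ^ 20 ≤ F.P1 a (xs F a s n) - b * rs F a s (n + 1) := by
    have := rsf_num1
    linarith [h6.1]
  have h10 : F.P1 a (xs F a s n) - b * rs F a s (n + 1) ≤ sg + eps := by linarith [h6.2]
  constructor
  · rw [div_le_iff₀ (by positivity)]
    have h12 : (1 - 1 / 2 ^ 95 : ℝ) = (1 - 1 / 2 ^ 95) *
        (rs F a s n * (F.P1 a (xs F a s n) - b * rs F a s (n + 1))) := by rw [h1, mul_one]
    rw [h12]
    have h13 : (0 : ℝ) ≤ 1 - 1 / 2 ^ 95 := by norm_num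
    calc (1 - 1 / 2 ^ 95 : ℝ) * (rs F a s n * (F.P1 a (xs F a s n) - b * rs F a s (n + 1)))
        ≤ (1 - 1 / 2 ^ 95) * (rs F a s n * (sg + eps)) := by
          apply mul_le_mul_of_nonneg_left _ h13
          exact mul_le_mul_of_nonneg_left h10 h4.1
      _ = rs F a s n * ((1 - 1 / 2 ^ 95) * (sg + eps)) := by ring
      _ ≤ rs F a s n * 2 ^ 20 := mul_le_mul_of_nonneg_left rsf_num2 h4.1
  · rw [le_div_iff₀ (by positivity)]
    calc rs F a s n * 2 ^ 20 ≤ rs F a s n * (F.P1 a (xs F a s n) - b * rs F a s (n + 1)) :=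
          mul_le_mul_of_nonneg_left h9 h4.1
      _ = 1 := h1

/-- **O6'** the backward fraction at a letter of `K_1` -/
theorem ts_e (F : Fam) {a : Fin 8 → ℝ} (ha : Cube a) {s : ℤ → Sym} (hs : Adm s) {n : ℤ} {c : KA}
    (hn : s n = .p (.e c)) : |ts F a s n * (Pl.e c).sl - 1| ≤ 1 / 2 ^ 135 := by
  have hS := isSol_sol F ha hs
  have h1 := hS.plt n _ hn
  have h2 := F.pl1 a ha _ _ (W_sub_Wp _ (hS.plW n _ hn))
  have h3 := hS.tb (n - 1)
  have h4 := hS.tb n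
  have h6 : ts F a s n * (Pl.e c).sl - 1 =
      ts F a s n * (b * ts F a s (n - 1) - (F.P1 a (xs F a s n) - (Pl.e c).sl)) := by
    have : ts F a s n * (Pl.e c).sl - 1 = ts F a s n * (Pl.e c).sl -
      ts F a s n * (F.P1 a (xs F a s n) - b * ts F a s (n - 1)) := by
      have h7 := h1
      unfold ts xs at h7 ⊢
      rw [h7]
    rw [this]
    ring
  rw [h6, abs_mul, abs_of_nonneg h4.1]
  have h7 : |b * ts F a s (n - 1) - (F.P1 a (xs F a s n) - (Pl.e c).sl)| ≤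
      b * (1 / 2 ^ 19) + eps := by
    refine (abs_sub _ _).trans ?_
    rw [abs_of_nonneg (mul_nonneg b_pos.le h3.1)]
    exact add_le_add (mul_le_mul_of_nonneg_left h3.2 b_pos.le) h2
  have h8 : eps ≤ 1 / 2 ^ 119 := by
    have h9 := eps_le_h
    have h10 : h / 2 ^ 800 ≤ h := div_le_self h_pos.le (one_le_pow₀ (by norm_num))
    have h11 := h_hi
    have h12 : (1 : ℝ) / 2 ^ 120 ≤ 1 / 2 ^ 119 := by norm_num
    linarith
  have h9 : b * (1 / 2 ^ 19) = 1 / 2 ^ 119 := by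
    unfold b
    norm_num
  calc ts F a s n * |b * ts F a s (n - 1) - (F.P1 a (xs F a s n) - (Pl.e c).sl)|
      ≤ 1 / 2 ^ 19 * (b * (1 / 2 ^ 19) + eps) :=
        mul_le_mul h4.2 h7 (abs_nonneg _) (by positivity)
    _ ≤ 1 / 2 ^ 19 * (1 / 2 ^ 119 + 1 / 2 ^ 119) := by
        rw [h9]
        apply mul_le_mul_of_nonneg_left _ (by positivity)
        linarith
    _ ≤ 1 / 2 ^ 135 := by norm_num

end Pool.Agent.WildW
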