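import Pool.Agent.Lib.MP_3dbc4a_an_WO.AdmSf
import Pool.Agent.Lib.MP_3dbc4a_an_WO.RsF

/-!
# MP_3dbc4a_an, project W, block O: the root
-/

set_option autoImplicit false

open Filter Set
open scoped Topology

namespace Pool.Agent.WildW

open OB

/-- **O24** the root: `13` letters `estar`, `78` letters `mid`; `X = (3/2)^13 (1 ± 2^-80)`,
between `194` and `195`. -/
theorem root_ratio (F : Fam) {a : Fin 8 → ℝ} (ha : Cube a) (i : Fin 8) :
    149 * Wv F a i (List.replicate 13 estar) (List.replicate 78 mid) ≤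
      b * Sv F a i (List.replicate 13 estar) (List.replicate 78 mid) ∧
    b * Sv F a i (List.replicate 13 estar) (List.replicate 78 mid) ≤
      301 * Wv F a i (List.replicate 13 estar) (List.replicate 78 mid) := by
  unfold Wv Sv
  simp only [List.length_replicate]
  set s := sf i (extE (List.replicate 13 estar)) (extB (List.replicate 78 mid) mid) with hs
  have hadm : Adm (symOf s) := adm_sf i _ _
  have hb := b_pos
  set u : ℕ → ℝ := fun n ↦ rs F a (symOf s) ((n : ℤ) + 1) * 2 ^ 20 with hu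
  set v : ℕ → ℝ := fun n ↦ ts F a (symOf s) (-(n : ℤ) - 1) * (3 * 2 ^ 19) with hv
  have hu1 : ∀ n ∈ Finset.range 78, 999 / 1000 ≤ u n ∧ u n ≤ 1 := by
    intro n _
    obtain ⟨h1, h2⟩ := rs_f F ha hadm (symOf_p (sf_pos i _ _ n))
    have h3 : (999 : ℝ) / 1000 ≤ 1 - 1 / 2 ^ 95 := by norm_num
    constructor
    · calc (999 : ℝ) / 1000 ≤ (1 - 1 / 2 ^ 95) / 2 ^ 20 * 2 ^ 20 := by
            rw [div_mul_cancel₀ _ (by positivity)]
            exact h3
        _ ≤ u n := mul_le_mul_of_nonneg_right h1 (by positivity)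
    · calc u n ≤ 1 / 2 ^ 20 * 2 ^ 20 := mul_le_mul_of_nonneg_right h2 (by positivity)
        _ = 1 := by norm_num
  have hv1 : ∀ n ∈ Finset.range 13, 999 / 1000 ≤ v n ∧ v n ≤ 1001 / 1000 := by
    intro n hn
    have hn' := Finset.mem_range.1 hn
    have h1 := ts_e F ha hadm (symOf_p (sf_neg i (extE (List.replicate 13 estar))
      (extB (List.replicate 78 mid) mid) n))
    have h2 : extE (List.replicate 13 estar) n = estar := by
      rw [extE_lt (by simpa using hn'), List.getElem_replicate]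
    have h3 : (Pl.e estar).sl = 3 * 2 ^ 19 := by simp [Pl.sl, estar]
    rw [h2, h3] at h1
    have h4 := abs_le.1 h1
    have h5 : (1 : ℝ) / 2 ^ 135 ≤ 1 / 1000 := by norm_num
    simp only [hv]
    constructor <;> linarith [h4.1, h4.2]
  have hU1 : (9 : ℝ) / 10 ≤ ∏ n ∈ Finset.range 78, u n := by
    calc (9 : ℝ) / 10 ≤ (999 / 1000) ^ 78 := by norm_num
      _ = ∏ n ∈ Finset.range 78, (999 / 1000 : ℝ) := by
        rw [Finset.prod_const, Finset.card_range]
      _ ≤ _ := Finset.prod_le_prod (fun _ _ ↦ by norm_num) fun n hn ↦ (hu1 n hn).1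
  have hU2 : ∏ n ∈ Finset.range 78, u n ≤ 1 :=
    Finset.prod_le_one (fun n hn ↦ le_trans (by norm_num) (hu1 n hn).1) fun n hn ↦ (hu1 n hn).2
  have hV1 : (9 : ℝ) / 10 ≤ ∏ n ∈ Finset.range 13, v n := by
    calc (9 : ℝ) / 10 ≤ (999 / 1000) ^ 13 := by norm_num
      _ = ∏ n ∈ Finset.range 13, (999 / 1000 : ℝ) := by
        rw [Finset.prod_const, Finset.card_range]
      _ ≤ _ := Finset.prod_le_prod (fun _ _ ↦ by norm_num) fun n hn ↦ (hv1 n hn).1
  have hV2 : ∏ n ∈ Finset.range 13, v n ≤ 11 / 10 := by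
    calc ∏ n ∈ Finset.range 13, v n ≤ ∏ n ∈ Finset.range 13, (1001 / 1000 : ℝ) :=
          Finset.prod_le_prod (fun n hn ↦ le_trans (by norm_num) (hv1 n hn).1)
            fun n hn ↦ (hv1 n hn).2
      _ = (1001 / 1000) ^ 13 := by rw [Finset.prod_const, Finset.card_range]
      _ ≤ 11 / 10 := by norm_num
  have hS : prodR F a s 78 = (∏ n ∈ Finset.range 78, u n) * (1 / 2 ^ 20) ^ 78 := by
    unfold prodR
    have : ∏ n ∈ Finset.range 78, rs F a (symOf s) ((n : ℤ) + 1) =
        ∏ n ∈ Finset.range 78, (u n * (1 / 2 ^ 20)) := by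
      refine Finset.prod_congr rfl fun n _ ↦ ?_
      simp only [hu]
      rw [mul_assoc, mul_one_div_cancel (by positivity), mul_one]
    rw [this, Finset.prod_mul_distrib, Finset.prod_const, Finset.card_range]
  have hW : prodT F a s 13 = b * ((b / (3 * 2 ^ 19)) ^ 13 * ∏ n ∈ Finset.range 13, v n) := by
    unfold prodT
    have : ∏ n ∈ Finset.range 13, (b * ts F a (symOf s) (-(n : ℤ) - 1)) =
        ∏ n ∈ Finset.range 13, (b / (3 * 2 ^ 19) * v n) := by
      refine Finset.prod_congr rfl fun n _ ↦ ?_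
      simp only [hv]
      field_simp
    rw [this, Finset.prod_mul_distrib, Finset.prod_const, Finset.card_range]
  set K : ℝ := (1 / 2 ^ 20) ^ 78 with hK
  have hK0 : 0 < K := by positivity
  have hc : (b / (3 * 2 ^ 19)) ^ 13 = K * (8192 / 1594323) := by
    have e1 : K = (1 / 2 ^ 120) ^ 13 := by
      rw [hK, show 78 = 6 * 13 from rfl, pow_mul]
      congr 1
      norm_num
    have e2 : b / (3 * 2 ^ 19) = 1 / 2 ^ 120 * (2 / 3) := by
      unfold b
      norm_num
    rw [e1, e2, mul_pow]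
    congr 1
    norm_num
  rw [hS, hW, hc]
  set U := ∏ n ∈ Finset.range 78, u n with hU
  set V := ∏ n ∈ Finset.range 13, v n with hV
  constructor
  · have h1 : 149 * (8192 / 1594323 * V) ≤ U := by
      have : (149 : ℝ) * (8192 / 1594323 * (11 / 10)) ≤ 9 / 10 := by norm_num
      linarith
    calc 149 * (b * (K * (8192 / 1594323) * V)) = b * K * (149 * (8192 / 1594323 * V)) := by ring
      _ ≤ b * K * U := mul_le_mul_of_nonneg_left h1 (by positivity)
      _ = _ := by ring
  · have h1 : U ≤ 301 * (8192 / 1594323 * V) := by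
      have : (1 : ℝ) ≤ 301 * (8192 / 1594323 * (9 / 10)) := by norm_num
      linarith
    calc b * (U * K) = b * K * U := by ring
      _ ≤ b * K * (301 * (8192 / 1594323 * V)) := mul_le_mul_of_nonneg_left h1 (by positivity)
      _ = _ := by ring

end Pool.Agent.WildW
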