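import Pool.Agent.Lib.MP_3dbc4a_an_WO.Sharp

/-!
# MP_3dbc4a_an, project W, block O: comparison of residuals, half lines
-/

set_option autoImplicit false

open Filter Set
open scoped Topology

namespace Pool.Agent.WildW

open OB

private theorem sharpl_lim {A D K : ℝ} {x : ℕ → ℝ} {q c : ℝ} (hq0 : 0 ≤ q) (hq1 : q < 1)
    (hx : ∀ n, 0 ≤ x n ∧ x n ≤ c * q ^ n)
    (h : ∀ n, ∃ d : ℝ, |d| ≤ 4 ∧ |A + x n * d| ≤ K * (D + x n)) : |A| ≤ K * D := by
  have h1 : Tendsto x atTop (𝓝 0) := by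
    have h2 : Tendsto (fun n => c * q ^ n) atTop (𝓝 (c * 0)) :=
      (tendsto_pow_atTop_nhds_zero_of_lt_one hq0 hq1).const_mul c
    rw [mul_zero] at h2
    exact squeeze_zero (fun n => (hx n).1) (fun n => (hx n).2) h2
  have h2 : Tendsto (fun n => K * (D + x n) + x n * 4) atTop (𝓝 (K * (D + 0) + 0 * 4)) :=
    ((h1.const_add D).const_mul K).add (h1.mul_const 4)
  have h3 : K * (D + 0) + 0 * 4 = K * D := by ring
  rw [h3] at h2
  refine ge_of_tendsto' h2 fun n => ?_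
  obtain ⟨d, hd, hA⟩ := h n
  have h4 : A = (A + x n * d) + (-(x n * d)) := by ring
  have h5 : |x n * d| ≤ x n * 4 := by
    rw [abs_mul, abs_of_nonneg (hx n).1]
    exact mul_le_mul_of_nonneg_left hd (hx n).1
  calc |A| = |(A + x n * d) + (-(x n * d))| := by rw [← h4]
    _ ≤ |A + x n * d| + |-(x n * d)| := abs_add_le _ _
    _ ≤ K * (D + x n) + x n * 4 := by
      rw [abs_neg]
      exact add_le_add hA h5

/-- **O5a** same past in `K_1` (`N → ∞` in Sharp, `prodT ≤ b 2^(-119 N)`). -/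
theorem sharp_past (F : Fam) {a : Fin 8 → ℝ} (ha : Cube a) {s s' : ℤ → Lt} (hs : Adm (symOf s))
    (hs' : Adm (symOf s')) {i : Fin 8} {l : ℕ} (h0 : s 0 = .d i) (h0' : s' 0 = .d i)
    (hp : ∀ n : ℕ, n < l → ∃ j, s (n + 1) = .p (.f j) ∧ s' (n + 1) = .p (.f j))
    (hm : ∀ n : ℕ, ∃ c, s (-(n : ℤ) - 1) = .p (.e c) ∧ s' (-(n : ℤ) - 1) = .p (.e c)) :
    |Phi F a (symOf s) 0 - Phi F a (symOf s') 0 +
      prodR F a s l * (xs F a (symOf s) (l + 1) - xs F a (symOf s') (l + 1))| ≤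
      1 / 2 ^ 125 * prodR F a s l := by
  refine sharpl_lim (x := fun N => prodT F a s N) (q := 1 / 2 ^ 119) (c := b) (by positivity)
    (by norm_num) (fun N => ?_) (fun N => ?_)
  · have h1 := prodT_b F ha hs (N := N) (fun n _ => by
      obtain ⟨c, hc, _⟩ := hm n
      exact ⟨c, hc⟩)
    refine ⟨le_trans ?_ h1.1, h1.2⟩
    exact mul_nonneg b_pos.le (by positivity)
  · refine ⟨xs F a (symOf s) (-(N : ℤ) - 1) - xs F a (symOf s') (-(N : ℤ) - 1),
      xs_dist F ha ha hs hs' _ _, ?_⟩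
    exact sharp F ha hs hs' h0 h0' hp (fun n _ => hm n)

/-- **O5b** same future in `K_2` (`l → ∞` in Sharp). -/
theorem sharp_fut (F : Fam) {a : Fin 8 → ℝ} (ha : Cube a) {s s' : ℤ → Lt} (hs : Adm (symOf s))
    (hs' : Adm (symOf s')) {i : Fin 8} {N : ℕ} (h0 : s 0 = .d i) (h0' : s' 0 = .d i)
    (hp : ∀ n : ℕ, ∃ j, s (n + 1) = .p (.f j) ∧ s' (n + 1) = .p (.f j))
    (hm : ∀ n : ℕ, n < N → ∃ c, s (-(n : ℤ) - 1) = .p (.e c) ∧ s' (-(n : ℤ) - 1) = .p (.e c)) :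
    |Phi F a (symOf s) 0 - Phi F a (symOf s') 0 +
      prodT F a s N * (xs F a (symOf s) (-(N : ℤ) - 1) - xs F a (symOf s') (-(N : ℤ) - 1))| ≤
      1 / 2 ^ 125 * prodT F a s N := by
  refine sharpl_lim (x := fun l => prodR F a s l) (q := 1 / 2 ^ 19) (c := 1) (by positivity)
    (by norm_num) (fun l => ?_) (fun l => ?_)
  · have h1 := prodR_b F ha hs (l := l) (fun n _ => by
      obtain ⟨c, hc, _⟩ := hp n
      exact ⟨c, hc⟩)
    rw [one_mul]
    exact ⟨le_trans (by positivity) h1.1, h1.2⟩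
  · refine ⟨xs F a (symOf s) (l + 1) - xs F a (symOf s') (l + 1),
      xs_dist F ha ha hs hs' _ _, ?_⟩
    have h1 := sharp F ha hs hs' h0 h0' (l := l) (N := N) (fun n _ => hp n) hm
    rw [add_right_comm] at h1
    rw [add_comm (prodT F a s N)]
    exact h1

end Pool.Agent.WildW
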