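import Pool.Agent.Lib.MP_3dbc4a_an_WO.ODefs

/-!
# MP_3dbc4a_an, project W, block O: all words are words of digits
-/

set_option autoImplicit false

open Filter Set
open scoped Topology

namespace Pool.Agent.WildW

/-- **O17** all words are `dig` words -/
theorem dig_surj (γ : List KB) : ∃ j < (2 ^ 20) ^ γ.length, dig γ.length j = γ := by
  induction γ using List.reverseRecOn with
  | nil => exact ⟨0, by simp, rfl⟩
  | append_singleton γ x ih =>
    obtain ⟨j, hj, hj2⟩ := ih
    refine ⟨j * 2 ^ 20 + x, ?_, ?_⟩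
    · have h5 : (2 ^ 20) ^ (γ ++ [x]).length = (2 ^ 20) ^ γ.length * 2 ^ 20 := by
        rw [List.length_append, List.length_singleton, pow_succ (2 ^ 20) γ.length]
      rw [h5]
      have h1 : (x : ℕ) < 2 ^ 20 := x.2
      have h2 : j + 1 ≤ (2 ^ 20) ^ γ.length := hj
      calc j * 2 ^ 20 + x < j * 2 ^ 20 + 2 ^ 20 := by omega
        _ = (j + 1) * 2 ^ 20 := by ring
        _ ≤ (2 ^ 20) ^ γ.length * 2 ^ 20 := Nat.mul_le_mul_right _ h2
    · rw [List.length_append, List.length_singleton]
      have h1 : (x : ℕ) < 2 ^ 20 := x.2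
      have h3 : (j * 2 ^ 20 + (x : ℕ)) / 2 ^ 20 = j := by omega
      have h4 : (j * 2 ^ 20 + (x : ℕ)) % 2 ^ 20 = x := by omega
      unfold dig
      rw [h3, hj2]
      congr 2
      exact Fin.ext h4

end Pool.Agent.WildW
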