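import Pool.Agent.Lib.MP_3dbc4a_an_WI.Dep
import Pool.Agent.Lib.MP_3dbc4a_an_WO.ODefs

/-!
# MP_3dbc4a_an, project W, block O: basic facts on solutions
-/

set_option autoImplicit false

open Filter Set
open scoped Topology

namespace Pool.Agent.WildW.OB

theorem eps_le_one : eps ≤ 1 := by
  unfold eps
  rw [div_le_one (by positivity)]
  exact one_le_pow₀ (by norm_num)

theorem W_sub_Wp (c : Lt) : c.W ⊆ c.Wp := by
  intro x hx
  have h1 := h_pos
  exact ⟨by have := hx.1; linarith, by have := hx.2; linarith⟩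

theorem symOf_p {s : ℤ → Lt} {n : ℤ} {c : Pl} (hn : s n = .p c) : symOf s n = .p c := by
  simp only [symOf, hn, Lt.sym]

theorem symOf_d {s : ℤ → Lt} {n : ℤ} {i : Fin 8} (hn : s n = .d i) : symOf s n = .d i := by
  simp only [symOf, hn, Lt.sym]

theorem symOf_eq {s s' : ℤ → Lt} {n : ℤ} (hn : s n = s' n) : symOf s n = symOf s' n := by
  simp only [symOf, hn]

/-- mean value theorem for `P` -/
theorem mvt_P (F : Fam) (a : Fin 8 → ℝ) (x y : ℝ) :
    ∃ z ∈ uIcc x y, F.P a x - F.P a y = F.P1 a z * (x - y) := by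
  rcases lt_trichotomy x y with h1 | h1 | h1
  · obtain ⟨z, hz, hz2⟩ := exists_hasDerivAt_eq_slope (F.P a) (F.P1 a) h1
      (fun t _ => (F.hP a t).continuousAt.continuousWithinAt) (fun t _ => F.hP a t)
    refine ⟨z, ?_, ?_⟩
    · rw [uIcc_of_le h1.le]
      exact Ioo_subset_Icc_self hz
    · have h2 : y - x ≠ 0 := by
        intro h3
        linarith
      rw [hz2]
      field_simp
      ring
  · subst h1
    exact ⟨x, by simp, by ring⟩
  · obtain ⟨z, hz, hz2⟩ := exists_hasDerivAt_eq_slope (F.P a) (F.P1 a) h1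
      (fun t _ => (F.hP a t).continuousAt.continuousWithinAt) (fun t _ => F.hP a t)
    refine ⟨z, ?_, ?_⟩
    · rw [uIcc_of_ge h1.le]
      exact Ioo_subset_Icc_self hz
    · have h2 : x - y ≠ 0 := by
        intro h3
        linarith
      rw [hz2]
      field_simp

/-- mean value theorem for `P1` -/
theorem mvt_P1 (F : Fam) (a : Fin 8 → ℝ) (x y : ℝ) :
    ∃ z ∈ uIcc x y, F.P1 a x - F.P1 a y = F.P2 a z * (x - y) := by
  rcases lt_trichotomy x y with h1 | h1 | h1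
  · obtain ⟨z, hz, hz2⟩ := exists_hasDerivAt_eq_slope (F.P1 a) (F.P2 a) h1
      (fun t _ => (F.hP1 a t).continuousAt.continuousWithinAt) (fun t _ => F.hP1 a t)
    refine ⟨z, ?_, ?_⟩
    · rw [uIcc_of_le h1.le]
      exact Ioo_subset_Icc_self hz
    · have h2 : y - x ≠ 0 := by
        intro h3
        linarith
      rw [hz2]
      field_simp
      ring
  · subst h1
    exact ⟨x, by simp, by ring⟩
  · obtain ⟨z, hz, hz2⟩ := exists_hasDerivAt_eq_slope (F.P1 a) (F.P2 a) h1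
      (fun t _ => (F.hP1 a t).continuousAt.continuousWithinAt) (fun t _ => F.hP1 a t)
    refine ⟨z, ?_, ?_⟩
    · rw [uIcc_of_ge h1.le]
      exact Ioo_subset_Icc_self hz
    · have h2 : x - y ≠ 0 := by
        intro h3
        linarith
      rw [hz2]
      field_simp

theorem W_uIcc {c : Lt} {x y z : ℝ} (hx : x ∈ c.W) (hy : y ∈ c.W) (hz : z ∈ uIcc x y) :
    z ∈ c.W := by
  have h1 : uIcc x y ⊆ Icc c.lo c.hi := uIcc_subset_Icc hx hy
  exact h1 hz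

theorem abs_sub_le_of_mem_uIcc {x y z : ℝ} (hz : z ∈ uIcc x y) : |z - x| ≤ |x - y| := by
  rcases le_total x y with h1 | h1
  · rw [uIcc_of_le h1] at hz
    rw [abs_of_nonneg (by linarith [hz.1]), abs_of_nonpos (by linarith)]
    linarith [hz.2]
  · rw [uIcc_of_ge h1] at hz
    rw [abs_of_nonpos (by linarith [hz.2]), abs_of_nonneg (by linarith)]
    linarith [hz.1]

/-- divided differences on the window of a plain letter (mean value theorem for `P` and `P1`) -/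
theorem dd_pl (F : Fam) {a : Fin 8 → ℝ} (ha : Cube a) (c : Pl) {x y : ℝ}
    (hx : x ∈ (Lt.p c).W) (hy : y ∈ (Lt.p c).W) :
    ∃ q : ℝ, F.P a x - F.P a y = q * (x - y) ∧ |q - F.P1 a x| ≤ eps * |x - y| ∧
      |q - c.sl| ≤ eps := by
  obtain ⟨z, hz, hz2⟩ := mvt_P F a x y
  have hzW : z ∈ (Lt.p c).W := W_uIcc hx hy hz
  refine ⟨F.P1 a z, hz2, ?_, F.pl1 a ha c z (W_sub_Wp _ hzW)⟩
  obtain ⟨w, hw, hw2⟩ := mvt_P1 F a z x
  have hwW : w ∈ (Lt.p c).W := W_uIcc hzW hx hw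
  have h3 := F.pl2 a ha c w (W_sub_Wp _ hwW)
  rw [hw2, abs_mul]
  exact mul_le_mul h3 (abs_sub_le_of_mem_uIcc hz) (abs_nonneg _) eps_pos.le

/-- slope of `P1` on the window of a fold -/
theorem fo_slope (F : Fam) {a : Fin 8 → ℝ} (ha : Cube a) (i : Fin 8) {x y : ℝ}
    (hx : x ∈ (Lt.d i).W) (hy : y ∈ (Lt.d i).W) :
    (2 ^ 21 - eps) * |x - y| ≤ |F.P1 a x - F.P1 a y| := by
  obtain ⟨w, hw, hw2⟩ := mvt_P1 F a x y
  have hwW : w ∈ (Lt.d i).W := W_uIcc hx hy hw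
  have h3 := F.fo2 a ha i w (W_sub_Wp _ hwW)
  rw [hw2, abs_mul]
  refine mul_le_mul_of_nonneg_right ?_ (abs_nonneg _)
  have h4 := abs_le.1 h3
  have h5 : F.P2 a w ≤ -(2 ^ 21 - eps) := by linarith [h4.2]
  calc (2 : ℝ) ^ 21 - eps ≤ -F.P2 a w := by linarith
    _ ≤ |F.P2 a w| := neg_le_abs _

/-- `P1` is antitone on the window of a fold -/
theorem fo_anti (F : Fam) {a : Fin 8 → ℝ} (ha : Cube a) (i : Fin 8) {x y : ℝ}
    (hx : x ∈ (Lt.d i).W) (hy : y ∈ (Lt.d i).W) (hxy : x ≤ y) : F.P1 a y ≤ F.P1 a x := by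
  obtain ⟨w, hw, hw2⟩ := mvt_P1 F a x y
  have hwW : w ∈ (Lt.d i).W := W_uIcc hx hy hw
  have h3 := F.fo2 a ha i w (W_sub_Wp _ hwW)
  have h4 := abs_le.1 h3
  have h6 := eps_le_one
  have h5 : F.P2 a w ≤ 0 := by
    have : (1 : ℝ) ≤ 2 ^ 21 := by norm_num
    linarith [h4.2]
  have h7 : 0 ≤ F.P2 a w * (x - y) := mul_nonneg_of_nonpos_of_nonpos h5 (by linarith)
  linarith

/-- divided differences on the window of a fold -/
theorem dd_fo (F : Fam) {a : Fin 8 → ℝ} (ha : Cube a) (i : Fin 8) {x y : ℝ}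
    (hx : x ∈ (Lt.d i).W) (hy : y ∈ (Lt.d i).W) :
    ∃ q : ℝ, F.P a x - F.P a y = q * (x - y) ∧ min (F.P1 a x) (F.P1 a y) ≤ q ∧
      q ≤ max (F.P1 a x) (F.P1 a y) := by
  obtain ⟨z, hz, hz2⟩ := mvt_P F a x y
  have hzW : z ∈ (Lt.d i).W := W_uIcc hx hy hz
  refine ⟨F.P1 a z, hz2, ?_, ?_⟩
  · rcases le_total x y with h1 | h1
    · rw [uIcc_of_le h1] at hz
      exact (min_le_right _ _).trans (fo_anti F ha i hzW hy hz.2)
    · rw [uIcc_of_ge h1] at hz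
      exact (min_le_left _ _).trans (fo_anti F ha i hzW hx hz.2)
  · rcases le_total x y with h1 | h1
    · rw [uIcc_of_le h1] at hz
      exact (fo_anti F ha i hx hzW hz.1).trans (le_max_left _ _)
    · rw [uIcc_of_ge h1] at hz
      exact (fo_anti F ha i hy hzW hz.1).trans (le_max_right _ _)

theorem xs_mem (F : Fam) {a : Fin 8 → ℝ} (ha : Cube a) {s : ℤ → Lt} (hs : Adm (symOf s))
    (n : ℤ) : -(4 * h) ≤ xs F a (symOf s) n ∧ xs F a (symOf s) n ≤ 3 + h :=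
  IsSol.mem F hs (isSol_sol F ha hs) n

/-- two positions differ by at most `4` -/
theorem xs_dist (F : Fam) {a a' : Fin 8 → ℝ} (ha : Cube a) (ha' : Cube a') {s s' : ℤ → Lt}
    (hs : Adm (symOf s)) (hs' : Adm (symOf s')) (n m : ℤ) :
    |xs F a (symOf s) n - xs F a' (symOf s') m| ≤ 4 := by
  have h1 := xs_mem F ha hs n
  have h2 := xs_mem F ha' hs' m
  have h3 := h_hi
  have h4 : (1 : ℝ) / 2 ^ 120 ≤ 1 / 10 := by norm_num
  rw [abs_le]
  constructor <;> linarith [h1.1, h1.2, h2.1, h2.2]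

theorem xs_W (F : Fam) {a : Fin 8 → ℝ} (ha : Cube a) {s : ℤ → Lt} (hs : Adm (symOf s))
    (n : ℤ) : xs F a (symOf s) n ∈ (s n).W := by
  have h1 := isSol_sol F ha hs
  rcases hc : s n with c | i
  · exact h1.plW n c (symOf_p hc)
  · exact h1.foW n i (symOf_d hc)

theorem xs_eq (F : Fam) {a : Fin 8 → ℝ} (ha : Cube a) {s : ℤ → Lt} (hs : Adm (symOf s))
    {n : ℤ} {c : Pl} (hn : s n = .p c) :
    F.P a (xs F a (symOf s) n) = xs F a (symOf s) (n + 1) + b * xs F a (symOf s) (n - 1) :=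
  (isSol_sol F ha hs).plx n c (symOf_p hn)

/-- the equation with the affine branch -/
theorem xs_aff (F : Fam) {a : Fin 8 → ℝ} (ha : Cube a) {s : ℤ → Lt} (hs : Adm (symOf s))
    {n : ℤ} {c : Pl} (hn : s n = .p c) :
    |c.bs + c.sl * (xs F a (symOf s) n - c.off) -
      (xs F a (symOf s) (n + 1) + b * xs F a (symOf s) (n - 1))| ≤ eps := by
  have h1 := xs_eq F ha hs hn
  have h2 := xs_W F ha hs n
  rw [hn] at h2
  have h3 := F.pl0 a ha c _ (W_sub_Wp _ h2)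
  rw [← h1, abs_sub_comm]
  exact h3

theorem fold_eq (F : Fam) {a : Fin 8 → ℝ} (ha : Cube a) {s : ℤ → Lt} (hs : Adm (symOf s))
    {n : ℤ} {i : Fin 8} (hn : s n = .d i) :
    F.P1 a (xs F a (symOf s) n) =
      b * (rs F a (symOf s) (n + 1) + ts F a (symOf s) (n - 1)) :=
  (isSol_sol F ha hs).fox n i (symOf_d hn)

theorem rs_b (F : Fam) {a : Fin 8 → ℝ} (ha : Cube a) {s : ℤ → Lt} (hs : Adm (symOf s))
    (n : ℤ) : 0 ≤ rs F a (symOf s) n ∧ rs F a (symOf s) n ≤ 1 / 2 ^ 19 :=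
  (isSol_sol F ha hs).rb n

theorem ts_b (F : Fam) {a : Fin 8 → ℝ} (ha : Cube a) {s : ℤ → Lt} (hs : Adm (symOf s))
    (n : ℤ) : 0 ≤ ts F a (symOf s) n ∧ ts F a (symOf s) n ≤ 1 / 2 ^ 19 :=
  (isSol_sol F ha hs).tb n

theorem rs_rec (F : Fam) {a : Fin 8 → ℝ} (ha : Cube a) {s : ℤ → Lt} (hs : Adm (symOf s))
    {n : ℤ} {c : Pl} (hn : s n = .p c) :
    rs F a (symOf s) n * (F.P1 a (xs F a (symOf s) n) - b * rs F a (symOf s) (n + 1)) = 1 :=
  (isSol_sol F ha hs).plr n c (symOf_p hn)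

theorem ts_rec (F : Fam) {a : Fin 8 → ℝ} (ha : Cube a) {s : ℤ → Lt} (hs : Adm (symOf s))
    {n : ℤ} {c : Pl} (hn : s n = .p c) :
    ts F a (symOf s) n * (F.P1 a (xs F a (symOf s) n) - b * ts F a (symOf s) (n - 1)) = 1 :=
  (isSol_sol F ha hs).plt n c (symOf_p hn)

theorem rs_pos (F : Fam) {a : Fin 8 → ℝ} (ha : Cube a) {s : ℤ → Lt} (hs : Adm (symOf s))
    {n : ℤ} {c : Pl} (hn : s n = .p c) : 0 < rs F a (symOf s) n := by
  have h1 := rs_rec F ha hs hn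
  rcases (rs_b F ha hs n).1.lt_or_eq with h2 | h2
  · exact h2
  · rw [← h2] at h1
    simp at h1

theorem ts_pos (F : Fam) {a : Fin 8 → ℝ} (ha : Cube a) {s : ℤ → Lt} (hs : Adm (symOf s))
    {n : ℤ} {c : Pl} (hn : s n = .p c) : 0 < ts F a (symOf s) n := by
  have h1 := ts_rec F ha hs hn
  rcases (ts_b F ha hs n).1.lt_or_eq with h2 | h2
  · exact h2
  · rw [← h2] at h1
    simp at h1

theorem P1_pl (F : Fam) {a : Fin 8 → ℝ} (ha : Cube a) {s : ℤ → Lt} (hs : Adm (symOf s))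
    {n : ℤ} {c : Pl} (hn : s n = .p c) : |F.P1 a (xs F a (symOf s) n) - c.sl| ≤ eps := by
  have h2 := xs_W F ha hs n
  rw [hn] at h2
  exact F.pl1 a ha c _ (W_sub_Wp _ h2)

/-- the difference of the equations of two words at a common plain letter -/
theorem diff_pl (F : Fam) {a : Fin 8 → ℝ} (ha : Cube a) {s s' : ℤ → Lt} (hs : Adm (symOf s))
    (hs' : Adm (symOf s')) {n : ℤ} {c : Pl} (hn : s n = .p c) (hn' : s' n = .p c) :
    ∃ q : ℝ, q * (xs F a (symOf s) n - xs F a (symOf s') n) =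
        (xs F a (symOf s) (n + 1) - xs F a (symOf s') (n + 1)) +
        b * (xs F a (symOf s) (n - 1) - xs F a (symOf s') (n - 1)) ∧
      |q - F.P1 a (xs F a (symOf s) n)| ≤ eps * |xs F a (symOf s) n - xs F a (symOf s') n| ∧
      |q - c.sl| ≤ eps := by
  have h2 := xs_W F ha hs n
  have h2' := xs_W F ha hs' n
  rw [hn] at h2
  rw [hn'] at h2'
  obtain ⟨q, hq1, hq2, hq3⟩ := dd_pl F ha c h2 h2'
  refine ⟨q, ?_, hq2, hq3⟩
  rw [← hq1, xs_eq F ha hs hn, xs_eq F ha hs' hn']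
  ring

theorem geom_le (x : ℝ) (hx0 : 0 ≤ x) (hx : x ≤ 1 / 2) (l : ℕ) :
    ∑ n ∈ Finset.range l, x ^ (n + 1) ≤ 1 := by
  have h1 : ∀ l : ℕ, ∑ n ∈ Finset.range l, x ^ (n + 1) ≤ 1 - x ^ l := by
    intro l
    induction l with
    | zero => simp
    | succ l ih =>
      rw [Finset.sum_range_succ]
      have h2 : x ^ (l + 1) = x * x ^ l := by ring
      have h3 : 0 ≤ x ^ l := pow_nonneg hx0 l
      nlinarith
  have h2 := h1 l
  have h3 : 0 ≤ x ^ l := pow_nonneg hx0 l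
  linarith

theorem geom_le' (x : ℝ) (hx0 : 0 ≤ x) (hx : x ≤ 1 / 2) (l : ℕ) :
    ∑ n ∈ Finset.range l, x ^ (l - 1 - n + 1) ≤ 1 := by
  rw [Finset.sum_range_reflect (fun n => x ^ (n + 1)) l]
  exact geom_le x hx0 hx l

/-- words agreeing on `[0, l]`: the differences of the positions have a small sum (`dep`) -/
theorem sum_right (F : Fam) {a : Fin 8 → ℝ} (ha : Cube a) {s s' : ℤ → Lt}
    (hs : Adm (symOf s)) (hs' : Adm (symOf s')) {l : ℕ} (h0 : s 0 = s' 0)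
    (hp : ∀ n : ℕ, n < l → s (n + 1) = s' (n + 1)) :
    ∑ n ∈ Finset.range l, |xs F a (symOf s) (n + 1) - xs F a (symOf s') (n + 1)| ≤ 10 := by
  have h1 : ∀ n ∈ Finset.range l, |xs F a (symOf s) (n + 1) - xs F a (symOf s') (n + 1)| ≤
      4 * (1 / 2 ^ 119) ^ (n + 1) + 4 * (1 / 2 ^ 19) ^ (l - 1 - n + 1) := by
    intro n hn
    rw [Finset.mem_range] at hn
    have h2 := dep F ha ha hs hs' (n := (n : ℤ) + 1) (u := n) (v := l - 1 - n) (by
      intro m hm1 hm2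
      apply symOf_eq
      obtain ⟨k, rfl⟩ : ∃ k : ℕ, m = (k : ℤ) + 1 := ⟨(m - 1).toNat, by omega⟩
      exact hp k (by omega))
    rw [dist_self, mul_zero, add_zero] at h2
    exact (le_max_left _ _).trans h2
  refine (Finset.sum_le_sum h1).trans ?_
  rw [Finset.sum_add_distrib, ← Finset.mul_sum, ← Finset.mul_sum]
  have h2 := geom_le (1 / 2 ^ 119) (by positivity) (by norm_num) l
  have h3 := geom_le' (1 / 2 ^ 19) (by positivity) (by norm_num) l
  linarith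

/-- words agreeing on `[-N, 0]` -/
theorem sum_left (F : Fam) {a : Fin 8 → ℝ} (ha : Cube a) {s s' : ℤ → Lt}
    (hs : Adm (symOf s)) (hs' : Adm (symOf s')) {N : ℕ} (h0 : s 0 = s' 0)
    (hm : ∀ n : ℕ, n < N → s (-(n : ℤ) - 1) = s' (-(n : ℤ) - 1)) :
    ∑ n ∈ Finset.range N,
      |xs F a (symOf s) (-(n : ℤ) - 1) - xs F a (symOf s') (-(n : ℤ) - 1)| ≤ 10 := by
  have h1 : ∀ n ∈ Finset.range N,
      |xs F a (symOf s) (-(n : ℤ) - 1) - xs F a (symOf s') (-(n : ℤ) - 1)| ≤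
      4 * (1 / 2 ^ 119) ^ (N - 1 - n + 1) + 4 * (1 / 2 ^ 19) ^ (n + 1) := by
    intro n hn
    rw [Finset.mem_range] at hn
    have h2 := dep F ha ha hs hs' (n := -(n : ℤ) - 1) (u := N - 1 - n) (v := n) (by
      intro m hm1 hm2
      apply symOf_eq
      obtain ⟨k, rfl⟩ : ∃ k : ℕ, m = -(k : ℤ) - 1 := ⟨(-m - 1).toNat, by omega⟩
      exact hm k (by omega))
    rw [dist_self, mul_zero, add_zero] at h2
    exact (le_max_left _ _).trans h2
  refine (Finset.sum_le_sum h1).trans ?_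
  rw [Finset.sum_add_distrib, ← Finset.mul_sum, ← Finset.mul_sum]
  have h2 := geom_le' (1 / 2 ^ 119) (by positivity) (by norm_num) N
  have h3 := geom_le (1 / 2 ^ 19) (by positivity) (by norm_num) N
  linarith

/-- the same word, two parameters -/
theorem Ed_par (F : Fam) {a a' : Fin 8 → ℝ} (ha : Cube a) (ha' : Cube a') {s : ℤ → Lt}
    (hs : Adm (symOf s)) (n : ℤ) :
    Ed (xs F a (symOf s)) (rs F a (symOf s)) (ts F a (symOf s)) (xs F a' (symOf s))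
      (rs F a' (symOf s)) (ts F a' (symOf s)) n ≤ eps * dist a a' := by
  have h1 : ∀ u : ℕ, Ed (xs F a (symOf s)) (rs F a (symOf s)) (ts F a (symOf s))
      (xs F a' (symOf s)) (rs F a' (symOf s)) (ts F a' (symOf s)) n ≤
      4 * (1 / 2 ^ 119) ^ (u + 1) + eps * dist a a' := fun u =>
    dep_right F ha ha' hs hs (fun m _ => rfl)
  have h2 : Tendsto (fun u : ℕ => 4 * ((1 : ℝ) / 2 ^ 119) ^ (u + 1) + eps * dist a a') atTop
      (𝓝 (4 * 0 + eps * dist a a')) := by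
    refine Tendsto.add_const _ (Tendsto.const_mul _ ?_)
    exact (tendsto_pow_atTop_nhds_zero_of_lt_one (by positivity) (by norm_num)).comp
      (tendsto_add_atTop_nat 1)
  have h3 := ge_of_tendsto' h2 h1
  simpa using h3

/-- a fraction at a letter of slope at most `2^21 - 1` is at least `2^-21` -/
theorem rs_lo (F : Fam) {a : Fin 8 → ℝ} (ha : Cube a) {s : ℤ → Lt} (hs : Adm (symOf s))
    {n : ℤ} {c : Pl} (hn : s n = .p c) (hc : c.sl ≤ 2 ^ 21 - 1) :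
    1 / 2 ^ 21 ≤ rs F a (symOf s) n := by
  have h1 := rs_rec F ha hs hn
  have h2 := rs_pos F ha hs hn
  have h3 := abs_le.1 (P1_pl F ha hs hn)
  have h4 := (rs_b F ha hs (n + 1)).1
  have h5 := eps_le_one
  have h6 : 0 ≤ b * rs F a (symOf s) (n + 1) := mul_nonneg b_pos.le h4
  rw [div_le_iff₀ (by positivity)]
  have h7 : F.P1 a (xs F a (symOf s) n) - b * rs F a (symOf s) (n + 1) ≤ 2 ^ 21 := by
    linarith [h3.2]
  calc (1 : ℝ) = rs F a (symOf s) n *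
      (F.P1 a (xs F a (symOf s) n) - b * rs F a (symOf s) (n + 1)) := h1.symm
    _ ≤ rs F a (symOf s) n * 2 ^ 21 := mul_le_mul_of_nonneg_left h7 h2.le

theorem ts_lo (F : Fam) {a : Fin 8 → ℝ} (ha : Cube a) {s : ℤ → Lt} (hs : Adm (symOf s))
    {n : ℤ} {c : Pl} (hn : s n = .p c) (hc : c.sl ≤ 2 ^ 21 - 1) :
    1 / 2 ^ 21 ≤ ts F a (symOf s) n := by
  have h1 := ts_rec F ha hs hn
  have h2 := ts_pos F ha hs hn
  have h3 := abs_le.1 (P1_pl F ha hs hn)
  have h4 := (ts_b F ha hs (n - 1)).1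
  have h5 := eps_le_one
  have h6 : 0 ≤ b * ts F a (symOf s) (n - 1) := mul_nonneg b_pos.le h4
  rw [div_le_iff₀ (by positivity)]
  have h7 : F.P1 a (xs F a (symOf s) n) - b * ts F a (symOf s) (n - 1) ≤ 2 ^ 21 := by
    linarith [h3.2]
  calc (1 : ℝ) = ts F a (symOf s) n *
      (F.P1 a (xs F a (symOf s) n) - b * ts F a (symOf s) (n - 1)) := h1.symm
    _ ≤ ts F a (symOf s) n * 2 ^ 21 := mul_le_mul_of_nonneg_left h7 h2.le

theorem sl_f (j : KB) : (Pl.f j).sl ≤ 2 ^ 21 - 1 := by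
  have h1 := sg_hi
  show sg ≤ 2 ^ 21 - 1
  have h2 : (2 : ℝ) ^ 20 + 1 / 2 ^ 76 ≤ 2 ^ 21 - 1 := by norm_num
  linarith

theorem sl_e (c : KA) : (Pl.e c).sl ≤ 2 ^ 21 - 1 := by
  show (if c.1 then (3 : ℝ) * 2 ^ 19 else 3 * 2 ^ 18) ≤ 2 ^ 21 - 1
  split_ifs <;> norm_num

/-- bounds for `prodR` -/
theorem prodR_b (F : Fam) {a : Fin 8 → ℝ} (ha : Cube a) {s : ℤ → Lt} (hs : Adm (symOf s))
    {l : ℕ} (hp : ∀ n : ℕ, n < l → ∃ j, s (n + 1) = .p (.f j)) :
    (1 / 2 ^ 21) ^ l ≤ prodR F a s l ∧ prodR F a s l ≤ (1 / 2 ^ 19) ^ l := by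
  unfold prodR
  have h1 : ∏ _n ∈ Finset.range l, ((1 : ℝ) / 2 ^ 21) = (1 / 2 ^ 21) ^ l := by simp
  have h2 : ∏ _n ∈ Finset.range l, ((1 : ℝ) / 2 ^ 19) = (1 / 2 ^ 19) ^ l := by simp
  rw [← h1, ← h2]
  constructor
  · refine Finset.prod_le_prod (fun _ _ => by positivity) ?_
    intro n hn
    obtain ⟨j, hj⟩ := hp n (Finset.mem_range.1 hn)
    exact rs_lo F ha hs hj (sl_f j)
  · refine Finset.prod_le_prod (fun n _ => (rs_b F ha hs _).1) ?_
    intro n hn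
    exact (rs_b F ha hs _).2

/-- bounds for `prodT` -/
theorem prodT_b (F : Fam) {a : Fin 8 → ℝ} (ha : Cube a) {s : ℤ → Lt} (hs : Adm (symOf s))
    {N : ℕ} (hm : ∀ n : ℕ, n < N → ∃ c, s (-(n : ℤ) - 1) = .p (.e c)) :
    b * (1 / 2 ^ 121) ^ N ≤ prodT F a s N ∧ prodT F a s N ≤ b * (1 / 2 ^ 119) ^ N := by
  unfold prodT
  have h1 : ∏ _n ∈ Finset.range N, ((1 : ℝ) / 2 ^ 121) = (1 / 2 ^ 121) ^ N := by simp
  have h2 : ∏ _n ∈ Finset.range N, ((1 : ℝ) / 2 ^ 119) = (1 / 2 ^ 119) ^ N := by simp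
  have h3 : (1 : ℝ) / 2 ^ 121 = b * (1 / 2 ^ 21) := by
    unfold b
    norm_num
  have h4 : (1 : ℝ) / 2 ^ 119 = b * (1 / 2 ^ 19) := by
    unfold b
    norm_num
  rw [← h1, ← h2]
  constructor
  · refine mul_le_mul_of_nonneg_left ?_ b_pos.le
    refine Finset.prod_le_prod (fun _ _ => by positivity) ?_
    intro n hn
    obtain ⟨j, hj⟩ := hm n (Finset.mem_range.1 hn)
    rw [h3]
    exact mul_le_mul_of_nonneg_left (ts_lo F ha hs hj (sl_e j)) b_pos.le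
  · refine mul_le_mul_of_nonneg_left ?_ b_pos.le
    refine Finset.prod_le_prod (fun n _ => mul_nonneg b_pos.le (ts_b F ha hs _).1) ?_
    intro n hn
    rw [h4]
    exact mul_le_mul_of_nonneg_left (ts_b F ha hs _).2 b_pos.le

end Pool.Agent.WildW.OB
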