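import Pool.Agent.Lib.MP_3dbc4a_an_WO.CfComp
import Pool.Agent.Lib.MP_3dbc4a_an_WO.OBas

/-!
# MP_3dbc4a_an, project W, block O: distortion of the products
-/

set_option autoImplicit false

open Filter Set
open scoped Topology

namespace Pool.Agent.WildW

open OB

private theorem prodd_eps : eps * 10 ≤ 1 / 2 ^ 900 := by
  have h1 : (2 : ℝ) ^ 1000 = 2 ^ 900 * 2 ^ 100 := by rw [← pow_add]
  have h2 : (0 : ℝ) < 2 ^ 900 := by positivity
  unfold eps
  rw [h1, div_mul_eq_mul_div, div_le_div_iff₀ (by positivity) h2]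
  have h3 : (10 : ℝ) ≤ 2 ^ 100 := by norm_num
  calc (1 : ℝ) * 10 * 2 ^ 900 = 2 ^ 900 * 10 := by ring
    _ ≤ 2 ^ 900 * 2 ^ 100 := mul_le_mul_of_nonneg_left h3 h2.le
    _ = 1 * (2 ^ 900 * 2 ^ 100) := by ring

private theorem prodd_P1 (F : Fam) {a : Fin 8 → ℝ} (ha : Cube a) {s s' : ℤ → Lt}
    (hs : Adm (symOf s)) (hs' : Adm (symOf s')) {n : ℤ} {c : Pl} (hn : s n = .p c)
    (hn' : s' n = .p c) :
    |F.P1 a (xs F a (symOf s) n) - F.P1 a (xs F a (symOf s') n)| ≤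
      eps * |xs F a (symOf s) n - xs F a (symOf s') n| := by
  have h2 := xs_W F ha hs n
  have h2' := xs_W F ha hs' n
  rw [hn] at h2
  rw [hn'] at h2'
  obtain ⟨w, hw, hw2⟩ := mvt_P1 F a (xs F a (symOf s) n) (xs F a (symOf s') n)
  have hwW : w ∈ (Lt.p c).W := W_uIcc h2 h2' hw
  have h3 := F.pl2 a ha c w (W_sub_Wp _ hwW)
  rw [hw2, abs_mul]
  exact mul_le_mul_of_nonneg_right h3 (abs_nonneg _)

/-- **O7** distortion of `prodR` (words agreeing on `[0, l]`, `K_2`-letters on `1..l`, the same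
parameter); from `cf_comp` and `dep`. -/
theorem prodR_dist (F : Fam) {a : Fin 8 → ℝ} (ha : Cube a) {s s' : ℤ → Lt} (hs : Adm (symOf s))
    (hs' : Adm (symOf s')) {l : ℕ} (h0 : s 0 = s' 0)
    (hp : ∀ n : ℕ, n < l → ∃ j, s (n + 1) = .p (.f j) ∧ s' (n + 1) = .p (.f j)) :
    |prodR F a s' l - prodR F a s l| ≤ 1 / 2 ^ 135 * prodR F a s l := by
  unfold prodR
  refine cf_comp (P := fun n => F.P1 a (xs F a (symOf s) (n + 1)))
    (P' := fun n => F.P1 a (xs F a (symOf s') (n + 1)))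
    (ρ := fun n => rs F a (symOf s) (n + 1)) (ρ' := fun n => rs F a (symOf s') (n + 1))
    (fun n _ => rs_b F ha hs _) (fun n _ => rs_b F ha hs' _) ?_ ?_ ?_
  · intro n hn
    obtain ⟨j, hj, _⟩ := hp n hn
    have h1 := rs_rec F ha hs hj
    push_cast
    exact h1
  · intro n hn
    obtain ⟨j, _, hj⟩ := hp n hn
    have h1 := rs_rec F ha hs' hj
    push_cast
    exact h1
  · have h1 : ∀ n ∈ Finset.range l,
        |F.P1 a (xs F a (symOf s) (n + 1)) - F.P1 a (xs F a (symOf s') (n + 1))| ≤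
        eps * |xs F a (symOf s) (n + 1) - xs F a (symOf s') (n + 1)| := by
      intro n hn
      obtain ⟨j, hj, hj'⟩ := hp n (Finset.mem_range.1 hn)
      exact prodd_P1 F ha hs hs' hj hj'
    refine (Finset.sum_le_sum h1).trans ?_
    rw [← Finset.mul_sum]
    have h2 := sum_right F ha hs hs' h0 (l := l) (fun n hn => by
      obtain ⟨j, hj, hj'⟩ := hp n hn
      rw [hj, hj'])
    exact (mul_le_mul_of_nonneg_left h2 eps_pos.le).trans prodd_eps

/-- **O7'** distortion of `prodT` -/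
theorem prodT_dist (F : Fam) {a : Fin 8 → ℝ} (ha : Cube a) {s s' : ℤ → Lt} (hs : Adm (symOf s))
    (hs' : Adm (symOf s')) {N : ℕ} (h0 : s 0 = s' 0)
    (hm : ∀ n : ℕ, n < N → ∃ c, s (-(n : ℤ) - 1) = .p (.e c) ∧ s' (-(n : ℤ) - 1) = .p (.e c)) :
    |prodT F a s' N - prodT F a s N| ≤ 1 / 2 ^ 135 * prodT F a s N := by
  have key : |∏ n ∈ Finset.range N, ts F a (symOf s') (-(n : ℤ) - 1) -
      ∏ n ∈ Finset.range N, ts F a (symOf s) (-(n : ℤ) - 1)| ≤
      1 / 2 ^ 135 * ∏ n ∈ Finset.range N, ts F a (symOf s) (-(n : ℤ) - 1) := by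
    refine cf_comp (P := fun n : ℕ => F.P1 a (xs F a (symOf s) (-(n : ℤ) - 1)))
      (P' := fun n : ℕ => F.P1 a (xs F a (symOf s') (-(n : ℤ) - 1)))
      (ρ := fun n : ℕ => ts F a (symOf s) (-(n : ℤ) - 1))
      (ρ' := fun n : ℕ => ts F a (symOf s') (-(n : ℤ) - 1))
      (fun n _ => ts_b F ha hs _) (fun n _ => ts_b F ha hs' _) ?_ ?_ ?_
    · intro n hn
      obtain ⟨c, hc, _⟩ := hm n hn
      have h1 := ts_rec F ha hs hc
      have h2 : (-(n : ℤ) - 1 - 1) = -((n + 1 : ℕ) : ℤ) - 1 := by push_cast; ring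
      rw [h2] at h1
      exact h1
    · intro n hn
      obtain ⟨c, _, hc⟩ := hm n hn
      have h1 := ts_rec F ha hs' hc
      have h2 : (-(n : ℤ) - 1 - 1) = -((n + 1 : ℕ) : ℤ) - 1 := by push_cast; ring
      rw [h2] at h1
      exact h1
    · have h1 : ∀ n ∈ Finset.range N,
          |F.P1 a (xs F a (symOf s) (-(n : ℤ) - 1)) -
            F.P1 a (xs F a (symOf s') (-(n : ℤ) - 1))| ≤
          eps * |xs F a (symOf s) (-(n : ℤ) - 1) - xs F a (symOf s') (-(n : ℤ) - 1)| := by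
        intro n hn
        obtain ⟨j, hj, hj'⟩ := hm n (Finset.mem_range.1 hn)
        exact prodd_P1 F ha hs hs' hj hj'
      refine (Finset.sum_le_sum h1).trans ?_
      rw [← Finset.mul_sum]
      have h2 := sum_left F ha hs hs' h0 (N := N) (fun n hn => by
        obtain ⟨j, hj, hj'⟩ := hm n hn
        rw [hj, hj'])
      exact (mul_le_mul_of_nonneg_left h2 eps_pos.le).trans prodd_eps
  unfold prodT
  rw [Finset.prod_mul_distrib, Finset.prod_mul_distrib]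
  have h1 : (0 : ℝ) ≤ b * ∏ _n ∈ Finset.range N, b :=
    mul_nonneg b_pos.le (Finset.prod_nonneg (fun _ _ => b_pos.le))
  have h2 : b * ((∏ _n ∈ Finset.range N, b) * ∏ n ∈ Finset.range N,
      ts F a (symOf s') (-(n : ℤ) - 1)) - b * ((∏ _n ∈ Finset.range N, b) *
      ∏ n ∈ Finset.range N, ts F a (symOf s) (-(n : ℤ) - 1)) =
      (b * ∏ _n ∈ Finset.range N, b) * (∏ n ∈ Finset.range N,
      ts F a (symOf s') (-(n : ℤ) - 1) - ∏ n ∈ Finset.range N,
      ts F a (symOf s) (-(n : ℤ) - 1)) := by ring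
  rw [h2, abs_mul, abs_of_nonneg h1]
  calc (b * ∏ _n ∈ Finset.range N, b) * |∏ n ∈ Finset.range N,
      ts F a (symOf s') (-(n : ℤ) - 1) - ∏ n ∈ Finset.range N,
      ts F a (symOf s) (-(n : ℤ) - 1)| ≤ (b * ∏ _n ∈ Finset.range N, b) *
      (1 / 2 ^ 135 * ∏ n ∈ Finset.range N, ts F a (symOf s) (-(n : ℤ) - 1)) :=
        mul_le_mul_of_nonneg_left key h1
    _ = _ := by ring

end Pool.Agent.WildW
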