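import Pool.Agent.Lib.MP_3dbc4a_an_WO.AdmSf
import Pool.Agent.Lib.MP_3dbc4a_an_WO.Pos
import Pool.Agent.Lib.MP_3dbc4a_an_WO.ProdD
import Pool.Agent.Lib.MP_3dbc4a_an_WO.SharpL

/-!
# MP_3dbc4a_an, project W, block O: gaps between cells
-/

set_option autoImplicit false

open Filter Set
open scoped Topology

namespace Pool.Agent.WildW

open OB

private theorem num_h : (1 : ℝ) / 2 ^ 125 ≤ h / 16 := by
  have h1 := h_lo
  have h2 : (1 : ℝ) / 2 ^ 125 = 1 / 2 ^ 121 / 16 := by norm_num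
  rw [h2]
  linarith

private theorem num_h21 : 21 * h ≤ b / 8 := by
  have h1 := mul_h_le_b
  have h2 := h_pos
  have h3 : (0 : ℝ) ≤ (2 ^ 20 - 168) * h := by
    have : (0 : ℝ) ≤ 2 ^ 20 - 168 := by norm_num
    positivity
  linarith

private theorem num_eps : 2 * eps ≤ b / 8 := by
  have h1 := eps_le_b
  have h2 := b_pos
  have h3 : b / 2 ^ 800 ≤ b / 16 := by
    have h4 : (16 : ℝ) ≤ 2 ^ 800 := by
      have h5 : (16 : ℝ) = 2 ^ 4 := by norm_num
      rw [h5]
      exact pow_le_pow_right₀ one_le_two (Nat.le_of_ble_eq_true rfl)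
    exact div_le_div_of_nonneg_left h2.le (by norm_num) h4
  linarith

private theorem num_18 : ((17 : ℝ) + 1 / 16) * (1 + 1 / 2 ^ 135) ≤ 18 := by
  have h1 : (1 : ℝ) / 2 ^ 135 ≤ 1 / 100 := by
    rw [div_le_div_iff₀ (by positivity) (by norm_num)]
    norm_num
  nlinarith

/-- the difference of the positions at the first different letter -/
private theorem diff_bd {X X' Y Y' Z Z' u u' : ℝ} (hu : u' = u + 1)
    (h1 : |2 + sg * (X - (2 + u / 2 ^ 20)) - (Y + b * Z)| ≤ eps)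
    (h2 : |2 + sg * (X' - (2 + u' / 2 ^ 20)) - (Y' + b * Z')| ≤ eps)
    (hY1 : 3 - 17 * h ≤ Y) (hY2 : Y ≤ 3 - 12 * h) (hY1' : 2 - h ≤ Y') (hY2' : Y' ≤ 2 + 4 * h)
    (hZ : |Z - Z'| ≤ 1 / 2 ^ 17) :
    15 * h ≤ X' - X ∧ X' - X ≤ 17 * h := by
  have hh := h_pos
  have hb := b_pos
  have hsg := sg_pos
  obtain ⟨a1, a2⟩ := abs_le.1 h1
  obtain ⟨c1, c2⟩ := abs_le.1 h2
  obtain ⟨z1, z2⟩ := abs_le.1 hZ
  have e1 : sg / 2 ^ 20 = 1 + 16 * b := by
    unfold sg
    ring
  have hbz1 : b * (Z' - Z) ≤ b * (1 / 2 ^ 17) := mul_le_mul_of_nonneg_left (by linarith) hb.le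
  have hbz2 : -(b * (1 / 2 ^ 17)) ≤ b * (Z' - Z) := by
    have := mul_le_mul_of_nonneg_left (show -(1 / 2 ^ 17 : ℝ) ≤ Z' - Z by linarith) hb.le
    linarith
  have hb17 : b * (1 / 2 ^ 17) ≤ b / 8 := by
    have : (1 : ℝ) / 2 ^ 17 ≤ 1 / 8 := by norm_num
    have := mul_le_mul_of_nonneg_left this hb.le
    linarith
  have n1 := num_h21
  have n2 := num_eps
  have e2 : sg * (X' - (2 + u' / 2 ^ 20)) - sg * (X - (2 + u / 2 ^ 20))
      = sg * (X' - X) - sg / 2 ^ 20 := by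
    rw [hu]
    ring
  have e3 := mul_comm sg h
  have e4 := sg_mul_h
  constructor
  · have : sg * (15 * h) ≤ sg * (X' - X) := by nlinarith
    exact le_of_mul_le_mul_left this hsg
  · have : sg * (X' - X) ≤ sg * (17 * h) := by nlinarith
    exact le_of_mul_le_mul_left this hsg

/-- **O11** the gap between two neighbouring cells: O5a with `l = |B|`;
`x'_{l+1} - x_{l+1} = 2^-20 + (x'_{l+2} - x_{l+2} + b (x'_l - x_l) ± 2 eps)/sg`, where
`x'_{l+2} ≤ 2 + 4h`, `x_{l+2} ≥ 3 - 17 h`, `|x'_l - x_l| ≤ 2^-17` (dep), so it is at most `17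
h`; it is
at least `11 h` by the windows. -/
theorem gap (F : Fam) {a : Fin 8 → ℝ} (ha : Cube a) (i : Fin 8) (om : ℕ → KA)
    (B : List KB) {j j' : KB} (hj : (j' : ℕ) = j + 1) :
    Rr F a i om (extB (B ++ [j']) bot) ≤ Rr F a i om (extB (B ++ [j]) top) ∧
    Rr F a i om (extB (B ++ [j]) top) ≤ Rr F a i om (extB (B ++ [j']) bot) +
      18 * h * Sw F a i om B := by
  set l := B.length with hl
  set s := sf i om (extB (B ++ [j]) top) with hs
  set s' := sf i om (extB (B ++ [j']) bot) with hs'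
  have hA : Adm (symOf s) := adm_sf i om _
  have hA' : Adm (symOf s') := adm_sf i om _
  have h0 : s 0 = .d i := sf_zero _ _ _
  have h0' : s' 0 = .d i := sf_zero _ _ _
  have hp : ∀ n : ℕ, n < l → ∃ c, s (n + 1) = .p (.f c) ∧ s' (n + 1) = .p (.f c) := by
    intro n hn
    refine ⟨extB (B ++ [j]) top n, sf_pos i om _ n, ?_⟩
    rw [hs', sf_pos, extB_agree B [j'] [j] bot top hn]
  have hm : ∀ n : ℕ, ∃ c, s (-(n : ℤ) - 1) = .p (.e c) ∧ s' (-(n : ℤ) - 1) = .p (.e c) :=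
    fun n => ⟨om n, sf_neg i om _ n, sf_neg i om _ n⟩
  have hsharp := sharp_past F ha hA hA' h0 h0' hp hm
  -- letters after the common part
  have hl1 : s ((l : ℤ) + 1) = .p (.f j) := by
    rw [hs, sf_pos]
    have := extB_append_ge B [j] top 0
    rw [add_zero] at this
    rw [hl, this]
    rfl
  have hl1' : s' ((l : ℤ) + 1) = .p (.f j') := by
    rw [hs', sf_pos]
    have := extB_append_ge B [j'] bot 0
    rw [add_zero] at this
    rw [hl, this]
    rfl
  have hl2 : ∀ k : ℕ, k < 7 → symOf s ((l : ℤ) + 1 + 1 + k) = .p (.f top) := by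
    intro k _
    have e : ((l : ℤ) + 1 + 1 + k) = ((l + (1 + k) : ℕ) : ℤ) + 1 := by push_cast; ring
    rw [e]
    apply symOf_p
    rw [hs, sf_pos, hl, extB_append_ge B [j] top (1 + k), extB_ge (by simp)]
  have hl2' : ∀ k : ℕ, k < 7 → symOf s' ((l : ℤ) + 1 + 1 + k) = .p (.f bot) := by
    intro k _
    have e : ((l : ℤ) + 1 + 1 + k) = ((l + (1 + k) : ℕ) : ℤ) + 1 := by push_cast; ring
    rw [e]
    apply symOf_p
    rw [hs', sf_pos, hl, extB_append_ge B [j'] bot (1 + k), extB_ge (by simp)]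
  obtain ⟨y1, y2⟩ := pos_top F ha hA hl2
  obtain ⟨y1', y2'⟩ := pos_bot F ha hA' hl2'
  have hx := xs_aff F ha hA hl1
  have hx' := xs_aff F ha hA' hl1'
  -- positions before
  have hag : ∀ m : ℤ, m ≤ (l : ℤ) + (0 : ℕ) → symOf s m = symOf s' m := by
    intro m hm'
    apply symOf_eq
    rcases int_cases m with rfl | ⟨n, rfl⟩ | ⟨n, rfl⟩
    · rw [h0, h0']
    · obtain ⟨c, hc, hc'⟩ := hp n (by push_cast at hm'; omega)
      rw [hc, hc']
    · obtain ⟨c, hc, hc'⟩ := hm n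
      rw [hc, hc']
  have hdep := dep_left F ha ha hA hA' (n := (l : ℤ)) (v := 0) hag
  rw [dist_self, mul_zero, add_zero] at hdep
  have hZ : |xs F a (symOf s) l - xs F a (symOf s') l| ≤ 1 / 2 ^ 17 := by
    refine (le_max_left _ _).trans (hdep.trans ?_)
    norm_num
  have e1 : ((l : ℤ) + 1 - 1) = l := by ring
  rw [e1] at hx hx'
  have hju : ((j' : ℕ) : ℝ) = ((j : ℕ) : ℝ) + 1 := by
    rw [hj]
    exact Nat.cast_succ _
  have hdiff := diff_bd (u := ((j : ℕ) : ℝ)) (u' := ((j' : ℕ) : ℝ)) hju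
    hx hx' y1 y2 y1' y2' hZ
  obtain ⟨d1, d2⟩ := hdiff
  -- sizes
  have hpos : 0 ≤ prodR F a s l :=
    le_trans (by positivity) (prodR_b F ha hA (l := l) (fun n hn => (hp n hn).imp fun _ h => h.1)).1
  have hd := prodR_dist F ha (adm_sf i om (extB B mid)) hA (l := l) (by rw [h0, sf_zero])
    (fun n hn => ⟨extB B mid n, sf_pos i om _ n, by
      rw [hs, sf_pos]
      have h1 := extB_agree B [j] [] top mid hn
      rw [List.append_nil] at h1
      rw [h1]⟩)
  have hSw : Sw F a i om B = prodR F a (sf i om (extB B mid)) l := rfl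
  have hSpos : 0 ≤ Sw F a i om B := by
    rw [hSw]
    exact le_trans (by positivity) (prodR_b F ha (adm_sf i om (extB B mid)) (l := l)
      (fun n _ => ⟨extB B mid n, sf_pos i om _ n⟩)).1
  rw [← hSw] at hd
  obtain ⟨-, hd2⟩ := abs_le.1 hd
  have e2 : prodR F a s l ≤ (1 + 1 / 2 ^ 135) * Sw F a i om B := by linarith
  obtain ⟨s1, s2⟩ := abs_le.1 hsharp
  have hh := h_pos
  have n1 := num_h
  have e3 : 1 / 2 ^ 125 * prodR F a s l ≤ h / 16 * prodR F a s l :=
    mul_le_mul_of_nonneg_right n1 hpos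
  have e4 : prodR F a s l * (15 * h) ≤
      prodR F a s l * (xs F a (symOf s') (l + 1) - xs F a (symOf s) (l + 1)) :=
    mul_le_mul_of_nonneg_left d1 hpos
  have e5 : prodR F a s l * (xs F a (symOf s') (l + 1) - xs F a (symOf s) (l + 1)) ≤
      prodR F a s l * (17 * h) := mul_le_mul_of_nonneg_left d2 hpos
  have e6 : 0 ≤ h * prodR F a s l := mul_nonneg hh.le hpos
  have hR : Rr F a i om (extB (B ++ [j]) top) = Phi F a (symOf s) 0 := rfl
  have hR' : Rr F a i om (extB (B ++ [j']) bot) = Phi F a (symOf s') 0 := rfl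
  rw [hR, hR']
  constructor
  · nlinarith
  · have e7 : Phi F a (symOf s) 0 - Phi F a (symOf s') 0 ≤ (17 + 1 / 16) * (h * prodR F a s l) := by
      nlinarith
    have e8 : h * prodR F a s l ≤ h * ((1 + 1 / 2 ^ 135) * Sw F a i om B) :=
      mul_le_mul_of_nonneg_left e2 hh.le
    have e9 := num_18
    have e10 : (17 + 1 / 16) * (1 + 1 / 2 ^ 135) * (h * Sw F a i om B) ≤
        18 * (h * Sw F a i om B) := mul_le_mul_of_nonneg_right e9 (mul_nonneg hh.le hSpos)
    linarith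

end Pool.Agent.WildW
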