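import Pool.Agent.Lib.MP_3dbc4a_an_WO.AdmSf
import Pool.Agent.Lib.MP_3dbc4a_an_WO.ProdD
import Pool.Agent.Lib.MP_3dbc4a_an_WO.RsF

/-!
# MP_3dbc4a_an, project W, block O: size of a subcell
-/

set_option autoImplicit false

open Filter Set
open scoped Topology

namespace Pool.Agent.WildW

open OB

private theorem prod_bd (F : Fam) {a : Fin 8 → ℝ} (ha : Cube a) (i : Fin 8) (om : ℕ → KA)
    (op : ℕ → KB) (l k : ℕ) :
    ((1 - 1 / 2 ^ 95) / 2 ^ 20) ^ k ≤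
        ∏ n ∈ Finset.range k, rs F a (symOf (sf i om op)) (((l + n : ℕ) : ℤ) + 1) ∧
      ∏ n ∈ Finset.range k, rs F a (symOf (sf i om op)) (((l + n : ℕ) : ℤ) + 1)
        ≤ (1 / 2 ^ 20) ^ k := by
  have h0 : ∀ n : ℕ, (1 - 1 / 2 ^ 95) / 2 ^ 20 ≤
      rs F a (symOf (sf i om op)) (((l + n : ℕ) : ℤ) + 1) ∧
      rs F a (symOf (sf i om op)) (((l + n : ℕ) : ℤ) + 1) ≤ 1 / 2 ^ 20 := fun n =>
    rs_f F ha (adm_sf i om op) (symOf_p (sf_pos i om op (l + n)))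
  have hc : (0 : ℝ) ≤ (1 - 1 / 2 ^ 95) / 2 ^ 20 := by norm_num
  have h1 := Finset.prod_le_prod (s := Finset.range k) (fun _ _ => hc) (fun n _ => (h0 n).1)
  have h2 := Finset.prod_le_prod (s := Finset.range k)
    (fun n _ => hc.trans (h0 n).1) (fun n _ => (h0 n).2)
  rw [Finset.prod_const, Finset.card_range] at h1 h2
  exact ⟨h1, h2⟩

private theorem num_lo (k : ℕ) (hk : k ≤ 6) :
    (1 - 1 / 2 ^ 90) * (1 / 2 ^ 20) ^ k ≤
      (1 - 1 / 2 ^ 135) * ((1 - 1 / 2 ^ 95) / 2 ^ 20 : ℝ) ^ k := by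
  have h1 : (1 - 1 / 2 ^ 90 : ℝ) ≤ (1 - 1 / 2 ^ 135) * (1 - 1 / 2 ^ 95) ^ 6 := by norm_num
  have h2 : (1 - 1 / 2 ^ 95 : ℝ) ^ 6 ≤ (1 - 1 / 2 ^ 95) ^ k :=
    pow_le_pow_of_le_one (by norm_num) (by norm_num) hk
  have h3 : ((1 - 1 / 2 ^ 95) / 2 ^ 20 : ℝ) ^ k = (1 - 1 / 2 ^ 95) ^ k * (1 / 2 ^ 20) ^ k := by
    rw [← mul_pow]
    congr 1
    ring
  rw [h3, ← mul_assoc]
  refine mul_le_mul_of_nonneg_right ?_ (by positivity)
  refine h1.trans (mul_le_mul_of_nonneg_left h2 (by norm_num))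

/-- **O12** size of a subcell, at most `6` more letters (O6, O7). -/
theorem Sw_append (F : Fam) {a : Fin 8 → ℝ} (ha : Cube a) (i : Fin 8) (om : ℕ → KA)
    (B γ : List KB) (hγ : γ.length ≤ 6) :
    (1 - 1 / 2 ^ 90) * (1 / 2 ^ 20) ^ γ.length * Sw F a i om B ≤ Sw F a i om (B ++ γ) ∧
    Sw F a i om (B ++ γ) ≤ (1 + 1 / 2 ^ 90) * (1 / 2 ^ 20) ^ γ.length * Sw F a i om B := by
  set l := B.length with hl
  set k := γ.length with hk
  set s := sf i om (extB B mid) with hs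
  set s' := sf i om (extB (B ++ γ) mid) with hs'
  have hagree : ∀ n : ℕ, n < l → ∃ j, s (n + 1) = .p (.f j) ∧ s' (n + 1) = .p (.f j) := by
    intro n hn
    refine ⟨extB B mid n, sf_pos i om _ n, ?_⟩
    rw [hs', sf_pos]
    have h1 := extB_agree B γ [] mid mid hn
    rw [List.append_nil] at h1
    rw [h1]
  have hd := prodR_dist F ha (adm_sf i om (extB B mid)) (adm_sf i om (extB (B ++ γ) mid))
    (l := l) (by rw [sf_zero, sf_zero]) hagree
  have hb := (prodR_b F ha (adm_sf i om (extB B mid)) (l := l)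
    (fun n hn => (hagree n hn).imp fun _ h => h.1)).1
  have hpos : 0 ≤ prodR F a s l := le_trans (by positivity) hb
  obtain ⟨hP1, hP2⟩ := prod_bd F ha i om (extB (B ++ γ) mid) l k
  have hsplit : Sw F a i om (B ++ γ) = prodR F a s' l *
      ∏ n ∈ Finset.range k, rs F a (symOf s') (((l + n : ℕ) : ℤ) + 1) := by
    rw [Sw, List.length_append, ← hl, ← hk, prodR, Finset.prod_range_add, prodR]
  have hSw : Sw F a i om B = prodR F a s l := rfl
  rw [hsplit, hSw]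
  obtain ⟨hd1, hd2⟩ := abs_le.1 hd
  have e1 : (1 - 1 / 2 ^ 135) * prodR F a s l ≤ prodR F a s' l := by linarith
  have e2 : prodR F a s' l ≤ (1 + 1 / 2 ^ 135) * prodR F a s l := by linarith
  have e0 : 0 ≤ prodR F a s' l := le_trans (mul_nonneg (by norm_num) hpos) e1
  constructor
  · calc (1 - 1 / 2 ^ 90) * (1 / 2 ^ 20) ^ k * prodR F a s l
        ≤ (1 - 1 / 2 ^ 135) * ((1 - 1 / 2 ^ 95) / 2 ^ 20) ^ k * prodR F a s l :=
          mul_le_mul_of_nonneg_right (num_lo k hγ) hpos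
      _ = (1 - 1 / 2 ^ 135) * prodR F a s l * ((1 - 1 / 2 ^ 95) / 2 ^ 20) ^ k := by ring
      _ ≤ prodR F a s' l *
          ∏ n ∈ Finset.range k, rs F a (symOf s') (((l + n : ℕ) : ℤ) + 1) :=
          mul_le_mul e1 hP1 (pow_nonneg (by norm_num) _) e0
  · calc prodR F a s' l *
          ∏ n ∈ Finset.range k, rs F a (symOf s') (((l + n : ℕ) : ℤ) + 1)
        ≤ (1 + 1 / 2 ^ 135) * prodR F a s l * (1 / 2 ^ 20) ^ k :=
          mul_le_mul e2 hP2 (le_trans (pow_nonneg (by norm_num) _) hP1)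
            (mul_nonneg (by norm_num) hpos)
      _ = (1 + 1 / 2 ^ 135) * ((1 / 2 ^ 20) ^ k * prodR F a s l) := by ring
      _ ≤ (1 + 1 / 2 ^ 90) * ((1 / 2 ^ 20) ^ k * prodR F a s l) :=
          mul_le_mul_of_nonneg_right (by norm_num) (by positivity)
      _ = (1 + 1 / 2 ^ 90) * (1 / 2 ^ 20) ^ k * prodR F a s l := by ring

end Pool.Agent.WildW
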