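import Pool.Agent.Lib.MP_3dbc4a_an_WO.CellSize
import Pool.Agent.Lib.MP_3dbc4a_an_WO.Gap
import Pool.Agent.Lib.MP_3dbc4a_an_WO.SwApp

/-!
# MP_3dbc4a_an, project W, block O: lexicographic monotonicity
-/

set_option autoImplicit false

open Filter Set
open scoped Topology

namespace Pool.Agent.WildW

open OB

private theorem digstep_length : ∀ k j : ℕ, (dig k j).length = k
  | 0, _ => rfl
  | k + 1, j => by simp [dig, digstep_length k]

private theorem digstep_aux (F : Fam) {a : Fin 8 → ℝ} (ha : Cube a) (i : Fin 8) (om : ℕ → KA)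
    (B : List KB) : ∀ (k j : ℕ), j + 1 < (2 ^ 20) ^ k →
    Rr F a i om (extB (B ++ dig k (j + 1)) bot) ≤ Rr F a i om (extB (B ++ dig k j) top) := by
  intro k
  induction k with
  | zero => intro j hj; simp at hj
  | succ k ih =>
    intro j hj
    have hlt : j % 2 ^ 20 < 2 ^ 20 := Nat.mod_lt _ (by norm_num)
    rcases Nat.lt_or_ge (j % 2 ^ 20 + 1) (2 ^ 20) with h1 | h1
    · have e1 : (j + 1) / 2 ^ 20 = j / 2 ^ 20 := by omega
      have e2 : (j + 1) % 2 ^ 20 = j % 2 ^ 20 + 1 := by omega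
      have g := (gap F ha i om (B ++ dig k (j / 2 ^ 20)) (j := ⟨j % 2 ^ 20, hlt⟩)
        (j' := ⟨(j + 1) % 2 ^ 20, Nat.mod_lt _ (by norm_num)⟩) e2).1
      rw [List.append_assoc, List.append_assoc] at g
      have e3 : dig (k + 1) (j + 1) =
          dig k (j / 2 ^ 20) ++ [⟨(j + 1) % 2 ^ 20, Nat.mod_lt _ (by norm_num)⟩] := by
        rw [← e1]
        rfl
      rw [e3]
      exact g
    · have e1 : (j + 1) / 2 ^ 20 = j / 2 ^ 20 + 1 := by omega
      have e2 : (j + 1) % 2 ^ 20 = 0 := by omega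
      have e3 : dig (k + 1) (j + 1) = dig k (j / 2 ^ 20 + 1) ++ List.replicate 1 bot := by
        rw [← e1]
        have : (⟨(j + 1) % 2 ^ 20, Nat.mod_lt _ (by norm_num)⟩ : KB) = bot := Fin.ext e2
        show dig k ((j + 1) / 2 ^ 20) ++ [⟨(j + 1) % 2 ^ 20, Nat.mod_lt _ (by norm_num)⟩] = _
        rw [this]
        rfl
      have e4 : dig (k + 1) j = dig k (j / 2 ^ 20) ++ List.replicate 1 top := by
        have : (⟨j % 2 ^ 20, Nat.mod_lt _ (by norm_num)⟩ : KB) = top :=
          Fin.ext (show j % 2 ^ 20 = 2 ^ 20 - 1 by omega)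
        show dig k (j / 2 ^ 20) ++ [⟨j % 2 ^ 20, Nat.mod_lt _ (by norm_num)⟩] = _
        rw [this]
        rfl
      have e5 : j / 2 ^ 20 + 1 < (2 ^ 20) ^ k := by
        have e6 : (j / 2 ^ 20 + 1) * 2 ^ 20 < (2 ^ 20) ^ k * 2 ^ 20 := by
          rw [← pow_succ]
          refine lt_of_le_of_lt ?_ hj
          omega
        exact lt_of_mul_lt_mul_right e6 (Nat.zero_le _)
      rw [e3, e4, ← List.append_assoc, ← List.append_assoc, extB_replicate, extB_replicate]
      exact ih _ e5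

/-- **O17'** lexicographic monotonicity: consecutive numbers, with carry (`cell_size` at the level
`k`, `gap` where the carry stops: `dig k j = γ' ++ [f] ++ top^r`, `dig k (j+1) = γ' ++ [f+1] ++
bot^r`). -/
theorem dig_step (F : Fam) {a : Fin 8 → ℝ} (ha : Cube a) (i : Fin 8) (om : ℕ → KA)
    (B : List KB) {k j : ℕ} (hk : k ≤ 6) (hj : j + 1 < (2 ^ 20) ^ k) :
    Rr F a i om (extB (B ++ dig k (j + 1)) bot) ≤ Rr F a i om (extB (B ++ dig k j) bot) -
      98 / 100 * (1 / 2 ^ 20) ^ k * Sw F a i om B := by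
  have h1 := digstep_aux F ha i om B k j hj
  have h2 := (cell_size F ha i om (B ++ dig k j)).1
  have h3 := (Sw_append F ha i om B (dig k j) (by rw [digstep_length]; exact hk)).1
  rw [digstep_length] at h3
  have h4 : 0 ≤ Sw F a i om B :=
    le_trans (by positivity) (prodR_b F ha (adm_sf i om (extB B mid)) (l := B.length)
      (fun n _ => ⟨_, sf_pos i om _ n⟩)).1
  have h5 : 0 ≤ ((1 : ℝ) / 2 ^ 20) ^ k * Sw F a i om B := mul_nonneg (by positivity) h4
  have h6 : (98 : ℝ) / 100 ≤ 99 / 100 * (1 - 1 / 2 ^ 90) := by norm_num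
  have h7 := mul_le_mul_of_nonneg_right h6 h5
  have h8 : 99 / 100 * ((1 - 1 / 2 ^ 90) * (1 / 2 ^ 20) ^ k * Sw F a i om B) ≤
      99 / 100 * Sw F a i om (B ++ dig k j) := by
    gcongr
  linarith

end Pool.Agent.WildW
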