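import Pool.Agent.Lib.MP_3dbc4a_an_WO.AdmSf
import Pool.Agent.Lib.MP_3dbc4a_an_WO.ProdD
import Pool.Agent.Lib.MP_3dbc4a_an_WO.SharpL

/-!
# MP_3dbc4a_an, project W, block O: moving the past by one letter
-/

set_option autoImplicit false

open Filter Set
open scoped Topology

namespace Pool.Agent.WildW

open OB

private theorem estep_num1 : (79 : ℝ) / 10 / 2 ^ 20 ≤
    (1 - 1 / 2 ^ 135) * (1 / 2 ^ 17 - 1 / 2 ^ 124) := by norm_num

private theorem estep_num2 : (1 + 1 / 2 ^ 135) * (1 / 2 ^ 17 + 1 / 2 ^ 124) ≤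
    (81 : ℝ) / 10 / 2 ^ 20 := by norm_num

private theorem estep_num3 : (1 : ℝ) / 2 ^ 130 + 1 / 2 ^ 125 ≤ 1 / 2 ^ 124 := by norm_num

private theorem estep_num4 : (0 : ℝ) ≤ 1 / 2 ^ 17 - 1 / 2 ^ 124 := by norm_num

private theorem estep_num5 : (0 : ℝ) < 1 / 2 ^ 121 := by norm_num

private theorem estep_eps : eps ≤ 1 / 2 ^ 120 := by
  have h1 := eps_le_b
  have h2 : b / 2 ^ 800 ≤ b / 2 ^ 20 := by
    have h3 : (2 : ℝ) ^ 20 ≤ 2 ^ 800 := pow_le_pow_right₀ one_le_two (by norm_num)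
    exact div_le_div_of_nonneg_left b_pos.le (by norm_num) h3
  have h3 : b / 2 ^ 20 = 1 / 2 ^ 120 := by
    unfold b
    norm_num
  linarith

/-- the elementary part of the comparison -/
private theorem estep_calc {D T W k δ : ℝ} (hk : 1 ≤ k) (hW : 0 < W)
    (hT : |T - W| ≤ 1 / 2 ^ 135 * W) (hD : |D + T * (-δ)| ≤ 1 / 2 ^ 125 * T)
    (hδ : |δ - k / 2 ^ 17| ≤ 1 / 2 ^ 130) :
    k * (79 / 10 / 2 ^ 20) * W ≤ D ∧ D ≤ k * (81 / 10 / 2 ^ 20) * W := by
  have hT1 := (abs_le.1 hT).1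
  have hT2 := (abs_le.1 hT).2
  have hD1 := (abs_le.1 hD).1
  have hD2 := (abs_le.1 hD).2
  have hδ1 := (abs_le.1 hδ).1
  have hδ2 := (abs_le.1 hδ).2
  have hTlo : (1 - 1 / 2 ^ 135) * W ≤ T := by linarith
  have hThi : T ≤ (1 + 1 / 2 ^ 135) * W := by linarith
  have hT0 : 0 ≤ T := by
    refine le_trans (mul_nonneg ?_ hW.le) hTlo
    norm_num
  have h3 := estep_num3
  have hk0 : 0 ≤ k := by linarith
  have e1 : k * (1 / 2 ^ 124) ≥ 1 / 2 ^ 124 := by
    have : (0 : ℝ) ≤ 1 / 2 ^ 124 := by positivity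
    nlinarith
  have hlo : k * (1 / 2 ^ 17 - 1 / 2 ^ 124) ≤ δ - 1 / 2 ^ 125 := by
    have e2 : k * (1 / 2 ^ 17 - 1 / 2 ^ 124) = k / 2 ^ 17 - k * (1 / 2 ^ 124) := by ring
    linarith
  have hhi : δ + 1 / 2 ^ 125 ≤ k * (1 / 2 ^ 17 + 1 / 2 ^ 124) := by
    have e2 : k * (1 / 2 ^ 17 + 1 / 2 ^ 124) = k / 2 ^ 17 + k * (1 / 2 ^ 124) := by ring
    linarith
  constructor
  · calc k * (79 / 10 / 2 ^ 20) * W
        ≤ k * ((1 - 1 / 2 ^ 135) * (1 / 2 ^ 17 - 1 / 2 ^ 124)) * W := by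
          gcongr
          exact estep_num1
      _ = ((1 - 1 / 2 ^ 135) * W) * (k * (1 / 2 ^ 17 - 1 / 2 ^ 124)) := by ring
      _ ≤ T * (k * (1 / 2 ^ 17 - 1 / 2 ^ 124)) :=
          mul_le_mul_of_nonneg_right hTlo (mul_nonneg hk0 estep_num4)
      _ ≤ T * (δ - 1 / 2 ^ 125) := mul_le_mul_of_nonneg_left hlo hT0
      _ ≤ D := by linarith
  · calc D ≤ T * (δ + 1 / 2 ^ 125) := by linarith
      _ ≤ T * (k * (1 / 2 ^ 17 + 1 / 2 ^ 124)) := mul_le_mul_of_nonneg_left hhi hT0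
      _ ≤ ((1 + 1 / 2 ^ 135) * W) * (k * (1 / 2 ^ 17 + 1 / 2 ^ 124)) :=
          mul_le_mul_of_nonneg_right hThi (by positivity)
      _ = k * ((1 + 1 / 2 ^ 135) * (1 / 2 ^ 17 + 1 / 2 ^ 124)) * W := by ring
      _ ≤ k * (81 / 10 / 2 ^ 20) * W := by
          gcongr
          exact estep_num2

/-- the affine equations -/
private theorem estep_aff {x x' o o' y y' z z' sl : ℝ} (hsl : 3 * 2 ^ 18 ≤ sl)
    (h1 : |0 + sl * (x - o) - (y + b * z)| ≤ eps) (h2 : |0 + sl * (x' - o') - (y' + b * z')| ≤ eps)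
    (hy : |y - y'| ≤ 4 * (1 / 2 ^ 119)) (hz : |z - z'| ≤ 4 * (1 / 2 ^ 19)) :
    |(x' - x) - (o' - o)| ≤ 1 / 2 ^ 130 := by
  have hb := b_pos
  have he := estep_eps
  have hsl0 : 0 < sl := lt_of_lt_of_le (by norm_num) hsl
  have h3 : sl * ((x' - x) - (o' - o)) = (0 + sl * (x' - o') - (y' + b * z')) -
      (0 + sl * (x - o) - (y + b * z)) - ((y - y') + b * (z - z')) := by ring
  have h4 : |sl * ((x' - x) - (o' - o))| ≤ eps + eps + (4 * (1 / 2 ^ 119) +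
      b * (4 * (1 / 2 ^ 19))) := by
    rw [h3]
    refine (abs_sub _ _).trans (add_le_add ((abs_sub _ _).trans (add_le_add h2 h1)) ?_)
    refine (abs_add_le _ _).trans (add_le_add hy ?_)
    rw [abs_mul, abs_of_pos hb]
    exact mul_le_mul_of_nonneg_left hz hb.le
  rw [abs_mul, abs_of_pos hsl0] at h4
  have h5 : eps + eps + (4 * (1 / 2 ^ 119) + b * (4 * (1 / 2 ^ 19))) ≤
      3 * 2 ^ 18 * (1 / 2 ^ 130) := by
    have h6 : b * (4 * (1 / 2 ^ 19)) = 4 * (1 / 2 ^ 119) := by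
      unfold b
      norm_num
    rw [h6]
    have h7 : (1 : ℝ) / 2 ^ 120 + 1 / 2 ^ 120 + (4 * (1 / 2 ^ 119) + 4 * (1 / 2 ^ 119)) ≤
      3 * 2 ^ 18 * (1 / 2 ^ 130) := by norm_num
    linarith
  have h6 : sl * |(x' - x) - (o' - o)| ≤ sl * (1 / 2 ^ 130) := by
    refine (h4.trans h5).trans ?_
    exact mul_le_mul_of_nonneg_right hsl (by positivity)
  exact le_of_mul_le_mul_left h6 hsl0

private theorem estep_offv (c : KA) :
    (Pl.e c).off = (if c.1 then 1 / 4 else 0) + ((c.2 : ℕ) : ℝ) / 2 ^ 17 := by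
  simp only [Pl.off]

private theorem estep_off (fam : Bool) (j j' : Fin (2 ^ 14)) :
    (Pl.e (fam, j')).off - (Pl.e (fam, j)).off =
      (((j' : ℕ) : ℝ) - ((j : ℕ) : ℝ)) / 2 ^ 17 := by
  rw [estep_offv, estep_offv]
  ring

private theorem estep_last (E : List KA) (c : KA) : extE (E ++ [c]) E.length = c := by
  rw [extE_lt (by simp)]
  simp

/-- **O13** two pasts `E e`, `E e'` (`e, e'` in the same family), the same future: O5b with `N
= |E|`;
`x'_{-N-1} - x_{-N-1} = (j' - j)/2^17 ± 2^-130` (equation at `-N-1`; the words agree except at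
`-N-1`, so `|Δ_{-N}| ≤ 2^-116`, `b |Δ_{-N-2}| ≤ 2^-116`). `B` is any word (it only fixes the
scale: O7' compares `Wv` with the
`prodT` of the words). -/
theorem e_step (F : Fam) {a : Fin 8 → ℝ} (ha : Cube a) (i : Fin 8) (E : List KA) (B : List KB)
    (op : ℕ → KB) {fam : Bool} {j j' : Fin (2 ^ 14)} (hj : (j : ℕ) ≤ j') :
    ((j' : ℕ) - (j : ℕ) : ℝ) * (79 / 10 / 2 ^ 20) * Wv F a i E B ≤
      Rr F a i (extE (E ++ [(fam, j)])) op - Rr F a i (extE (E ++ [(fam, j')])) op ∧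
    Rr F a i (extE (E ++ [(fam, j)])) op - Rr F a i (extE (E ++ [(fam, j')])) op ≤
      ((j' : ℕ) - (j : ℕ) : ℝ) * (81 / 10 / 2 ^ 20) * Wv F a i E B := by
  rcases hj.eq_or_lt with h | hlt
  · have h' : j = j' := Fin.ext h
    subst h'
    simp
  obtain ⟨s, hs⟩ : ∃ s, s = sf i (extE (E ++ [(fam, j)])) op := ⟨_, rfl⟩
  obtain ⟨s', hs'⟩ : ∃ s', s' = sf i (extE (E ++ [(fam, j')])) op := ⟨_, rfl⟩
  have hA : Adm (symOf s) := by rw [hs]; exact adm_sf _ _ _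
  have hA' : Adm (symOf s') := by rw [hs']; exact adm_sf _ _ _
  have hA'' : Adm (symOf (sf i (extE E) (extB B mid))) := adm_sf _ _ _
  have hE : ∀ (c : KA) (n : ℕ), n < E.length → extE (E ++ [c]) n = extE E n := by
    intro c n hn
    have h1 := extE_agree E [c] [] hn
    rwa [List.append_nil] at h1
  have hagR : ∀ m : ℤ, -(E.length : ℤ) ≤ m → s m = s' m := by
    intro m hm
    rw [hs, hs']
    rcases int_cases m with h0 | ⟨n, h0⟩ | ⟨n, h0⟩
    · rw [h0, sf_zero, sf_zero]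
    · rw [h0, sf_pos, sf_pos]
    · rw [h0, sf_neg, sf_neg, hE _ n (by omega), hE _ n (by omega)]
  have hagL : ∀ m : ℤ, m ≤ -(E.length : ℤ) - 1 - 1 → s m = s' m := by
    intro m hm
    rw [hs, hs']
    obtain ⟨n, h0⟩ : ∃ n : ℕ, m = -(n : ℤ) - 1 := ⟨(-m - 1).toNat, by omega⟩
    rw [h0, sf_neg, sf_neg, extE_ge (by simp; omega), extE_ge (by simp; omega)]
  have hy := dep_right F ha ha hA hA' (n := -(E.length : ℤ)) (u := 0) (by
    intro m hm
    exact symOf_eq (hagR m (by simpa using hm)))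
  have hz := dep_left F ha ha hA hA' (n := -(E.length : ℤ) - 1 - 1) (v := 0) (by
    intro m hm
    exact symOf_eq (hagL m (by simpa using hm)))
  rw [dist_self, mul_zero, add_zero, zero_add, pow_one] at hy hz
  have hy' := (le_max_left _ _).trans hy
  have hz' := (le_max_left _ _).trans hz
  have hlet : s (-(E.length : ℤ) - 1) = .p (.e (fam, j)) := by
    rw [hs, sf_neg, estep_last]
  have hlet' : s' (-(E.length : ℤ) - 1) = .p (.e (fam, j')) := by
    rw [hs', sf_neg, estep_last]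
  have hx := xs_aff F ha hA hlet
  have hx' := xs_aff F ha hA' hlet'
  have hδ := estep_aff (sl := (Pl.e (fam, j)).sl) (Pl.sl_lo _) (o := (Pl.e (fam, j)).off)
    (o' := (Pl.e (fam, j')).off) hx hx' (by
      rw [sub_add_cancel]
      exact hy') hz'
  rw [estep_off] at hδ
  have hD := sharp_fut F ha hA hA' (i := i) (N := E.length) (by rw [hs, sf_zero])
    (by rw [hs', sf_zero]) (fun n => ⟨op n, by rw [hs, sf_pos], by rw [hs', sf_pos]⟩)
    (fun n hn => ⟨extE E n, by rw [hs, sf_neg, hE _ n hn], by rw [hs', sf_neg, hE _ n hn]⟩)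
  have hT := prodT_dist F ha hA'' hA (N := E.length) (by rw [hs, sf_zero, sf_zero])
    (fun n hn => ⟨extE E n, by rw [sf_neg], by rw [hs, sf_neg, hE _ n hn]⟩)
  have hW : 0 < Wv F a i E B := by
    have h1 := (prodT_b F ha hA'' (N := E.length) (fun n _ => ⟨extE E n, by rw [sf_neg]⟩)).1
    exact lt_of_lt_of_le (mul_pos b_pos (pow_pos estep_num5 _)) h1
  have hk : (1 : ℝ) ≤ ((j' : ℕ) : ℝ) - ((j : ℕ) : ℝ) := by
    have h1 : ((j : ℕ) : ℝ) + 1 ≤ ((j' : ℕ) : ℝ) := by exact_mod_cast hlt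
    linarith
  have hD' : |(Rr F a i (extE (E ++ [(fam, j)])) op - Rr F a i (extE (E ++ [(fam, j')])) op) +
      prodT F a s E.length * (-(xs F a (symOf s') (-(E.length : ℤ) - 1) -
        xs F a (symOf s) (-(E.length : ℤ) - 1)))| ≤ 1 / 2 ^ 125 * prodT F a s E.length := by
    rw [neg_sub]
    unfold Rr
    rw [← hs, ← hs']
    exact hD
  exact estep_calc hk hW hT hD' hδ

end Pool.Agent.WildW
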