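import Pool.Agent.Lib.MP_3dbc4a_an_WO.AdmSf
import Pool.Agent.Lib.MP_3dbc4a_an_WO.ProdD
import Pool.Agent.Lib.MP_3dbc4a_an_WO.SharpL

/-!
# MP_3dbc4a_an, project W, block O: moving the past arbitrarily
-/

set_option autoImplicit false

open Filter Set
open scoped Topology

namespace Pool.Agent.WildW

open OB

private theorem etot_h_small : 3 / 2 * h ≤ 1 / 1000 := by
  have h1 := h_hi
  have h2 : (1 : ℝ) / 2 ^ 120 ≤ 1 / 2000 := by norm_num
  linarith

private theorem etot_b_small : b ≤ 1 / 2 ^ 10 := by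
  have h1 := b_le
  have h2 : (1 : ℝ) / 2 ^ 100 ≤ 1 / 2 ^ 10 := by norm_num
  linarith

/-- positions in the windows of letters of `K_1` -/
private theorem etot_win (c : KA) {x : ℝ} (hx : x ∈ (Lt.p (.e c)).W) :
    -(1 / 1000) ≤ x ∧ x ≤ 3 / 8 := by
  have h1 : (Pl.e c).off - b / (Pl.e c).sl ≤ x := hx.1
  have h2 : x ≤ (Pl.e c).off + (3 - (Pl.e c).bs + 4 * b) / (Pl.e c).sl := hx.2
  have h3 := Pl.b_div_sl_le (.e c)
  have h4 := etot_h_small
  have h5 : ((c.2 : ℕ) : ℝ) + 1 ≤ 2 ^ 14 := by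
    have h6 : (c.2 : ℕ) + 1 ≤ 2 ^ 14 := c.2.2
    exact_mod_cast h6
  have h6 : (0 : ℝ) ≤ ((c.2 : ℕ) : ℝ) := Nat.cast_nonneg _
  have h7 := etot_b_small
  have h8 : (Pl.e c).bs = 0 := rfl
  rw [h8] at h2
  have h9 : 0 ≤ (Pl.e c).off := by
    unfold Pl.off
    simp only
    split <;> positivity
  constructor
  · linarith
  · refine h2.trans ?_
    unfold Pl.off Pl.sl
    simp only
    split
    · norm_num at h5 h7 ⊢
      linarith
    · norm_num at h5 h7 ⊢
      linarith

/-- **O14** moving the past beyond `E` arbitrarily changes the residual by at most `2/5 Wv`. -/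
theorem e_total (F : Fam) {a : Fin 8 → ℝ} (ha : Cube a) (i : Fin 8) (E : List KA) (B : List KB)
    (op : ℕ → KB) (om om' : ℕ → KA)
    (hom : ∀ n < E.length, om n = extE E n) (hom' : ∀ n < E.length, om' n = extE E n) :
    |Rr F a i om op - Rr F a i om' op| ≤ 2 / 5 * Wv F a i E B := by
  have hs := adm_sf i om op
  have hs' := adm_sf i om' op
  have hw := adm_sf i (extE E) (extB B mid)
  have h1 := sharp_fut F ha hs hs' (i := i) (N := E.length) (sf_zero i om op)
    (sf_zero i om' op) (fun n => ⟨op n, sf_pos i om op n, sf_pos i om' op n⟩)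
    (fun n hn => ⟨om n, sf_neg i om op n, by rw [sf_neg, hom' n hn, hom n hn]⟩)
  have h2 := prodT_dist F ha hw hs (N := E.length) (by rw [sf_zero, sf_zero])
    (fun n hn => ⟨extE E n, sf_neg i _ _ n, by rw [sf_neg, hom n hn]⟩)
  have h3 : Wv F a i E B = prodT F a (sf i (extE E) (extB B mid)) E.length := rfl
  rw [← h3] at h2
  have h4 := xs_W F ha hs (-(E.length : ℤ) - 1)
  have h5 := xs_W F ha hs' (-(E.length : ℤ) - 1)
  rw [sf_neg] at h4 h5
  obtain ⟨h6, h7⟩ := etot_win _ h4
  obtain ⟨h8, h9⟩ := etot_win _ h5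
  set P := prodT F a (sf i om op) E.length with hP
  set W := Wv F a i E B with hW
  set x := xs F a (symOf (sf i om op)) (-(E.length : ℤ) - 1) with hx
  set y := xs F a (symOf (sf i om' op)) (-(E.length : ℤ) - 1) with hy
  have hP0 : 0 ≤ P := by
    have h10 := (abs_nonneg _).trans h1
    by_contra hneg
    push Not at hneg
    have h11 : 1 / 2 ^ 125 * P < 0 := mul_neg_of_pos_of_neg (by positivity) hneg
    linarith
  have hW0 : 0 ≤ W := by
    have h10 := (abs_nonneg _).trans h2
    by_contra hneg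
    push Not at hneg
    have h11 : 1 / 2 ^ 135 * W < 0 := mul_neg_of_pos_of_neg (by positivity) hneg
    linarith
  have h10 : P ≤ (1 + 1 / 1000) * W := by
    have h11 := (abs_le.1 h2).2
    have h12 : (1 : ℝ) / 2 ^ 135 ≤ 1 / 1000 := by norm_num
    have h13 := mul_le_mul_of_nonneg_right h12 hW0
    linarith
  have h11 : |x - y| ≤ 3 / 8 + 1 / 1000 := by
    rw [abs_le]
    constructor <;> linarith
  have h12 : |P * (x - y)| ≤ P * (3 / 8 + 1 / 1000) := by
    rw [abs_mul, abs_of_nonneg hP0]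
    exact mul_le_mul_of_nonneg_left h11 hP0
  have h13 : (1 : ℝ) / 2 ^ 125 * P ≤ 1 / 1000 * P :=
    mul_le_mul_of_nonneg_right (by norm_num) hP0
  have h14 : |Rr F a i om op - Rr F a i om' op| ≤ P * (3 / 8 + 1 / 1000) + 1 / 1000 * P := by
    have h15 : Rr F a i om op - Rr F a i om' op =
        (Phi F a (symOf (sf i om op)) 0 - Phi F a (symOf (sf i om' op)) 0 + P * (x - y)) -
          P * (x - y) := by
      unfold Rr
      ring
    rw [h15]
    refine (abs_sub _ _).trans ?_
    linarith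
  nlinarith

end Pool.Agent.WildW
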