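import Pool.Agent.Lib.MP_3dbc4a_an_WO.Gap
import Pool.Agent.Lib.MP_3dbc4a_an_WO.SwApp

/-!
# MP_3dbc4a_an, project W, block O: greedy choice of six letters
-/

set_option autoImplicit false

open Filter Set
open scoped Topology

namespace Pool.Agent.WildW

open OB

private theorem Sw_nonneg' (F : Fam) {a : Fin 8 → ℝ} (ha : Cube a) (i : Fin 8) (om : ℕ → KA)
    (B : List KB) : 0 ≤ Sw F a i om B := by
  have h1 := Sw_append F ha i om B [] (by simp)
  simp only [List.append_nil, List.length_nil, pow_zero, mul_one] at h1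
  obtain ⟨h2, h3⟩ := h1
  have h4 : (0 : ℝ) ≤ 1 / 2 ^ 90 * Sw F a i om B := by linarith
  exact nonneg_of_mul_nonneg_right h4 (by positivity)

private theorem greedy_step (F : Fam) {a : Fin 8 → ℝ} (ha : Cube a) (i : Fin 8) (om : ℕ → KA)
    (B : List KB) {w : ℝ} (hw : 0 ≤ w)
    (hbad : ∀ γ : List KB, 1 ≤ γ.length → γ.length ≤ 6 →
      w + 19 * h * (1 / 2 ^ 20) ^ (γ.length - 1) * Sw F a i om B <
        |Rr F a i om (extB (B ++ γ) bot)|)
    (γ : List KB) (hγ : γ.length < 6) (h0 : w ≤ Rr F a i om (extB (B ++ γ) bot))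
    (h1 : Rr F a i om (extB (B ++ γ) top) ≤ -w) :
    ∃ f : KB, w ≤ Rr F a i om (extB (B ++ (γ ++ [f])) bot) ∧
      Rr F a i om (extB (B ++ (γ ++ [f])) top) ≤ -w := by
  have hSw := Sw_nonneg' F ha i om B
  have hbad' : ∀ f : KB, w + 19 * h * (1 / 2 ^ 20) ^ γ.length * Sw F a i om B <
      |Rr F a i om (extB (B ++ (γ ++ [f])) bot)| := by
    intro f
    have h2 := hbad (γ ++ [f]) (by simp) (by simp; omega)
    simpa using h2
  have hg0 : 0 ≤ 19 * h * (1 / 2 ^ 20) ^ γ.length * Sw F a i om B := by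
    have := h_pos
    positivity
  classical
  set S : Finset KB := Finset.univ.filter fun f =>
    0 ≤ Rr F a i om (extB (B ++ (γ ++ [f])) bot) with hS
  have hbot : bot ∈ S := by
    rw [hS, Finset.mem_filter]
    refine ⟨Finset.mem_univ _, ?_⟩
    have h2 := extB_replicate (B ++ γ) bot 1
    simp only [List.replicate_one, List.append_assoc] at h2
    rw [h2]
    linarith
  obtain ⟨f, hfS, hmax⟩ := Finset.exists_max_image S id ⟨bot, hbot⟩
  have hf0 : 0 ≤ Rr F a i om (extB (B ++ (γ ++ [f])) bot) := by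
    rw [hS, Finset.mem_filter] at hfS
    exact hfS.2
  have hfw : w ≤ Rr F a i om (extB (B ++ (γ ++ [f])) bot) := by
    have h2 := hbad' f
    rw [abs_of_nonneg hf0] at h2
    linarith
  refine ⟨f, hfw, ?_⟩
  by_cases hft : f = top
  · subst hft
    have h2 := extB_replicate (B ++ γ) top 1
    simp only [List.replicate_one, List.append_assoc] at h2
    rw [h2]
    exact h1
  · have hlt : (f : ℕ) + 1 < 2 ^ 20 := by
      have h2 := f.isLt
      by_contra h3
      apply hft
      apply Fin.ext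
      simp only [top]
      omega
    set f' : KB := ⟨(f : ℕ) + 1, hlt⟩ with hf'
    have hneg : Rr F a i om (extB (B ++ (γ ++ [f'])) bot) < 0 := by
      by_contra h2
      have h3 : f' ∈ S := by
        rw [hS, Finset.mem_filter]
        exact ⟨Finset.mem_univ _, not_lt.1 h2⟩
      have h4 := hmax f' h3
      have h5 : (f' : ℕ) ≤ f := h4
      rw [hf'] at h5
      simp at h5
    have h2 := hbad' f'
    rw [abs_of_neg hneg] at h2
    have h3 := (gap F ha i om (B ++ γ) (j := f) (j' := f') rfl).2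
    rw [List.append_assoc, List.append_assoc] at h3
    have h4 := (Sw_append F ha i om B γ (by omega)).2
    have hh := h_pos
    have h5 : 18 * h * Sw F a i om (B ++ γ) ≤
        19 * h * (1 / 2 ^ 20) ^ γ.length * Sw F a i om B := by
      have h6 : 18 * h * Sw F a i om (B ++ γ) ≤
          18 * h * ((1 + 1 / 2 ^ 90) * (1 / 2 ^ 20) ^ γ.length * Sw F a i om B) :=
        mul_le_mul_of_nonneg_left h4 (by positivity)
      have h7 : 0 ≤ h * ((1 / 2 ^ 20) ^ γ.length * Sw F a i om B) := by positivity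
      have h8 : 18 * (1 + 1 / 2 ^ 90) ≤ (19 : ℝ) := by norm_num
      calc 18 * h * Sw F a i om (B ++ γ)
          ≤ (18 * (1 + 1 / 2 ^ 90)) * (h * ((1 / 2 ^ 20) ^ γ.length * Sw F a i om B)) := by
            linarith
        _ ≤ 19 * (h * ((1 / 2 ^ 20) ^ γ.length * Sw F a i om B)) :=
            mul_le_mul_of_nonneg_right h8 h7
        _ = 19 * h * (1 / 2 ^ 20) ^ γ.length * Sw F a i om B := by ring
    linarith

/-- **O18** greedy choice of `6` letters. Proof. Induction over `k ≤ 6`: choose the largest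
letter `f`
with `R(B γ f bot) ≥ 0` (`f = bot` qualifies: the same future as `B γ bot`); `hbad` gives the
lower
bound; if `f = top` the upper bound is inherited, otherwise `R(B γ (f+1) bot) < -g`, and `gap`. -/
theorem greedy (F : Fam) {a : Fin 8 → ℝ} (ha : Cube a) (i : Fin 8) (om : ℕ → KA) (B : List KB)
    {w : ℝ} (hw : 0 ≤ w) (h0 : w ≤ Rr F a i om (extB B bot)) (h1 : Rr F a i om (extB B top) ≤ -w)
    (hbad : ∀ γ : List KB, 1 ≤ γ.length → γ.length ≤ 6 →
      w + 19 * h * (1 / 2 ^ 20) ^ (γ.length - 1) * Sw F a i om B <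
        |Rr F a i om (extB (B ++ γ) bot)|) :
    ∃ γ : List KB, γ.length = 6 ∧ w ≤ Rr F a i om (extB (B ++ γ) bot) ∧
      Rr F a i om (extB (B ++ γ) top) ≤ -w := by
  have key : ∀ k : ℕ, k ≤ 6 → ∃ γ : List KB, γ.length = k ∧
      w ≤ Rr F a i om (extB (B ++ γ) bot) ∧ Rr F a i om (extB (B ++ γ) top) ≤ -w := by
    intro k
    induction k with
    | zero =>
      intro _
      exact ⟨[], rfl, by simpa using h0, by simpa using h1⟩
    | succ k ih =>
      intro hk
      obtain ⟨γ, hγ, h2, h3⟩ := ih (by omega)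
      obtain ⟨f, h4, h5⟩ := greedy_step F ha i om B hw hbad γ (by omega) h2 h3
      exact ⟨γ ++ [f], by simp [hγ], h4, h5⟩
  exact key 6 le_rfl

end Pool.Agent.WildW
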