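import Pool.Agent.Lib.MP_3dbc4a_an_WO.AdmSf
import Pool.Agent.Lib.MP_3dbc4a_an_WO.RsF

/-!
# MP_3dbc4a_an, project W, block O: bounds for the size of a cell
-/

set_option autoImplicit false

open Filter Set
open scoped Topology

namespace Pool.Agent.WildW

open OB

/-- **O22** bounds for the size of a cell (O6). -/
theorem Sv_bounds (F : Fam) {a : Fin 8 → ℝ} (ha : Cube a) (i : Fin 8) (E : List KA)
    (B : List KB) : (1 / 2 ^ 21) ^ B.length ≤ Sv F a i E B ∧
      Sv F a i E B ≤ (1 / 2 ^ 20) ^ B.length := by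
  have h0 := adm_sf i (extE E) (extB B mid)
  have h1 : ∀ n : ℕ, (1 : ℝ) / 2 ^ 21 ≤ rs F a (symOf (sf i (extE E) (extB B mid))) (n + 1) ∧
      rs F a (symOf (sf i (extE E) (extB B mid))) (n + 1) ≤ 1 / 2 ^ 20 := by
    intro n
    have h2 := rs_f F ha h0 (n := (n : ℤ) + 1) (j := extB B mid n) (symOf_p (sf_pos _ _ _ n))
    refine ⟨le_trans ?_ h2.1, h2.2⟩
    norm_num
  unfold Sv prodR
  have h3 : ∏ _n ∈ Finset.range B.length, ((1 : ℝ) / 2 ^ 21) = (1 / 2 ^ 21) ^ B.length := by simp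
  have h4 : ∏ _n ∈ Finset.range B.length, ((1 : ℝ) / 2 ^ 20) = (1 / 2 ^ 20) ^ B.length := by simp
  rw [← h3, ← h4]
  constructor
  · exact Finset.prod_le_prod (fun _ _ => by positivity) (fun n _ => (h1 n).1)
  · refine Finset.prod_le_prod (fun n _ => ?_) (fun n _ => (h1 n).2)
    exact le_trans (by positivity) (h1 n).1

end Pool.Agent.WildW
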