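import Pool.Agent.Lib.MP_3dbc4a_an_WO.AdmSf
import Pool.Agent.Lib.MP_3dbc4a_an_WO.ProdD
import Pool.Agent.Lib.MP_3dbc4a_an_WO.RsF

/-!
# MP_3dbc4a_an, project W, block O: one more letter in the past
-/

set_option autoImplicit false

open Filter Set
open scoped Topology

namespace Pool.Agent.WildW

open OB

private theorem wstep_pastEq {E : List KA} {n : ℕ} (e : KA) (hn : n < E.length) :
    extE E n = extE (E ++ [e]) n := by
  have := extE_agree E [] [e] hn
  rwa [List.append_nil] at this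

private theorem wstep_futEq {B : List KB} {n : ℕ} (γ : List KB) (hn : n < B.length) :
    extB B mid n = extB (B ++ γ) mid n := by
  have := extB_agree B [] γ mid mid hn
  rwa [List.append_nil] at this

/-- `|A q - W| ≤ (δ + η) W` if `|A - W| ≤ δ W`, `|q - 1| ≤ η`, `0 ≤ q ≤ c` -/
private theorem wstep_comb {A q W δ η c : ℝ} (hW : 0 ≤ W) (hδ : 0 ≤ δ) (h1 : |A - W| ≤ δ * W)
    (h2 : |q - 1| ≤ η) (h3 : |q| ≤ c) : |A * q - W| ≤ (δ * c + η) * W := by
  have h4 : A * q - W = (A - W) * q + W * (q - 1) := by ring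
  rw [h4]
  have h5 : |A - W| * |q| ≤ δ * W * c := mul_le_mul h1 h3 (abs_nonneg _) (by positivity)
  have h6 : W * |q - 1| ≤ W * η := mul_le_mul_of_nonneg_left h2 hW
  calc |(A - W) * q + W * (q - 1)| ≤ |(A - W) * q| + |W * (q - 1)| := abs_add_le _ _
    _ = |A - W| * |q| + W * |q - 1| := by rw [abs_mul, abs_mul, abs_of_nonneg hW]
    _ ≤ δ * W * c + W * η := by linarith
    _ = (δ * c + η) * W := by ring

/-- **O15** one more letter in the past. -/
theorem Wv_step (F : Fam) {a : Fin 8 → ℝ} (ha : Cube a) (i : Fin 8) (E : List KA) (B γ : List KB)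
    (e : KA) :
    |Wv F a i (E ++ [e]) (B ++ γ) * (Pl.e e).sl / b - Wv F a i E B| ≤
      1 / 2 ^ 120 * Wv F a i E B := by
  have hb := b_pos
  set s : ℤ → Lt := sf i (extE E) (extB B mid) with hs
  set s' : ℤ → Lt := sf i (extE (E ++ [e])) (extB (B ++ γ) mid) with hs'
  have hA : Adm (symOf s) := adm_sf i _ _
  have hA' : Adm (symOf s') := adm_sf i _ _
  have hW : 0 ≤ Wv F a i E B := by
    have := (prodT_b F ha hA (N := E.length) fun n _ => ⟨_, sf_neg i _ _ n⟩).1
    exact (by positivity : 0 ≤ b * (1 / 2 ^ 121) ^ E.length).trans this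
  have h1 : |prodT F a s' E.length - Wv F a i E B| ≤ 1 / 2 ^ 135 * Wv F a i E B := by
    refine prodT_dist F ha hA hA' (N := E.length) (by rw [hs, hs', sf_zero, sf_zero])
      fun n hn => ⟨extE E n, sf_neg i _ _ n, ?_⟩
    rw [hs', sf_neg, wstep_pastEq e hn]
  have hlast : symOf s' (-(E.length : ℤ) - 1) = .p (.e e) := by
    refine symOf_p ?_
    rw [hs', sf_neg, extE_lt (by simp)]
    simp
  have h2 := ts_e F ha hA' hlast
  set q : ℝ := ts F a (symOf s') (-(E.length : ℤ) - 1) * (Pl.e e).sl with hq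
  have h3 : Wv F a i (E ++ [e]) (B ++ γ) * (Pl.e e).sl / b = prodT F a s' E.length * q := by
    have h4 : Wv F a i (E ++ [e]) (B ++ γ) = prodT F a s' (E.length + 1) := by
      unfold Wv
      rw [List.length_append, List.length_singleton]
    rw [h4, hq]
    unfold prodT
    rw [Finset.prod_range_succ]
    field_simp
  rw [h3]
  have h5 : |q| ≤ 2 := by
    have h6 := abs_le.1 h2
    have h7 : (1 : ℝ) / 2 ^ 135 ≤ 1 := by norm_num
    rw [abs_le]
    constructor <;> linarith [h6.1, h6.2]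
  refine (wstep_comb hW (by norm_num) h1 h2 h5).trans (mul_le_mul_of_nonneg_right ?_ hW)
  norm_num

/-- **O15'** the size of the cell of `B ++ γ` after one more letter in the past. -/
theorem Sv_step (F : Fam) {a : Fin 8 → ℝ} (ha : Cube a) (i : Fin 8) (E : List KA) (B γ : List KB)
    (hγ : γ.length = 6) (e : KA) :
    |Sv F a i (E ++ [e]) (B ++ γ) * 2 ^ 120 - Sv F a i E B| ≤ 1 / 2 ^ 88 * Sv F a i E B := by
  set s : ℤ → Lt := sf i (extE E) (extB B mid) with hs
  set s' : ℤ → Lt := sf i (extE (E ++ [e])) (extB (B ++ γ) mid) with hs'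
  have hA : Adm (symOf s) := adm_sf i _ _
  have hA' : Adm (symOf s') := adm_sf i _ _
  have hW : 0 ≤ Sv F a i E B := by
    have := (prodR_b F ha hA (l := B.length) fun n _ => ⟨_, sf_pos i _ _ n⟩).1
    exact (by positivity : (0 : ℝ) ≤ (1 / 2 ^ 21) ^ B.length).trans this
  have h1 : |prodR F a s' B.length - Sv F a i E B| ≤ 1 / 2 ^ 135 * Sv F a i E B := by
    refine prodR_dist F ha hA hA' (l := B.length) (by rw [hs, hs', sf_zero, sf_zero])
      fun n hn => ⟨extB B mid n, sf_pos i _ _ n, ?_⟩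
    rw [hs', sf_pos, wstep_futEq γ hn]
  set f : ℕ → ℝ := fun x => 2 ^ 20 * rs F a (symOf s') (((B.length + x : ℕ) : ℤ) + 1) with hf
  have hf1 : ∀ x, 1 - 1 / 2 ^ 95 ≤ f x ∧ f x ≤ 1 := by
    intro x
    have h2 : symOf s' (((B.length + x : ℕ) : ℤ) + 1) =
        .p (.f (extB (B ++ γ) mid (B.length + x))) := symOf_p (by rw [hs', sf_pos])
    obtain ⟨h3, h4⟩ := rs_f F ha hA' h2
    have e1 : f x = 2 ^ 20 * rs F a (symOf s') (((B.length + x : ℕ) : ℤ) + 1) := rfl
    rw [e1]
    constructor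
    · rw [div_le_iff₀ (by norm_num)] at h3
      linarith
    · rw [le_div_iff₀ (by norm_num)] at h4
      linarith
  set q : ℝ := ∏ x ∈ Finset.range 6, f x with hq
  have hq1 : q ≤ 1 := Finset.prod_le_one (fun x _ => by
    have := (hf1 x).1
    have h2 : (0 : ℝ) ≤ 1 - 1 / 2 ^ 95 := by norm_num
    linarith) fun x _ => (hf1 x).2
  have hq2 : 1 - 6 * (1 / 2 ^ 95) ≤ q := by
    have h2 : ∏ _x ∈ Finset.range 6, ((1 : ℝ) - 1 / 2 ^ 95) ≤ q :=
      Finset.prod_le_prod (fun _ _ => by norm_num) fun x _ => (hf1 x).1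
    rw [Finset.prod_const, Finset.card_range] at h2
    have h3 := one_add_mul_le_pow (show (-2 : ℝ) ≤ -(1 / 2 ^ 95) by norm_num) 6
    have h4 : (1 : ℝ) + -(1 / 2 ^ 95) = 1 - 1 / 2 ^ 95 := by ring
    rw [h4] at h3
    push_cast at h3
    linarith
  have h3 : Sv F a i (E ++ [e]) (B ++ γ) * 2 ^ 120 = prodR F a s' B.length * q := by
    have h4 : Sv F a i (E ++ [e]) (B ++ γ) = prodR F a s' (B.length + 6) := by
      unfold Sv
      rw [List.length_append, hγ]
    rw [h4, hq]
    unfold prodR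
    rw [Finset.prod_range_add, hf, Finset.prod_mul_distrib, Finset.prod_const, Finset.card_range]
    push_cast
    ring
  rw [h3]
  have h5 : |q - 1| ≤ 6 * (1 / 2 ^ 95) := by
    rw [abs_le]
    constructor <;> linarith
  have h6 : |q| ≤ 1 := by
    rw [abs_le]
    have h7 : (6 : ℝ) * (1 / 2 ^ 95) ≤ 1 := by norm_num
    constructor <;> linarith
  refine (wstep_comb hW (by norm_num) h1 h5 h6).trans (mul_le_mul_of_nonneg_right ?_ hW)
  norm_num

end Pool.Agent.WildW
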