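import Pool.Agent.Lib.MP_3dbc4a_an_WO.Count
import Pool.Agent.Lib.MP_3dbc4a_an_WO.DigS
import Pool.Agent.Lib.MP_3dbc4a_an_WO.DigStep
import Pool.Agent.Lib.MP_3dbc4a_an_WO.EStep
import Pool.Agent.Lib.MP_3dbc4a_an_WO.ETot
import Pool.Agent.Lib.MP_3dbc4a_an_WO.Greedy
import Pool.Agent.Lib.MP_3dbc4a_an_WO.SvBd
import Pool.Agent.Lib.MP_3dbc4a_an_WO.WStep

/-!
# MP_3dbc4a_an, project W, block O: the sieve
-/

set_option autoImplicit false

open Filter Set
open scoped Topology

namespace Pool.Agent.WildW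

open OB

private def sieve_j0 (sd : Bool) : ℕ := if sd then 2 ^ 13 else 0

private def sieve_lt (fam sd : Bool) (n : ℕ) : KA :=
  (fam, ⟨(sieve_j0 sd + n) % 2 ^ 14, Nat.mod_lt _ (by norm_num)⟩)

private theorem sieve_j0_le (sd : Bool) : sieve_j0 sd ≤ 2 ^ 13 := by
  cases sd <;> simp [sieve_j0]

private theorem sieve_lt_val (fam sd : Bool) {n : ℕ} (hn : n < 2 ^ 13) :
    ((sieve_lt fam sd n).2 : ℕ) = sieve_j0 sd + n := by
  have h1 := sieve_j0_le sd
  have h2 : (2 : ℕ) ^ 14 = 2 ^ 13 + 2 ^ 13 := by norm_num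
  show (sieve_j0 sd + n) % 2 ^ 14 = _
  exact Nat.mod_eq_of_lt (by omega)

private theorem sieve_side (fam sd : Bool) {n : ℕ} (hn : n < 2 ^ 13) :
    side (sieve_lt fam sd n) = sd := by
  unfold side
  rw [sieve_lt_val fam sd hn]
  cases sd
  · rw [decide_eq_false_iff_not]
    simp only [sieve_j0]
    simp
    exact hn
  · rw [decide_eq_true_eq]
    simp [sieve_j0]

/-- the residual for the `n`-th letter of the given side and family -/
private noncomputable def sieve_R (F : Fam) (a : Fin 8 → ℝ) (i : Fin 8) (E : List KA)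
    (fam sd : Bool) (n : ℕ) (op : ℕ → KB) : ℝ :=
  Rr F a i (extE (E ++ [sieve_lt fam sd n])) op

private theorem sieve_step (F : Fam) {a : Fin 8 → ℝ} (ha : Cube a) (i : Fin 8) (E : List KA)
    (B : List KB) (op : ℕ → KB) (fam sd : Bool) {n n' : ℕ} (h : n ≤ n') (hn' : n' < 2 ^ 13) :
    ((n' : ℝ) - n) * (79 / 10 / 2 ^ 20) * Wv F a i E B ≤
      sieve_R F a i E fam sd n op - sieve_R F a i E fam sd n' op ∧
    sieve_R F a i E fam sd n op - sieve_R F a i E fam sd n' op ≤
      ((n' : ℝ) - n) * (81 / 10 / 2 ^ 20) * Wv F a i E B := by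
  have h1 := sieve_lt_val fam sd (h.trans_lt hn')
  have h2 := sieve_lt_val fam sd hn'
  have h3 := e_step F ha i E B op (fam := fam) (j := (sieve_lt fam sd n).2)
    (j' := (sieve_lt fam sd n').2) (by rw [h1, h2]; omega)
  rw [h1, h2] at h3
  push_cast at h3
  have e : ((sieve_j0 sd : ℝ) + n' - (sieve_j0 sd + n)) = n' - n := by ring
  rw [e] at h3
  exact h3

private theorem sieve_Sw (F : Fam) {a : Fin 8 → ℝ} (ha : Cube a) (i : Fin 8) (E : List KA)
    (B : List KB) (om : ℕ → KA) :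
    |Sw F a i om B - Sv F a i E B| ≤ 1 / 2 ^ 135 * Sv F a i E B :=
  prodR_dist F ha (adm_sf i (extE E) (extB B mid)) (adm_sf i om (extB B mid))
    (by rw [sf_zero, sf_zero]) fun n _ => ⟨extB B mid n, sf_pos _ _ _ _, sf_pos _ _ _ _⟩

private theorem sieve_card (F : Fam) {a : Fin 8 → ℝ} (ha : Cube a) (i : Fin 8) (E : List KA)
    (B : List KB) (fam sd : Bool) {k : ℕ} (hk : k ≤ 6) {g D : ℝ} (hW : 0 < Wv F a i E B)
    (hS : 0 < Sv F a i E B) (hg : 0 ≤ g) (hD : 0 < D)
    (hD2 : D ≤ 97 / 100 * (1 / 2 ^ 20) ^ k * Sv F a i E B) (n1 n2 : ℕ)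
    (h1 : 2 ^ 13 * (81 / 10 / 2 ^ 20) * Wv F a i E B + 2 * g < n1 * D)
    (h2 : 2 * g < n2 * (79 / 10 / 2 ^ 20 * Wv F a i E B)) :
    ((Finset.range (2 ^ 13)).filter (fun e => ∃ j < (2 ^ 20) ^ k,
      |sieve_R F a i E fam sd e (extB (B ++ dig k j) bot)| ≤ g)).card ≤ n1 * n2 := by
  have hd : (0 : ℝ) < 79 / 10 / 2 ^ 20 * Wv F a i E B := by positivity
  have hV : (0 : ℝ) ≤ 2 ^ 13 * (81 / 10 / 2 ^ 20) * Wv F a i E B := by positivity
  have c := count (N := 2 ^ 13) (J := (2 ^ 20) ^ k)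
    (fun e j => sieve_R F a i E fam sd e (extB (B ++ dig k j) bot)) hd hD hg hV
    (by
      intro e j he _
      have h3 := (sieve_step F ha i E B (extB (B ++ dig k j) bot) fam sd (Nat.le_succ e) he).1
      push_cast at h3
      have e1 : ((e : ℝ) + 1 - e) = 1 := by ring
      rw [e1] at h3
      linarith)
    (by
      intro e j he hj
      have h3 := dig_step F ha i (extE (E ++ [sieve_lt fam sd e])) B hk hj
      have h4 := sieve_Sw F ha i E B (extE (E ++ [sieve_lt fam sd e]))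
      rw [abs_le] at h4
      have hq : (0 : ℝ) < (1 / 2 ^ 20) ^ k := by positivity
      have h5 : (1 : ℝ) / 2 ^ 135 ≤ 1 / 1000 := by norm_num
      have h6 : 1 / 2 ^ 135 * Sv F a i E B ≤ 1 / 1000 * Sv F a i E B :=
        mul_le_mul_of_nonneg_right h5 hS.le
      have h7 : 97 / 100 * Sv F a i E B ≤
          98 / 100 * Sw F a i (extE (E ++ [sieve_lt fam sd e])) B := by linarith [h4.1]
      have h8 : 97 / 100 * (1 / 2 ^ 20) ^ k * Sv F a i E B ≤
          98 / 100 * (1 / 2 ^ 20) ^ k * Sw F a i (extE (E ++ [sieve_lt fam sd e])) B := by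
        have := mul_le_mul_of_nonneg_left h7 hq.le
        linarith
      show Rr F a i (extE (E ++ [sieve_lt fam sd e])) (extB (B ++ dig k (j + 1)) bot) ≤
        Rr F a i (extE (E ++ [sieve_lt fam sd e])) (extB (B ++ dig k j) bot) - D
      linarith)
    (by
      intro j _
      have h3 := (sieve_step F ha i E B (extB (B ++ dig k j) bot) fam sd
        (Nat.zero_le (2 ^ 13 - 1)) (by norm_num)).2
      refine h3.trans ?_
      norm_num
      linarith)
  refine c.trans (Nat.mul_le_mul ?_ ?_)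
  · refine Nat.succ_le_of_lt ((Nat.floor_lt (by positivity)).2 ?_)
    rw [div_lt_iff₀ hD]
    exact h1
  · refine Nat.succ_le_of_lt ((Nat.floor_lt (by positivity)).2 ?_)
    rw [div_lt_iff₀ hd]
    exact h2

/-- **O19 (Sieve).** Proof. Family: `true` if `b Sv < 200 Wv`, `false` otherwise. `S = Sv`, `W
= Wv`,
`w = 2^-118 W`. For the `2^13` letters `e` of the given side of the family put
`R_e = Rr (extE (E ++ [e]))`. O14: `R_e(B bot) ≥ 3/5 W`, `R_e(B top) ≤ -3/5 W`.
For `k = 1..6`, `g_k = w + 19.1 h 2^(-20 (k-1)) S`; `Bad_k` = letters with `|R_e(B γ bot)| ≤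
g_k` for
some `γ` of length `k`. By O16 with `d = 7.9 * 2^-20 W` (O13), `D = 0.97 * 2^(-20 k) S` (O17'),
`V = 2^13 * 8.1 * 2^-20 W < 0.064 W` and `140 * 2^100 W ≤ S ≤ 320 * 2^100 W`, `h ≤ 2^-120`:
`k = 1`: `2 g_1 / d < 1548`, `(V + 2 g_1)/D < 1`: at most `1548`; `k = 2..5`: at most `1` each;
`k = 6`: `(V + 2 g_6)/D < 495`, `2 g_6/d < 1`: at most `495`. Together less than `2^13`. A
letter `e`
outside all `Bad_k` with O18 (`Sw` for the past `E e` is `≤ 1.001 S` by O7) gives the words;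
the new
`Wv` is `≤ 2^-119 * 1.01 W ≤ w` (O15). New ratio: O15, O15': `X' = X * 3/2 (1 ± 2^-80)` for `X
< 200`,
`X' = X * 3/4 (1 ± 2^-80)` for `X ≥ 200`. `γ` is not `bot^6`: otherwise `R_e(B γ bot) = R_e(B
bot) ≥
3/5 W`, but `R_e(B γ bot) ≤ R_e(B γ top) + 1.01 Sw(B γ) ≤ 1.02 * 2^-120 S ≤ 0.001 W`. -/
theorem sieve (F : Fam) {a : Fin 8 → ℝ} (ha : Cube a) {i : Fin 8} {E : List KA} {B : List KB}
    (hN : Node F a i E B 140 320) (sd : Bool) :
    ∃ (e : KA) (γ : List KB), side e = sd ∧ γ.length = 6 ∧ (∃ y ∈ γ, y ≠ bot) ∧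
      Node F a i (E ++ [e]) (B ++ γ) 149 301 := by
  have hb : b = 1 / 2 ^ 100 := rfl
  set W := Wv F a i E B with hWdef
  set S := Sv F a i E B with hSdef
  have hS : 0 < S := lt_of_lt_of_le (by positivity) (Sv_bounds F ha i E B).1
  have hX1 := hN.Xlo
  have hX2 := hN.Xhi
  rw [← hWdef, ← hSdef, hb] at hX1 hX2
  have hW : 0 < W := by
    have : 0 < 1 / 2 ^ 100 * S := by positivity
    linarith
  have hh0 := h_pos
  have hh1 := h_hi
  set T := h * S with hT
  have hT0 : 0 < T := by positivity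
  have hT1 : T ≤ 320 / 2 ^ 20 * W := by
    have h1 : T ≤ 1 / 2 ^ 120 * S := mul_le_mul_of_nonneg_right hh1 hS.le
    have h2 : (1 : ℝ) / 2 ^ 120 * S = 1 / 2 ^ 20 * (1 / 2 ^ 100 * S) := by ring
    linarith
  have hS1 : 140 * 2 ^ 100 * W ≤ S := by
    have h2 : S = 2 ^ 100 * (1 / 2 ^ 100 * S) := by ring
    linarith
  -- the family
  set fam : Bool := decide (1 / 2 ^ 100 * S < 200 * W) with hfam
  -- the residuals of the two ends of the cell
  have hends : ∀ n : ℕ, 3 / 5 * W ≤ sieve_R F a i E fam sd n (extB B bot) ∧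
      sieve_R F a i E fam sd n (extB B top) ≤ -(3 / 5 * W) := by
    intro n
    have hom : ∀ m < E.length, extE (E ++ [sieve_lt fam sd n]) m = extE E m := by
      intro m hm
      have := extE_agree E [sieve_lt fam sd n] [] hm
      rwa [List.append_nil] at this
    have t1 := e_total F ha i E B (extB B bot) (extE (E ++ [sieve_lt fam sd n])) (extE E) hom
      fun _ _ => rfl
    have t2 := e_total F ha i E B (extB B top) (extE (E ++ [sieve_lt fam sd n])) (extE E) hom
      fun _ _ => rfl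
    rw [abs_le] at t1 t2
    have u1 := hN.up
    have u2 := hN.dn
    unfold sieve_R
    constructor
    · linarith [t1.1]
    · linarith [t2.2]
  -- the bad letters
  set g : ℕ → ℝ := fun k => 1 / 2 ^ 118 * W + 191 / 10 * (1 / 2 ^ 20) ^ (k - 1) * T with hg
  set Bad : ℕ → Finset ℕ := fun k => (Finset.range (2 ^ 13)).filter (fun e =>
    ∃ j < (2 ^ 20) ^ k, |sieve_R F a i E fam sd e (extB (B ++ dig k j) bot)| ≤ g k) with hBad
  have hg0 : ∀ k, 0 ≤ g k := by
    intro k
    rw [hg]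
    positivity
  have c1 : (Bad 1).card ≤ 1 * 1548 :=
    sieve_card F ha i E B fam sd (k := 1) (by norm_num) hW hS (hg0 1) (by positivity) le_rfl
      1 1548 (by simp only [hg]; norm_num; norm_num at hS1 hT1; linarith)
      (by simp only [hg]; norm_num; norm_num at hT1; linarith)
  have c2 : (Bad 2).card ≤ 1 * 1 :=
    sieve_card F ha i E B fam sd (k := 2) (by norm_num) hW hS (hg0 2) (by positivity) le_rfl
      1 1 (by simp only [hg]; norm_num; norm_num at hS1 hT1; linarith)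
      (by simp only [hg]; norm_num; norm_num at hT1; linarith)
  have c3 : (Bad 3).card ≤ 1 * 1 :=
    sieve_card F ha i E B fam sd (k := 3) (by norm_num) hW hS (hg0 3) (by positivity) le_rfl
      1 1 (by simp only [hg]; norm_num; norm_num at hS1 hT1; linarith)
      (by simp only [hg]; norm_num; norm_num at hT1; linarith)
  have c4 : (Bad 4).card ≤ 1 * 1 :=
    sieve_card F ha i E B fam sd (k := 4) (by norm_num) hW hS (hg0 4) (by positivity) le_rfl
      1 1 (by simp only [hg]; norm_num; norm_num at hS1 hT1; linarith)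
      (by simp only [hg]; norm_num; norm_num at hT1; linarith)
  have c5 : (Bad 5).card ≤ 1 * 1 :=
    sieve_card F ha i E B fam sd (k := 5) (by norm_num) hW hS (hg0 5) (by positivity) le_rfl
      1 1 (by simp only [hg]; norm_num; norm_num at hS1 hT1; linarith)
      (by simp only [hg]; norm_num; norm_num at hT1; linarith)
  have c6 : (Bad 6).card ≤ 495 * 1 :=
    sieve_card F ha i E B fam sd (k := 6) (by norm_num) hW hS (hg0 6) (by positivity) le_rfl
      495 1 (by simp only [hg]; norm_num; norm_num at hS1 hT1; linarith)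
      (by simp only [hg]; norm_num; norm_num at hT1; linarith)
  have hcard : (Bad 1 ∪ (Bad 2 ∪ (Bad 3 ∪ (Bad 4 ∪ (Bad 5 ∪ Bad 6))))).card <
      (Finset.range (2 ^ 13)).card := by
    have u1 := Finset.card_union_le (Bad 1) (Bad 2 ∪ (Bad 3 ∪ (Bad 4 ∪ (Bad 5 ∪ Bad 6))))
    have u2 := Finset.card_union_le (Bad 2) (Bad 3 ∪ (Bad 4 ∪ (Bad 5 ∪ Bad 6)))
    have u3 := Finset.card_union_le (Bad 3) (Bad 4 ∪ (Bad 5 ∪ Bad 6))
    have u4 := Finset.card_union_le (Bad 4) (Bad 5 ∪ Bad 6)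
    have u5 := Finset.card_union_le (Bad 5) (Bad 6)
    rw [Finset.card_range]
    norm_num
    omega
  obtain ⟨n, hn, hnb⟩ := Finset.exists_mem_notMem_of_card_lt_card hcard
  have hn1 : n < 2 ^ 13 := Finset.mem_range.1 hn
  have hnk : ∀ k, 1 ≤ k → k ≤ 6 → n ∉ Bad k := by
    simp only [Finset.mem_union, not_or] at hnb
    obtain ⟨b1, b2, b3, b4, b5, b6⟩ := hnb
    intro k hk1 hk6
    interval_cases k
    exacts [b1, b2, b3, b4, b5, b6]
  set om : ℕ → KA := extE (E ++ [sieve_lt fam sd n]) with hom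
  obtain ⟨he1, he2⟩ := hends n
  have hSw := sieve_Sw F ha i E B om
  rw [← hSdef, abs_le] at hSw
  have h135 : (1 : ℝ) / 2 ^ 135 ≤ 1 / 1000 := by norm_num
  have hSw6 : 1 / 2 ^ 135 * S ≤ 1 / 1000 * S := mul_le_mul_of_nonneg_right h135 hS.le
  have hw : (1 : ℝ) / 2 ^ 118 * W ≤ 3 / 5 * W :=
    mul_le_mul_of_nonneg_right (by norm_num) hW.le
  -- the choice of the letters of the future
  obtain ⟨γ, hγl, hγ1, hγ2⟩ := greedy F ha i om B (w := 1 / 2 ^ 118 * W) (by positivity)
    (hw.trans he1) (he2.trans (neg_le_neg hw))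
    (by
      intro γ hγ1 hγ6
      obtain ⟨j, hj, hdig⟩ := dig_surj γ
      have h1 := hnk γ.length hγ1 hγ6
      have h2 : ¬ |sieve_R F a i E fam sd n (extB (B ++ dig γ.length j) bot)| ≤ g γ.length := by
        intro h3
        exact h1 (Finset.mem_filter.2 ⟨hn, j, hj, h3⟩)
      rw [hdig] at h2
      refine lt_of_le_of_lt ?_ (not_le.1 h2)
      have h4 : 19 * Sw F a i om B ≤ 191 / 10 * S := by linarith [hSw.2]
      have h5 : (0 : ℝ) ≤ h * (1 / 2 ^ 20) ^ (γ.length - 1) := by positivity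
      have h6 := mul_le_mul_of_nonneg_left h4 h5
      show 1 / 2 ^ 118 * W + 19 * h * (1 / 2 ^ 20) ^ (γ.length - 1) * Sw F a i om B ≤
        1 / 2 ^ 118 * W + 191 / 10 * (1 / 2 ^ 20) ^ (γ.length - 1) * (h * S)
      linarith)
  -- the new sizes
  set W' := Wv F a i (E ++ [sieve_lt fam sd n]) (B ++ γ) with hW'
  set S' := Sv F a i (E ++ [sieve_lt fam sd n]) (B ++ γ) with hS'
  have hWs := Wv_step F ha i E B γ (sieve_lt fam sd n)
  have hSs := Sv_step F ha i E B γ hγl (sieve_lt fam sd n)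
  rw [← hWdef, ← hW', hb, abs_le] at hWs
  rw [← hSdef, ← hS', abs_le] at hSs
  have hn120 : (1 : ℝ) / 2 ^ 120 * W ≤ 1 / 10 ^ 6 * W :=
    mul_le_mul_of_nonneg_right (by norm_num) hW.le
  have hn88 : (1 : ℝ) / 2 ^ 88 * S ≤ 1 / 10 ^ 6 * S :=
    mul_le_mul_of_nonneg_right (by norm_num) hS.le
  have hkey : W' ≤ 1 / 2 ^ 118 * W ∧ 149 * W' ≤ 1 / 2 ^ 100 * S' ∧
      1 / 2 ^ 100 * S' ≤ 301 * W' := by
    by_cases hc : 1 / 2 ^ 100 * S < 200 * W
    · have hf : fam = true := decide_eq_true hc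
      have hsl : (Pl.e (sieve_lt fam sd n)).sl = 3 * 2 ^ 19 := by
        show (if fam = true then _ else _) = _
        rw [if_pos hf]
      rw [hsl] at hWs
      have e1 : W' * (3 * 2 ^ 19) / (1 / 2 ^ 100) = 3 * 2 ^ 119 * W' := by ring
      rw [e1] at hWs
      have w1 := hWs.1
      have w2 := hWs.2
      have s1 := hSs.1
      have s2 := hSs.2
      norm_num at w1 w2 s1 s2 hn120 hn88 hX1 hX2 hc ⊢
      refine ⟨?_, ?_, ?_⟩ <;> linarith
    · have hf : ¬ fam = true := by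
        rw [hfam, decide_eq_true_eq]
        exact hc
      have hsl : (Pl.e (sieve_lt fam sd n)).sl = 3 * 2 ^ 18 := by
        show (if fam = true then _ else _) = _
        rw [if_neg hf]
      rw [hsl] at hWs
      have e1 : W' * (3 * 2 ^ 18) / (1 / 2 ^ 100) = 3 * 2 ^ 118 * W' := by ring
      rw [e1] at hWs
      have w1 := hWs.1
      have w2 := hWs.2
      have s1 := hSs.1
      have s2 := hSs.2
      norm_num at w1 w2 s1 s2 hn120 hn88 hX1 hX2 hc ⊢
      refine ⟨?_, ?_, ?_⟩ <;> linarith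
  refine ⟨sieve_lt fam sd n, γ, sieve_side fam sd hn1, hγl, ?_, ?_⟩
  · by_contra hcon
    simp only [not_exists, not_and, ne_eq, not_not] at hcon
    have hrep : γ = List.replicate 6 bot := by
      rw [List.eq_replicate_iff]
      exact ⟨hγl, hcon⟩
    have h1 : extB (B ++ γ) bot = extB B bot := by
      rw [hrep]
      exact extB_replicate B bot 6
    have h2 := (cell_size F ha i om (B ++ γ)).2
    have h3 := (Sw_append F ha i om B γ hγl.le).2
    rw [h1] at h2
    rw [hγl] at h3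
    have h4 : sieve_R F a i E fam sd n (extB B bot) = Rr F a i om (extB B bot) := rfl
    rw [h4] at he1
    have hsw1 : Sw F a i om B ≤ 1001 / 1000 * S := by linarith [hSw.2]
    have hc6 : (0 : ℝ) ≤ (1 + 1 / 2 ^ 90) * (1 / 2 ^ 20) ^ 6 := by positivity
    have h5 := mul_le_mul_of_nonneg_left hsw1 hc6
    norm_num at h2 h3 h5 hX2 hγ2
    linarith
  · refine ⟨?_, ?_, ?_, ?_, ?_⟩
    · rw [List.length_append, List.length_append, hγl, hN.len, List.length_singleton]
      ring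
    · exact hkey.1.trans hγ1
    · exact hγ2.trans (neg_le_neg hkey.1)
    · rw [hb]
      exact hkey.2.1
    · rw [hb]
      exact hkey.2.2

end Pool.Agent.WildW
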