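import Pool.Agent.Lib.MP_3dbc4a_an_WO.ODefs

/-!
# MP_3dbc4a_an, project W, block O: words with one fold
-/

set_option autoImplicit false

open Filter Set
open scoped Topology

namespace Pool.Agent.WildW.OB

@[simp] theorem sf_zero (i : Fin 8) (om : ℕ → KA) (op : ℕ → KB) : sf i om op 0 = .d i := by
  simp [sf]

@[simp] theorem sf_pos (i : Fin 8) (om : ℕ → KA) (op : ℕ → KB) (n : ℕ) :
    sf i om op ((n : ℤ) + 1) = .p (.f (op n)) := by
  have h1 : ¬ ((n : ℤ) + 1 < 0) := by omega
  have h2 : ¬ ((n : ℤ) + 1 = 0) := by omega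
  simp only [sf, if_neg h1, if_neg h2]
  congr 3
  simp

@[simp] theorem sf_neg (i : Fin 8) (om : ℕ → KA) (op : ℕ → KB) (n : ℕ) :
    sf i om op (-(n : ℤ) - 1) = .p (.e (om n)) := by
  have h1 : (-(n : ℤ) - 1 < 0) := by omega
  simp only [sf, if_pos h1]
  congr 3
  have : (-(-(n : ℤ) - 1) - 1) = n := by ring
  rw [this]
  simp

/-- every index is `0`, `n + 1` or `-n - 1` -/
theorem int_cases (m : ℤ) : m = 0 ∨ (∃ n : ℕ, m = (n : ℤ) + 1) ∨ ∃ n : ℕ, m = -(n : ℤ) - 1 := by
  rcases lt_trichotomy m 0 with h1 | h1 | h1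
  · right; right
    exact ⟨(-m - 1).toNat, by omega⟩
  · exact Or.inl h1
  · right; left
    exact ⟨(m - 1).toNat, by omega⟩

theorem extB_lt {B : List KB} {v : KB} {n : ℕ} (hn : n < B.length) : extB B v n = B[n] := by
  simp [extB, List.getD, hn]

theorem extB_ge {B : List KB} {v : KB} {n : ℕ} (hn : B.length ≤ n) : extB B v n = v := by
  simp [extB, List.getD, hn]

theorem extB_agree (B γ γ' : List KB) (v v' : KB) {n : ℕ} (hn : n < B.length) :
    extB (B ++ γ) v n = extB (B ++ γ') v' n := by
  rw [extB_lt (by simp; omega), extB_lt (by simp; omega)]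
  simp [List.getElem_append_left hn]

/-- adding letters `v` before `v` forever changes nothing -/
theorem extB_replicate (B : List KB) (v : KB) (r : ℕ) :
    extB (B ++ List.replicate r v) v = extB B v := by
  funext n
  rcases lt_or_ge n B.length with h1 | h1
  · have := extB_agree B (List.replicate r v) [] v v h1
    simpa using this
  · rw [extB_ge h1]
    rcases lt_or_ge n (B ++ List.replicate r v).length with h2 | h2
    · rw [extB_lt h2, List.getElem_append_right h1]
      simp
    · exact extB_ge h2

theorem extB_append_ge (B γ : List KB) (v : KB) (n : ℕ) :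
    extB (B ++ γ) v (B.length + n) = extB γ v n := by
  rcases lt_or_ge n γ.length with h1 | h1
  · rw [extB_lt (by simp [h1]), extB_lt h1, List.getElem_append_right (by omega)]
    simp
  · rw [extB_ge (by simp [h1]), extB_ge h1]

theorem extE_lt {E : List KA} {n : ℕ} (hn : n < E.length) : extE E n = E[n] := by
  simp [extE, List.getD, hn]

theorem extE_ge {E : List KA} {n : ℕ} (hn : E.length ≤ n) : extE E n = estar := by
  simp [extE, List.getD, hn]

theorem extE_agree (E γ γ' : List KA) {n : ℕ} (hn : n < E.length) :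
    extE (E ++ γ) n = extE (E ++ γ') n := by
  rw [extE_lt (by simp; omega), extE_lt (by simp; omega)]
  simp [List.getElem_append_left hn]

end Pool.Agent.WildW.OB
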