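import Pool.Agent.Lib.MP_3dbc4a_an_WO.OSf

/-!
# MP_3dbc4a_an, project W, block O: one fold words are admissible
-/

set_option autoImplicit false

open Filter Set
open scoped Topology

namespace Pool.Agent.WildW

open OB

/-- one fold words are admissible -/
theorem adm_sf (i : Fin 8) (om : ℕ → KA) (op : ℕ → KB) : Adm (symOf (sf i om op)) := by
  constructor
  · intro n j hj
    rcases int_cases n with h0 | ⟨m, h0⟩ | ⟨m, h0⟩
    · subst h0
      simp [symOf, Lt.sym] at hj
    · subst h0
      left
      refine ⟨op (m + 1), ?_⟩
      have : ((m : ℤ) + 1 + 1) = ((m + 1 : ℕ) : ℤ) + 1 := by push_cast; ring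
      rw [this]
      simp only [symOf, sf_pos, Lt.sym]
    · subst h0
      simp [symOf, Lt.sym] at hj
  · intro n v hv
    exfalso
    unfold symOf Lt.sym at hv
    split at hv <;> simp at hv

end Pool.Agent.WildW
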