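import Pool.Agent.Lib.MP_3dbc4a_an_WO.AdmSf
import Pool.Agent.Lib.MP_3dbc4a_an_WO.Pos
import Pool.Agent.Lib.MP_3dbc4a_an_WO.ProdD
import Pool.Agent.Lib.MP_3dbc4a_an_WO.SharpL

/-!
# MP_3dbc4a_an, project W, block O: size of a cell
-/

set_option autoImplicit false

open Filter Set
open scoped Topology

namespace Pool.Agent.WildW

open OB

private theorem cellsize_tail (i : Fin 8) (om : ℕ → KA) (B : List KB) (v : KB) (k : ℕ) :
    symOf (sf i om (extB B v)) ((B.length : ℤ) + 1 + k) = .p (.f v) := by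
  refine symOf_p ?_
  have h1 : (B.length : ℤ) + 1 + k = ((B.length + k : ℕ) : ℤ) + 1 := by
    push_cast
    ring
  rw [h1, sf_pos, extB_ge (Nat.le_add_right _ _)]

private theorem cellsize_head (i : Fin 8) (om : ℕ → KA) (B : List KB) (v v' : KB) (n : ℕ)
    (hn : n < B.length) : ∃ j, sf i om (extB B v) (n + 1) = .p (.f j) ∧
      sf i om (extB B v') (n + 1) = .p (.f j) :=
  ⟨B[n], by rw [sf_pos, extB_lt hn], by rw [sf_pos, extB_lt hn]⟩

private theorem cellsize_num : (1 : ℝ) / 2 ^ 125 ≤ 1 / 1000 ∧ (1 : ℝ) / 2 ^ 135 ≤ 1 / 1000 ∧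
    (1 : ℝ) / 2 ^ 120 ≤ 1 / 21000 := by
  norm_num

/-- **O10** size of a cell: O5a with `l = |B|`, O9, O9', O7. -/
theorem cell_size (F : Fam) {a : Fin 8 → ℝ} (ha : Cube a) (i : Fin 8) (om : ℕ → KA)
    (B : List KB) :
    99 / 100 * Sw F a i om B ≤ Rr F a i om (extB B bot) - Rr F a i om (extB B top) ∧
    Rr F a i om (extB B bot) - Rr F a i om (extB B top) ≤ 101 / 100 * Sw F a i om B := by
  obtain ⟨n1, n2, n3⟩ := cellsize_num
  have hh := h_hi.trans n3
  have hh0 := h_pos
  have h1 := sharp_past F ha (adm_sf i om (extB B bot)) (adm_sf i om (extB B top)) (i := i)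
    (l := B.length) (sf_zero _ _ _) (sf_zero _ _ _) (cellsize_head i om B bot top)
    (fun n => ⟨om n, sf_neg _ _ _ _, sf_neg _ _ _ _⟩)
  have h2 := prodR_dist F ha (adm_sf i om (extB B mid)) (adm_sf i om (extB B bot))
    (l := B.length) ((sf_zero _ _ _).trans (sf_zero _ _ _).symm)
    (cellsize_head i om B mid bot)
  have h3 := pos_bot F ha (adm_sf i om (extB B bot)) (n := (B.length : ℤ) + 1)
    (fun k _ => cellsize_tail i om B bot k)
  have h4 := pos_top F ha (adm_sf i om (extB B top)) (n := (B.length : ℤ) + 1)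
    (fun k _ => cellsize_tail i om B top k)
  have h5 : 0 ≤ prodR F a (sf i om (extB B mid)) B.length :=
    Finset.prod_nonneg fun n _ => (rs_b F ha (adm_sf i om (extB B mid)) _).1
  have h6 : 0 ≤ prodR F a (sf i om (extB B bot)) B.length :=
    Finset.prod_nonneg fun n _ => (rs_b F ha (adm_sf i om (extB B bot)) _).1
  change 99 / 100 * prodR F a (sf i om (extB B mid)) B.length ≤
      Phi F a (symOf (sf i om (extB B bot))) 0 - Phi F a (symOf (sf i om (extB B top))) 0 ∧
    Phi F a (symOf (sf i om (extB B bot))) 0 - Phi F a (symOf (sf i om (extB B top))) 0 ≤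
      101 / 100 * prodR F a (sf i om (extB B mid)) B.length
  generalize prodR F a (sf i om (extB B mid)) B.length = S at *
  generalize prodR F a (sf i om (extB B bot)) B.length = P at *
  generalize Phi F a (symOf (sf i om (extB B bot))) 0 = u at *
  generalize Phi F a (symOf (sf i om (extB B top))) 0 = v at *
  generalize xs F a (symOf (sf i om (extB B bot))) ((B.length : ℤ) + 1) = x at *
  generalize xs F a (symOf (sf i om (extB B top))) ((B.length : ℤ) + 1) = y at *
  rw [abs_le] at h1 h2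
  have e1 : 1 / 2 ^ 125 * P ≤ 1 / 1000 * P := mul_le_mul_of_nonneg_right n1 h6
  have e2 : 1 / 2 ^ 135 * S ≤ 1 / 1000 * S := mul_le_mul_of_nonneg_right n2 h5
  have e3 : P * (x - y) ≤ P * (-(999 / 1000)) :=
    mul_le_mul_of_nonneg_left (by linarith [h3.2, h4.1]) h6
  have e4 : P * (-1) ≤ P * (x - y) :=
    mul_le_mul_of_nonneg_left (by linarith [h3.1, h4.2]) h6
  constructor
  · linarith [h1.1, h2.1]
  · linarith [h1.2, h2.2]

end Pool.Agent.WildW
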