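import Pool.Agent.Lib.MP_3dbc4a_an_WP.Num

/-!
# MP_3dbc4a_an, project W, block O: continued fractions with close entries
-/

set_option autoImplicit false

open Filter Set
open scoped Topology

namespace Pool.Agent.WildW

/-- **O1** continued fractions with close entries have close products.
Proof. `e_n = |ρ'_n/ρ_n - 1| ≤ 2^-19 (|P_n - P'_n| + b |ρ_{n+1} - ρ'_{n+1}|)`,
`|ρ_{n+1} - ρ'_{n+1}| ≤ 2^-19 e_{n+1}` (`n + 1 < l`), `≤ 2^-19` (`n + 1 = l`); so `∑ e_n ≤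
2^-136.9`,
and `|∏ (1 + ε_n) - 1| ≤ exp(∑ e_n) - 1`. -/
theorem cf_comp {l : ℕ} {P P' ρ ρ' : ℕ → ℝ} (h1 : ∀ n ≤ l, 0 ≤ ρ n ∧ ρ n ≤ 1 / 2 ^ 19)
    (h1' : ∀ n ≤ l, 0 ≤ ρ' n ∧ ρ' n ≤ 1 / 2 ^ 19)
    (h2 : ∀ n < l, ρ n * (P n - b * ρ (n + 1)) = 1)
    (h2' : ∀ n < l, ρ' n * (P' n - b * ρ' (n + 1)) = 1)
    (h3 : ∑ n ∈ Finset.range l, |P n - P' n| ≤ 1 / 2 ^ 900) :
    |∏ n ∈ Finset.range l, ρ' n - ∏ n ∈ Finset.range l, ρ n| ≤
      1 / 2 ^ 135 * ∏ n ∈ Finset.range l, ρ n := by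
  have hpos : ∀ n < l, 0 < ρ n := fun n hn ↦ by
    rcases (h1 n hn.le).1.eq_or_lt with h | h
    · have := h2 n hn
      rw [← h, zero_mul] at this
      exact absurd this (by norm_num)
    · exact h
  have hpos' : ∀ n < l, 0 < ρ' n := fun n hn ↦ by
    rcases (h1' n hn.le).1.eq_or_lt with h | h
    · have := h2' n hn
      rw [← h, zero_mul] at this
      exact absurd this (by norm_num)
    · exact h
  have h4 : ∑ n ∈ Finset.range l, |P n - P' n| ≤ 1 / 2 ^ 200 :=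
    h3.trans (one_div_le_one_div_of_le (by positivity) (pow_le_pow_right₀ (by norm_num)
      (by norm_num)))
  set e : ℕ → ℝ := fun n ↦ ρ' n / ρ n - 1 with he
  have hen : ∀ n < l, e n = ρ' n * ((P n - P' n) - b * (ρ (n + 1) - ρ' (n + 1))) := by
    intro n hn
    have a1 := hpos n hn
    have a2 := h2 n hn
    have a3 := h2' n hn
    have a4 : P n = 1 / ρ n + b * ρ (n + 1) := by
      field_simp
      linarith
    simp only [he]
    rw [a4]
    field_simp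
    nlinarith [a3]
  set E := ∑ n ∈ Finset.range l, |e n| with hE
  set G := ∑ n ∈ Finset.range l, |ρ (n + 1) - ρ' (n + 1)| with hG
  have hb := b_pos
  have hE0 : 0 ≤ E := Finset.sum_nonneg fun n _ ↦ abs_nonneg _
  have hEle : E ≤ 1 / 2 ^ 19 * (1 / 2 ^ 200 + b * G) := by
    have : E ≤ ∑ n ∈ Finset.range l,
        1 / 2 ^ 19 * (|P n - P' n| + b * |ρ (n + 1) - ρ' (n + 1)|) := by
      refine Finset.sum_le_sum fun n hn ↦ ?_
      have hn' := Finset.mem_range.1 hn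
      rw [hen n hn', abs_mul, abs_of_pos (hpos' n hn')]
      refine mul_le_mul (h1' n hn'.le).2 ?_ (abs_nonneg _) (by positivity)
      refine (abs_sub _ _).trans ?_
      rw [abs_mul, abs_of_pos hb]
    refine this.trans ?_
    rw [← Finset.mul_sum, Finset.sum_add_distrib, ← Finset.mul_sum]
    gcongr
  have hGle : G ≤ 1 / 2 ^ 19 * E + 1 / 2 ^ 19 := by
    have hstep : ∀ n < l, |ρ n - ρ' n| ≤ 1 / 2 ^ 19 * |e n| := by
      intro n hn
      have a1 := hpos n hn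
      have a2 : ρ n - ρ' n = - (ρ n * e n) := by
        simp only [he]
        field_simp
        ring
      rw [a2, abs_neg, abs_mul, abs_of_pos a1]
      exact mul_le_mul_of_nonneg_right (h1 n hn.le).2 (abs_nonneg _)
    rcases Nat.eq_zero_or_pos l with h0 | h0
    · have : G = 0 := by rw [hG, h0]; simp
      rw [this]
      positivity
    · obtain ⟨k, rfl⟩ : ∃ k, l = k + 1 := ⟨l - 1, by omega⟩
      rw [hG, Finset.sum_range_succ]
      have b1 : ∑ n ∈ Finset.range k, |ρ (n + 1) - ρ' (n + 1)| ≤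
          1 / 2 ^ 19 * ∑ n ∈ Finset.range k, |e (n + 1)| := by
        rw [Finset.mul_sum]
        exact Finset.sum_le_sum fun n hn ↦ hstep (n + 1) (by
          have := Finset.mem_range.1 hn
          omega)
      have b2 : ∑ n ∈ Finset.range k, |e (n + 1)| ≤ E := by
        rw [hE, Finset.sum_range_succ']
        linarith [abs_nonneg (e 0)]
      have b3 : |ρ (k + 1) - ρ' (k + 1)| ≤ 1 / 2 ^ 19 := by
        have c1 := h1 (k + 1) le_rfl
        have c2 := h1' (k + 1) le_rfl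
        rw [abs_le]
        constructor <;> linarith
      have b4 : (1 : ℝ) / 2 ^ 19 * ∑ n ∈ Finset.range k, |e (n + 1)| ≤ 1 / 2 ^ 19 * E := by
        gcongr
      linarith
  have hE1 : E ≤ 1 / 2 ^ 137 := by
    have c0 : b * G ≤ b * (1 / 2 ^ 19 * E + 1 / 2 ^ 19) := mul_le_mul_of_nonneg_left hGle hb.le
    have c1 : E ≤ 1 / 2 ^ 19 * (1 / 2 ^ 200 + b * (1 / 2 ^ 19 * E + 1 / 2 ^ 19)) :=
      hEle.trans (mul_le_mul_of_nonneg_left (by linarith) (by positivity))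
    rw [b_eq] at c1
    have c2 : (1 : ℝ) / 2 ^ 19 * (1 / 2 ^ 200 + 1 / 2 ^ 100 * (1 / 2 ^ 19 * E + 1 / 2 ^ 19)) =
        1 / 2 ^ 219 + 1 / 2 ^ 138 + 1 / 2 ^ 138 * E := by ring
    rw [c2] at c1
    have c3 : (1 : ℝ) / 2 ^ 138 ≤ 1 / 4 := by norm_num
    have c4 : 1 / 2 ^ 138 * E ≤ 1 / 4 * E := mul_le_mul_of_nonneg_right c3 hE0
    have c5 : (1 : ℝ) / 2 ^ 219 + 1 / 2 ^ 138 ≤ 3 / 4 * (1 / 2 ^ 137) := by norm_num
    linarith
  have hprod : ∏ n ∈ Finset.range l, ρ' n =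
      (∏ n ∈ Finset.range l, ρ n) * ∏ n ∈ Finset.range l, (1 + e n) := by
    rw [← Finset.prod_mul_distrib]
    refine Finset.prod_congr rfl fun n hn ↦ ?_
    have a1 := hpos n (Finset.mem_range.1 hn)
    simp only [he]
    field_simp
    ring
  have hP0 : 0 ≤ ∏ n ∈ Finset.range l, ρ n :=
    Finset.prod_nonneg fun n hn ↦ (hpos n (Finset.mem_range.1 hn)).le
  have hlast : |∏ n ∈ Finset.range l, (1 + e n) - 1| ≤ 1 / 2 ^ 135 := by
    have d1 : ‖∏ n ∈ Finset.range l, (1 + e n) - 1‖ ≤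
        Real.exp (∑ n ∈ Finset.range l, ‖e n‖) - 1 :=
      Finset.norm_prod_one_add_sub_one_le _ _
    have d2 : |Real.exp E - 1| ≤ 2 * |E| := Real.abs_exp_sub_one_le (by
      rw [abs_of_nonneg hE0]
      refine hE1.trans (by norm_num))
    rw [abs_of_nonneg hE0] at d2
    have d3 : Real.exp E - 1 ≤ |Real.exp E - 1| := le_abs_self _
    have d4 : (2 : ℝ) * (1 / 2 ^ 137) ≤ 1 / 2 ^ 135 := by norm_num
    simp only [Real.norm_eq_abs] at d1
    refine d1.trans ?_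
    rw [← hE]
    linarith
  rw [hprod]
  have : (∏ n ∈ Finset.range l, ρ n) * ∏ n ∈ Finset.range l, (1 + e n) -
      ∏ n ∈ Finset.range l, ρ n =
      (∏ n ∈ Finset.range l, ρ n) * (∏ n ∈ Finset.range l, (1 + e n) - 1) := by ring
  rw [this, abs_mul, abs_of_nonneg hP0, mul_comm]
  exact mul_le_mul_of_nonneg_right hlast hP0

end Pool.Agent.WildW
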