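import Mathlib

/-!
# MP_3dbc4a_an, project W, block O: counting
-/

set_option autoImplicit false

open Filter Set
open scoped Topology

namespace Pool.Agent.WildW

private theorem count_card {A : Finset ℕ} {K : ℕ} (h : ∀ x ∈ A, ∀ y ∈ A, x ≤ y → y - x ≤ K) :
    A.card ≤ K + 1 := by
  rcases A.eq_empty_or_nonempty with rfl | hA
  · simp
  · have hsub : A ⊆ Finset.Icc (A.min' hA) (A.min' hA + K) := by
      intro x hx
      have h1 := A.min'_le x hx
      have h2 := h _ (A.min'_mem hA) x hx h1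
      rw [Finset.mem_Icc]
      omega
    have := Finset.card_le_card hsub
    rw [Nat.card_Icc] at this
    omega

private theorem count_mono {f : ℕ → ℝ} {M : ℕ} {c : ℝ} (h : ∀ n, n + 1 < M → f (n + 1) ≤ f n - c)
    (m : ℕ) : ∀ k, m + k < M → f (m + k) ≤ f m - c * k := by
  intro k
  induction k with
  | zero => intro _; simp
  | succ k ih =>
    intro hk
    have h1 := ih (by omega)
    have h2 := h (m + k) (by omega)
    rw [← add_assoc]
    push_cast
    linarith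

private theorem count_mono' {f : ℕ → ℝ} {M : ℕ} {c : ℝ}
    (h : ∀ n, n + 1 < M → f (n + 1) ≤ f n - c) {m n : ℕ} (hmn : m ≤ n) (hn : n < M) :
    f n ≤ f m - c * ((n - m : ℕ) : ℝ) := by
  obtain ⟨k, rfl⟩ := Nat.exists_eq_add_of_le hmn
  have := count_mono h m k hn
  rwa [Nat.add_sub_cancel_left]

private theorem count_fl {k : ℕ} {c v : ℝ} (hc : 0 < c) (h : c * (k : ℝ) ≤ v) :
    k ≤ ⌊v / c⌋₊ := by
  refine Nat.le_floor ?_
  rw [le_div_iff₀ hc]
  linarith

/-- **O16** counting. Proof. For a `j` such that `|F e j| ≤ g` for some `e` we have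
`-g ≤ F 0 j ≤ V + g`; these `j` are at most `⌊(V + 2g)/D⌋ + 1`, and for each of them at most
`⌊2g/d⌋ + 1` of the `e` satisfy `|F e j| ≤ g`. -/
theorem count {N J : ℕ} (G : ℕ → ℕ → ℝ) {d D g V : ℝ} (hd : 0 < d) (hD : 0 < D) (hg : 0 ≤ g)
    (hV : 0 ≤ V) (h1 : ∀ e j, e + 1 < N → j < J → G (e + 1) j ≤ G e j - d)
    (h2 : ∀ e j, e < N → j + 1 < J → G e (j + 1) ≤ G e j - D)
    (h3 : ∀ j, j < J → G 0 j - G (N - 1) j ≤ V) :
    ((Finset.range N).filter (fun e => ∃ j < J, |G e j| ≤ g)).card ≤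
      (⌊(V + 2 * g) / D⌋₊ + 1) * (⌊2 * g / d⌋₊ + 1) := by
  classical
  set S := (Finset.range J).filter (fun j ↦ ∃ e < N, |G e j| ≤ g) with hS
  set T : ℕ → Finset ℕ := fun j ↦ (Finset.range N).filter (fun e ↦ |G e j| ≤ g) with hT
  have hsub : (Finset.range N).filter (fun e ↦ ∃ j < J, |G e j| ≤ g) ⊆ S.biUnion T := by
    intro e he
    obtain ⟨he1, j, hj, hje⟩ := Finset.mem_filter.1 he
    exact Finset.mem_biUnion.2 ⟨j, Finset.mem_filter.2 ⟨Finset.mem_range.2 hj, e,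
      Finset.mem_range.1 he1, hje⟩, Finset.mem_filter.2 ⟨he1, hje⟩⟩
  have hSc : S.card ≤ ⌊(V + 2 * g) / D⌋₊ + 1 := by
    have hb : ∀ j ∈ S, -g ≤ G 0 j ∧ G 0 j ≤ V + g := by
      intro j hj
      obtain ⟨hj1, e, he, hje⟩ := Finset.mem_filter.1 hj
      have hj2 := Finset.mem_range.1 hj1
      have a1 := abs_le.1 hje
      have a2 := count_mono' (f := fun e ↦ G e j) (fun n hn ↦ h1 n j hn hj2) (Nat.zero_le e) he
      have a3 := count_mono' (f := fun e ↦ G e j) (fun n hn ↦ h1 n j hn hj2)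
        (show e ≤ N - 1 by omega) (by omega)
      have a4 := h3 j hj2
      have a5 : 0 ≤ d * ((e - 0 : ℕ) : ℝ) := by positivity
      have a6 : 0 ≤ d * ((N - 1 - e : ℕ) : ℝ) := by positivity
      constructor <;> linarith
    refine count_card fun x hx y hy hxy ↦ count_fl hD ?_
    obtain ⟨hy1, e, he, -⟩ := Finset.mem_filter.1 hy
    have hN : 0 < N := by omega
    have a1 := count_mono' (f := fun j ↦ G 0 j) (fun n hn ↦ h2 0 n hN hn) hxy
      (Finset.mem_range.1 hy1)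
    have a2 := (hb x hx).2
    have a3 := (hb y hy).1
    linarith
  have hTc : ∀ j ∈ S, (T j).card ≤ ⌊2 * g / d⌋₊ + 1 := by
    intro j hj
    have hj2 := Finset.mem_range.1 (Finset.mem_filter.1 hj).1
    refine count_card fun x hx y hy hxy ↦ count_fl hd ?_
    obtain ⟨hx1, hx2⟩ := Finset.mem_filter.1 hx
    obtain ⟨hy1, hy2⟩ := Finset.mem_filter.1 hy
    have a1 := count_mono' (f := fun e ↦ G e j) (fun n hn ↦ h1 n j hn hj2) hxy
      (Finset.mem_range.1 hy1)
    have a2 := (abs_le.1 hx2).2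
    have a3 := (abs_le.1 hy2).1
    linarith
  calc ((Finset.range N).filter (fun e ↦ ∃ j < J, |G e j| ≤ g)).card
      ≤ (S.biUnion T).card := Finset.card_le_card hsub
    _ ≤ S.card * (⌊2 * g / d⌋₊ + 1) := Finset.card_biUnion_le_card_mul _ _ _ hTc
    _ ≤ (⌊(V + 2 * g) / D⌋₊ + 1) * (⌊2 * g / d⌋₊ + 1) := Nat.mul_le_mul_right _ hSc

end Pool.Agent.WildW
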