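import Pool.Agent.Lib.MP_3dbc4a_an_WO.CfComp
import Pool.Agent.Lib.MP_3dbc4a_an_WO.OBas

/-!
# MP_3dbc4a_an, project W, block O: forward identity
-/

set_option autoImplicit false

open Filter Set
open scoped Topology

namespace Pool.Agent.WildW

open OB

theorem fut_eps : eps * 10 ≤ 1 / 2 ^ 900 := by
  unfold eps
  have h3 : (2 : ℝ) ^ 1000 = 2 ^ 900 * 2 ^ 100 := by rw [← pow_add]
  have h4 : (10 : ℝ) ≤ 2 ^ 100 := by norm_num
  have h5 : (0 : ℝ) < 2 ^ 900 := by positivity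
  rw [h3, one_div_mul_eq_div, div_le_div_iff₀ (by positivity) (by positivity), one_mul, mul_comm]
  exact mul_le_mul_of_nonneg_left h4 h5.le

theorem fut_eps_half : eps ≤ 1 / 2 := by
  have e1 := eps_le_b
  have e2 : b / 2 ^ 800 ≤ b := div_le_self b_pos.le (one_le_pow₀ (by norm_num))
  have e3 : b ≤ 1 / 2 := by
    unfold b
    norm_num
  linarith

/-- The recursion behind O2 and O3. -/
theorem fut_abs {l : ℕ} {D q P r : ℕ → ℝ} (hq : ∀ n < l, q n * D (n + 1) = D (n + 2) + b * D n)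
    (hlo : ∀ n < l, 2 ^ 19 + 1 ≤ q n) (hhi : ∀ n < l, q n ≤ 2 ^ 21)
    (h1 : ∀ n ≤ l, 0 ≤ r n ∧ r n ≤ 1 / 2 ^ 19)
    (h2 : ∀ n < l, r n * (P n - b * r (n + 1)) = 1)
    (h3 : ∑ n ∈ Finset.range l, |P n - q n| ≤ 1 / 2 ^ 900) :
    ∃ ρ : ℕ → ℝ, (∀ n < l, 1 / 2 ^ 21 ≤ ρ n ∧ ρ n ≤ 1 / 2 ^ 19) ∧
      (∀ n : ℕ, n < l → D (n + 1) = b * ρ n * D n + (∏ k ∈ Finset.Ico n l, ρ k) * D (l + 1)) ∧
      |∏ k ∈ Finset.range l, ρ k - ∏ k ∈ Finset.range l, r k| ≤
        1 / 2 ^ 135 * ∏ k ∈ Finset.range l, r k := by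
  have hb := b_pos
  have hb1 := b_lt_one
  let R : ℕ → ℝ := fun k ↦ Nat.rec 0 (fun k x ↦ 1 / (q (l - 1 - k) - b * x)) k
  have hR0 : R 0 = 0 := rfl
  have hRs : ∀ k, R (k + 1) = 1 / (q (l - 1 - k) - b * R k) := fun k ↦ rfl
  have key : ∀ x : ℝ, 0 ≤ x → x ≤ 1 / 2 ^ 19 → 0 ≤ b * x ∧ b * x ≤ 1 := by
    intro x hx0 hx1
    refine ⟨mul_nonneg hb.le hx0, ?_⟩
    have : x ≤ 1 := hx1.trans (by norm_num)
    nlinarith
  have hRb : ∀ k ≤ l, 0 ≤ R k ∧ R k ≤ 1 / 2 ^ 19 := by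
    intro k
    induction k with
    | zero => intro _; rw [hR0]; constructor <;> norm_num
    | succ k ih =>
      intro hk
      obtain ⟨i1, i2⟩ := ih (by omega)
      obtain ⟨j1, j2⟩ := key _ i1 i2
      have g1 := hlo (l - 1 - k) (by omega)
      rw [hRs]
      have g2 : (2 : ℝ) ^ 19 ≤ q (l - 1 - k) - b * R k := by linarith
      exact ⟨by positivity, one_div_le_one_div_of_le (by positivity) g2⟩
  let ρ : ℕ → ℝ := fun n ↦ R (l - n)
  have hρl : ρ l = 0 := by simp [ρ, hR0]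
  have hρb : ∀ n ≤ l, 0 ≤ ρ n ∧ ρ n ≤ 1 / 2 ^ 19 := fun n _ ↦ hRb (l - n) (by omega)
  have hρr : ∀ n < l, ρ n = 1 / (q n - b * ρ (n + 1)) := by
    intro n hn
    have e1 : l - n = (l - (n + 1)) + 1 := by omega
    have e2 : l - 1 - (l - (n + 1)) = n := by omega
    simp only [ρ]
    rw [e1, hRs, e2]
  have hρp : ∀ n < l, 2 ^ 19 ≤ q n - b * ρ (n + 1) := by
    intro n hn
    obtain ⟨j1, j2⟩ := key _ (hρb (n + 1) hn).1 (hρb (n + 1) hn).2
    have := hlo n hn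
    linarith
  have hρm : ∀ n < l, ρ n * (q n - b * ρ (n + 1)) = 1 := by
    intro n hn
    rw [hρr n hn]
    have : (0 : ℝ) < q n - b * ρ (n + 1) := lt_of_lt_of_le (by positivity) (hρp n hn)
    field_simp
  refine ⟨ρ, fun n hn ↦ ⟨?_, (hρb n hn.le).2⟩, ?_, ?_⟩
  · rw [hρr n hn]
    obtain ⟨j1, j2⟩ := key _ (hρb (n + 1) hn).1 (hρb (n + 1) hn).2
    have g1 := hhi n hn
    have g2 : (0 : ℝ) < q n - b * ρ (n + 1) := lt_of_lt_of_le (by positivity) (hρp n hn)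
    exact one_div_le_one_div_of_le g2 (by linarith)
  · have hind : ∀ m ≤ l, D (l - m + 1) = b * ρ (l - m) * D (l - m) +
        (∏ k ∈ Finset.Ico (l - m) l, ρ k) * D (l + 1) := by
      intro m
      induction m with
      | zero =>
        intro _
        simp [hρl]
      | succ m ih =>
        intro hm
        have i1 := ih (by omega)
        set n := l - (m + 1) with hn
        have e1 : l - m = n + 1 := by omega
        have hnl : n < l := by omega
        rw [e1] at i1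
        have i2 := hq n hnl
        have i3 := hρm n hnl
        rw [show n + 2 = n + 1 + 1 from rfl, i1] at i2
        rw [Finset.prod_eq_prod_Ico_succ_bot hnl]
        have i4 : (q n - b * ρ (n + 1)) * D (n + 1) =
            b * D n + (∏ k ∈ Finset.Ico (n + 1) l, ρ k) * D (l + 1) := by linarith
        calc D (n + 1) = ρ n * (q n - b * ρ (n + 1)) * D (n + 1) := by rw [i3, one_mul]
          _ = ρ n * ((q n - b * ρ (n + 1)) * D (n + 1)) := by ring
          _ = b * ρ n * D n + ρ n * (∏ k ∈ Finset.Ico (n + 1) l, ρ k) * D (l + 1) := by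
            rw [i4]
            ring
    intro n hn
    have := hind (l - n) (by omega)
    rwa [show l - (l - n) = n by omega] at this
  · exact cf_comp h1 hρb h2 hρm h3

/-- **O2** forward identity. `Δ = x - x'`. Divided differences `P~_n = (P(x_n) - P(x'_n))/Δ_n`
(`= P1(x_n)` if `Δ_n = 0`), `|P~_n - P1(x_n)| ≤ eps |Δ_n|`; `P~_n Δ_n = Δ_{n+1} + b Δ_{n-1}`;
`ρ_l := 0`, `ρ_{n} (P~_{n+1} - b ρ_{n+1}) = 1` downwards (`ρ n` belongs to the index `n + 1`);
downward induction gives the identity. The products are compared by `cf_comp`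
(`∑ |Δ_n| ≤ 10` by `dep`: the words agree on `[0, l]`). -/
theorem fut (F : Fam) {a : Fin 8 → ℝ} (ha : Cube a) {s s' : ℤ → Lt} (hs : Adm (symOf s))
    (hs' : Adm (symOf s')) {l : ℕ} (h0 : s 0 = s' 0)
    (hp : ∀ n : ℕ, n < l → ∃ j, s (n + 1) = .p (.f j) ∧ s' (n + 1) = .p (.f j)) :
    ∃ ρ : ℕ → ℝ, (∀ n < l, 1 / 2 ^ 21 ≤ ρ n ∧ ρ n ≤ 1 / 2 ^ 19) ∧
      (∀ n : ℕ, n < l → xs F a (symOf s) (n + 1) - xs F a (symOf s') (n + 1) =
        b * ρ n * (xs F a (symOf s) n - xs F a (symOf s') n) +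
        (∏ k ∈ Finset.Ico n l, ρ k) *
          (xs F a (symOf s) (l + 1) - xs F a (symOf s') (l + 1))) ∧
      |∏ k ∈ Finset.range l, ρ k - prodR F a s l| ≤ 1 / 2 ^ 135 * prodR F a s l := by
  have hd : ∀ n : ℕ, n < l → ∃ q : ℝ,
      q * (xs F a (symOf s) ((n : ℤ) + 1) - xs F a (symOf s') ((n : ℤ) + 1)) =
        (xs F a (symOf s) ((n : ℤ) + 1 + 1) - xs F a (symOf s') ((n : ℤ) + 1 + 1)) +
        b * (xs F a (symOf s) ((n : ℤ) + 1 - 1) - xs F a (symOf s') ((n : ℤ) + 1 - 1)) ∧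
      |q - F.P1 a (xs F a (symOf s) ((n : ℤ) + 1))| ≤
        eps * |xs F a (symOf s) ((n : ℤ) + 1) - xs F a (symOf s') ((n : ℤ) + 1)| ∧
      |q - sg| ≤ eps := by
    intro n hn
    obtain ⟨j, hj, hj'⟩ := hp n hn
    exact diff_pl F ha hs hs' hj hj'
  choose! q hq using hd
  have he1 := fut_eps_half
  set D : ℕ → ℝ := fun n ↦ xs F a (symOf s) n - xs F a (symOf s') n with hD
  have hsum := sum_right F ha hs hs' h0 (fun n hn ↦ by
    obtain ⟨j, hj, hj'⟩ := hp n hn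
    rw [hj, hj'])
  obtain ⟨ρ, r1, r2, r3⟩ := fut_abs (l := l) (D := D) (q := q)
    (P := fun n ↦ F.P1 a (xs F a (symOf s) ((n : ℤ) + 1)))
    (r := fun n ↦ rs F a (symOf s) ((n : ℤ) + 1)) (fun n hn ↦ by
      have := (hq n hn).1
      simp only [hD]
      push_cast
      rw [this]
      congr 2 <;> ring_nf) (fun n hn ↦ by
      have h1 := (abs_le.1 (hq n hn).2.2).1
      have h2 := sg_lo
      have h3 : (2 : ℝ) ^ 19 + 1 ≤ 2 ^ 20 - 1 / 2 := by norm_num
      linarith) (fun n hn ↦ by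
      have h1 := (abs_le.1 (hq n hn).2.2).2
      have h2 := sg_hi
      have h3 : (2 : ℝ) ^ 20 + 1 / 2 ^ 76 + 1 / 2 ≤ 2 ^ 21 := by norm_num
      linarith) (fun n _ ↦ rs_b F ha hs _) (fun n hn ↦ by
      obtain ⟨j, hj, hj'⟩ := hp n hn
      have := rs_rec F ha hs hj
      simpa using this) (by
      calc ∑ n ∈ Finset.range l, |F.P1 a (xs F a (symOf s) ((n : ℤ) + 1)) - q n|
          ≤ ∑ n ∈ Finset.range l,
            eps * |xs F a (symOf s) ((n : ℤ) + 1) - xs F a (symOf s') ((n : ℤ) + 1)| := by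
            refine Finset.sum_le_sum fun n hn ↦ ?_
            rw [abs_sub_comm]
            exact (hq n (Finset.mem_range.1 hn)).2.1
        _ ≤ eps * 10 := by
            rw [← Finset.mul_sum]
            exact mul_le_mul_of_nonneg_left hsum eps_pos.le
        _ ≤ 1 / 2 ^ 900 := fut_eps)
  refine ⟨ρ, r1, fun n hn ↦ ?_, r3⟩
  have := r2 n hn
  simp only [hD] at this
  push_cast at this
  exact this

end Pool.Agent.WildW
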