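import Pool.Agent.Lib.MP_3dbc4a_an_WO.Fut

/-!
# MP_3dbc4a_an, project W, block O: backward identity
-/

set_option autoImplicit false

open Filter Set
open scoped Topology

namespace Pool.Agent.WildW

open OB

/-- **O3** backward identity (`τ n` belongs to the index `-n-1`). -/
theorem pst (F : Fam) {a : Fin 8 → ℝ} (ha : Cube a) {s s' : ℤ → Lt} (hs : Adm (symOf s))
    (hs' : Adm (symOf s')) {N : ℕ} (h0 : s 0 = s' 0)
    (hm : ∀ n : ℕ, n < N → ∃ c, s (-(n : ℤ) - 1) = .p (.e c) ∧ s' (-(n : ℤ) - 1) = .p (.e c)) :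
    ∃ τ : ℕ → ℝ, (∀ n < N, 1 / 2 ^ 21 ≤ τ n ∧ τ n ≤ 1 / 2 ^ 19) ∧
      (∀ n : ℕ, n < N → xs F a (symOf s) (-(n : ℤ) - 1) - xs F a (symOf s') (-(n : ℤ) - 1) =
        τ n * (xs F a (symOf s) (-(n : ℤ)) - xs F a (symOf s') (-(n : ℤ))) +
        (∏ k ∈ Finset.Ico n N, (b * τ k)) *
          (xs F a (symOf s) (-(N : ℤ) - 1) - xs F a (symOf s') (-(N : ℤ) - 1))) ∧
      |b * ∏ k ∈ Finset.range N, (b * τ k) - prodT F a s N| ≤ 1 / 2 ^ 135 * prodT F a s N := by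
  have hb := b_pos
  have hd : ∀ n : ℕ, n < N → ∃ q : ℝ,
      q * (xs F a (symOf s) (-(n : ℤ) - 1) - xs F a (symOf s') (-(n : ℤ) - 1)) =
        (xs F a (symOf s) (-(n : ℤ) - 1 + 1) - xs F a (symOf s') (-(n : ℤ) - 1 + 1)) +
        b * (xs F a (symOf s) (-(n : ℤ) - 1 - 1) - xs F a (symOf s') (-(n : ℤ) - 1 - 1)) ∧
      |q - F.P1 a (xs F a (symOf s) (-(n : ℤ) - 1))| ≤
        eps * |xs F a (symOf s) (-(n : ℤ) - 1) - xs F a (symOf s') (-(n : ℤ) - 1)| ∧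
      (2 ^ 19 + 1 ≤ q ∧ q ≤ 2 ^ 21) := by
    intro n hn
    obtain ⟨c, hc, hc'⟩ := hm n hn
    obtain ⟨q, q1, q2, q3⟩ := diff_pl F ha hs hs' hc hc'
    have he1 := fut_eps_half
    have q4 := abs_le.1 q3
    have hsl : 3 * 2 ^ 18 ≤ (Pl.e c).sl ∧ (Pl.e c).sl ≤ 3 * 2 ^ 19 := by
      show (3 : ℝ) * 2 ^ 18 ≤ (if c.1 then 3 * 2 ^ 19 else 3 * 2 ^ 18) ∧
        (if c.1 then 3 * 2 ^ 19 else 3 * 2 ^ 18) ≤ (3 : ℝ) * 2 ^ 19
      split_ifs <;> norm_num
    refine ⟨q, q1, q2, ?_, ?_⟩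
    · have h3 : (2 : ℝ) ^ 19 + 1 ≤ 3 * 2 ^ 18 - 1 / 2 := by norm_num
      linarith [hsl.1, q4.1]
    · have h3 : (3 : ℝ) * 2 ^ 19 + 1 / 2 ≤ 2 ^ 21 := by norm_num
      linarith [hsl.2, q4.2]
  choose! q hq using hd
  set D : ℕ → ℝ := fun n ↦ b ^ n *
    (xs F a (symOf s) (-(n : ℤ)) - xs F a (symOf s') (-(n : ℤ))) with hD
  have hsum := sum_left F ha hs hs' h0 (fun n hn ↦ by
    obtain ⟨c, hc, hc'⟩ := hm n hn
    rw [hc, hc'])
  obtain ⟨ρ, r1, r2, r3⟩ := fut_abs (l := N) (D := D) (q := q)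
    (P := fun n ↦ F.P1 a (xs F a (symOf s) (-(n : ℤ) - 1)))
    (r := fun n ↦ ts F a (symOf s) (-(n : ℤ) - 1)) (fun n hn ↦ by
      have h1 := (hq n hn).1
      simp only [hD]
      have e1 : (-((n + 1 : ℕ) : ℤ)) = -(n : ℤ) - 1 := by push_cast; ring
      have e2 : (-((n + 2 : ℕ) : ℤ)) = -(n : ℤ) - 1 - 1 := by push_cast; ring
      have e3 : -(n : ℤ) - 1 + 1 = -(n : ℤ) := by ring
      rw [e3] at h1
      rw [e1, e2]
      calc q n * (b ^ (n + 1) * (xs F a (symOf s) (-(n : ℤ) - 1) -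
            xs F a (symOf s') (-(n : ℤ) - 1)))
          = b ^ (n + 1) * (q n * (xs F a (symOf s) (-(n : ℤ) - 1) -
            xs F a (symOf s') (-(n : ℤ) - 1))) := by ring
        _ = _ := by
          rw [h1]
          ring)
    (fun n hn ↦ (hq n hn).2.2.1) (fun n hn ↦ (hq n hn).2.2.2) (fun n _ ↦ ts_b F ha hs _)
    (fun n hn ↦ by
      obtain ⟨c, hc, hc'⟩ := hm n hn
      have := ts_rec F ha hs hc
      have e1 : (-((n + 1 : ℕ) : ℤ) - 1) = -(n : ℤ) - 1 - 1 := by push_cast; ring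
      rw [e1]
      exact this) (by
      calc ∑ n ∈ Finset.range N, |F.P1 a (xs F a (symOf s) (-(n : ℤ) - 1)) - q n|
          ≤ ∑ n ∈ Finset.range N,
            eps * |xs F a (symOf s) (-(n : ℤ) - 1) - xs F a (symOf s') (-(n : ℤ) - 1)| := by
            refine Finset.sum_le_sum fun n hn ↦ ?_
            rw [abs_sub_comm]
            exact (hq n (Finset.mem_range.1 hn)).2.1
        _ ≤ eps * 10 := by
            rw [← Finset.mul_sum]
            exact mul_le_mul_of_nonneg_left hsum eps_pos.le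
        _ ≤ 1 / 2 ^ 900 := fut_eps)
  refine ⟨ρ, r1, fun n hn ↦ ?_, ?_⟩
  · have h1 := r2 n hn
    simp only [hD] at h1
    have e1 : (-((n + 1 : ℕ) : ℤ)) = -(n : ℤ) - 1 := by push_cast; ring
    have e2 : (-((N + 1 : ℕ) : ℤ)) = -(N : ℤ) - 1 := by push_cast; ring
    rw [e1, e2] at h1
    rw [Finset.prod_mul_distrib, Finset.prod_const, Nat.card_Ico]
    have e3 : b ^ (N + 1) = b ^ (n + 1) * b ^ (N - n) := by
      rw [← pow_add]
      congr 1
      omega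
    rw [e3] at h1
    have e4 : b ^ (n + 1) ≠ 0 := (pow_pos hb _).ne'
    refine mul_left_cancel₀ e4 ?_
    rw [h1]
    ring
  · have e1 : b * ∏ k ∈ Finset.range N, (b * ρ k) - prodT F a s N =
        b ^ (N + 1) * (∏ k ∈ Finset.range N, ρ k -
          ∏ k ∈ Finset.range N, ts F a (symOf s) (-(k : ℤ) - 1)) := by
      unfold prodT
      rw [Finset.prod_mul_distrib, Finset.prod_mul_distrib, Finset.prod_const, Finset.card_range]
      ring
    have e2 : prodT F a s N = b ^ (N + 1) *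
        ∏ k ∈ Finset.range N, ts F a (symOf s) (-(k : ℤ) - 1) := by
      unfold prodT
      rw [Finset.prod_mul_distrib, Finset.prod_const, Finset.card_range]
      ring
    rw [e1, abs_mul, abs_of_pos (pow_pos hb _), e2]
    calc b ^ (N + 1) * |∏ k ∈ Finset.range N, ρ k -
          ∏ k ∈ Finset.range N, ts F a (symOf s) (-(k : ℤ) - 1)|
        ≤ b ^ (N + 1) * (1 / 2 ^ 135 * ∏ k ∈ Finset.range N, ts F a (symOf s) (-(k : ℤ) - 1)) :=
          mul_le_mul_of_nonneg_left r3 (pow_pos hb _).le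
      _ = _ := by ring

end Pool.Agent.WildW
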