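import Pool.Agent.Lib.MP_3dbc4a_an_WO.AdmSf
import Pool.Agent.Lib.MP_3dbc4a_an_WO.Pos
import Pool.Agent.Lib.MP_3dbc4a_an_WO.ProdD
import Pool.Agent.Lib.MP_3dbc4a_an_WO.Sharp

/-!
# MP_3dbc4a_an, project W, block O: nodes from small residuals
-/

set_option autoImplicit false

open Filter Set
open scoped Topology

namespace Pool.Agent.WildW

open OB

private theorem renode_const (i : Fin 8) (om : ℕ → KA) (B : List KB) (v : KB) (k : ℕ) :
    symOf (sf i om (extB B v)) ((B.length : ℤ) + 1 + k) = .p (.f v) := by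
  have h1 : ((B.length : ℤ) + 1 + k) = ((B.length + k : ℕ) : ℤ) + 1 := by push_cast; ring
  rw [h1]
  simp only [symOf, sf_pos, Lt.sym]
  rw [extB_ge (by omega)]

private theorem renode_num {S W R T Φ Φ' D E : ℝ} (hS : 0 ≤ S) (_hW : 0 ≤ W) (hR0 : 0 ≤ R)
    (hT0 : 0 ≤ T) (hWS : 140 * W ≤ b * S) (hR : |S - R| ≤ 1 / 2 ^ 135 * R)
    (hT : |W - T| ≤ 1 / 2 ^ 135 * T) (hΦ : |Φ| ≤ 1 / 10 * S) (hD : 49 / 100 ≤ D)
    (hE : |E| ≤ 4)
    (hs : |Φ - Φ' + R * D + T * E| ≤ 1 / 2 ^ 125 * (R + T)) : W ≤ Φ' := by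
  have h1 := abs_le.1 hs
  have h2 := abs_le.1 hR
  have h3 := abs_le.1 hT
  have h4 := abs_le.1 hΦ
  have h5 := abs_le.1 hE
  have h6 : R * (49 / 100) ≤ R * D := mul_le_mul_of_nonneg_left hD hR0
  have h7 : T * (-4) ≤ T * E := mul_le_mul_of_nonneg_left h5.1 hT0
  have h8 : (1 : ℝ) / 2 ^ 125 ≤ 1 / 1000 := by norm_num
  have h9 : (1 : ℝ) / 2 ^ 135 ≤ 1 / 1000 := by norm_num
  have h10 : b * S ≤ 1 / 1000 * S := by
    refine mul_le_mul_of_nonneg_right ?_ hS
    unfold b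
    norm_num
  have h11 : (1 : ℝ) / 2 ^ 125 * (R + T) ≤ 1 / 1000 * (R + T) :=
    mul_le_mul_of_nonneg_right h8 (by linarith)
  have h12 : (1 : ℝ) / 2 ^ 135 * R ≤ 1 / 1000 * R := mul_le_mul_of_nonneg_right h9 hR0
  have h13 : (1 : ℝ) / 2 ^ 135 * T ≤ 1 / 1000 * T := mul_le_mul_of_nonneg_right h9 hT0
  linarith [h1.1, h1.2, h2.1, h2.2, h3.1, h3.2, h4.1, h4.2]

/-- **O20** an arbitrary admissible word with past `E`, future `B mid` and small residual gives a
node. Proof. Sharp with the words `s` and `sf i (extE E) (extB B bot)` resp. `top`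
(`l = |B|`, `N = |E|`): `|x_{l+1} - x'_{l+1}| ≥ 0.49` with the right sign, `4 Wv ≤ 2^-50 Sv`. -/
theorem renode (F : Fam) {a : Fin 8 → ℝ} (ha : Cube a) {i : Fin 8} {E : List KA} {B : List KB}
    {s : ℤ → Lt} (hs : Adm (symOf s)) (h0 : s 0 = .d i)
    (hm : ∀ n : ℕ, n < E.length → s (-(n : ℤ) - 1) = .p (.e (extE E n)))
    (hp : ∀ n : ℕ, n ≤ B.length → s (n + 1) = .p (.f (extB B mid n)))
    (hlen : B.length = 6 * E.length) (hPhi : |Phi F a (symOf s) 0| ≤ 1 / 10 * Sv F a i E B)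
    (hlo : 140 * Wv F a i E B ≤ b * Sv F a i E B) (hhi : b * Sv F a i E B ≤ 320 * Wv F a i E B) :
    Node F a i E B 140 320 := by
  -- agreement of `s` with the words `sf i (extE E) (extB B v)`
  have hfut : ∀ (v : KB) (n : ℕ), n < B.length →
      ∃ j, s (n + 1) = .p (.f j) ∧ sf i (extE E) (extB B v) (n + 1) = .p (.f j) := by
    intro v n hn
    refine ⟨extB B mid n, hp n hn.le, ?_⟩
    rw [sf_pos, extB_lt hn, extB_lt hn]
  have hpast : ∀ (v : KB) (n : ℕ), n < E.length →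
      ∃ c, s (-(n : ℤ) - 1) = .p (.e c) ∧
        sf i (extE E) (extB B v) (-(n : ℤ) - 1) = .p (.e c) := by
    intro v n hn
    exact ⟨extE E n, hm n hn, sf_neg _ _ _ _⟩
  have h0v : ∀ v : KB, s 0 = sf i (extE E) (extB B v) 0 := by
    intro v
    rw [h0, sf_zero]
  have hR0 : 0 ≤ prodR F a s B.length :=
    le_trans (by positivity) (prodR_b F ha hs (fun n hn => by
      obtain ⟨j, hj, -⟩ := hfut mid n hn
      exact ⟨j, hj⟩)).1
  have hT0 : 0 ≤ prodT F a s E.length :=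
    le_trans (mul_nonneg b_pos.le (by positivity)) (prodT_b F ha hs (fun n hn => by
      obtain ⟨j, hj, -⟩ := hpast mid n hn
      exact ⟨j, hj⟩)).1
  have hSv0 : 0 ≤ Sv F a i E B :=
    le_trans (by positivity) (prodR_b F ha (adm_sf i (extE E) (extB B mid)) (fun n _ =>
      ⟨_, sf_pos _ _ _ n⟩)).1
  have hWv0 : 0 ≤ Wv F a i E B :=
    le_trans (mul_nonneg b_pos.le (by positivity)) (prodT_b F ha
      (adm_sf i (extE E) (extB B mid)) (fun n _ => ⟨_, sf_neg _ _ _ n⟩)).1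
  have hR : |Sv F a i E B - prodR F a s B.length| ≤ 1 / 2 ^ 135 * prodR F a s B.length :=
    prodR_dist F ha hs (adm_sf _ _ _) (h0v mid) (hfut mid)
  have hT : |Wv F a i E B - prodT F a s E.length| ≤ 1 / 2 ^ 135 * prodT F a s E.length :=
    prodT_dist F ha hs (adm_sf _ _ _) (h0v mid) (hpast mid)
  have hmid : symOf s ((B.length : ℤ) + 1) = .p (.f mid) := by
    have := hp B.length le_rfl
    rw [extB_ge le_rfl] at this
    simp only [symOf, this, Lt.sym]
  have hxm := pos_mid F ha hs hmid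
  have hh := h_hi
  have hh1 : (1 : ℝ) / 2 ^ 120 ≤ 1 / 10000 := by norm_num
  have hh2 : (1 : ℝ) / 2 ^ 19 ≤ 1 / 10000 := by norm_num
  refine ⟨hlen, ?_, ?_, hlo, hhi⟩
  · have hsh := sharp F ha hs (adm_sf i (extE E) (extB B bot)) (l := B.length) (N := E.length)
      h0 (sf_zero _ _ _) (hfut bot) (hpast bot)
    have hb := pos_bot F ha (adm_sf i (extE E) (extB B bot)) (n := (B.length : ℤ) + 1)
      (fun k _ => renode_const i (extE E) B bot k)
    refine renode_num hSv0 hWv0 hR0 hT0 hlo hR hT hPhi ?_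
      (xs_dist F ha ha hs (adm_sf i (extE E) (extB B bot)) _ _) hsh
    linarith [hxm.1, hb.2]
  · have hsh := sharp F ha hs (adm_sf i (extE E) (extB B top)) (l := B.length) (N := E.length)
      h0 (sf_zero _ _ _) (hfut top) (hpast top)
    have hb := pos_top F ha (adm_sf i (extE E) (extB B top)) (n := (B.length : ℤ) + 1)
      (fun k _ => renode_const i (extE E) B top k)
    rw [← abs_neg] at hPhi hsh
    have hd := xs_dist F ha ha hs (adm_sf i (extE E) (extB B top)) (-(E.length : ℤ) - 1)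
      (-(E.length : ℤ) - 1)
    rw [← abs_neg] at hd
    have key : Wv F a i E B ≤ -Phi F a (symOf (sf i (extE E) (extB B top))) 0 := by
      refine renode_num hSv0 hWv0 hR0 hT0 hlo hR hT hPhi (D := -(xs F a (symOf s)
        ((B.length : ℤ) + 1) - xs F a (symOf (sf i (extE E) (extB B top)))
        ((B.length : ℤ) + 1))) ?_ hd ?_
      · linarith [hxm.2, hb.1]
      · refine le_trans (le_of_eq ?_) hsh
        congr 1
        ring
    show Phi F a (symOf (sf i (extE E) (extB B top))) 0 ≤ -Wv F a i E B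
    linarith

end Pool.Agent.WildW
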