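import Pool.Agent.Lib.MP_3dbc4a_an_WO.Pst

/-!
# MP_3dbc4a_an, project W, block O: displacement of the tangency point
-/

set_option autoImplicit false

open Filter Set
open scoped Topology

namespace Pool.Agent.WildW

open OB

private theorem tang_abs {r r' : ℝ} (h : 0 ≤ r ∧ r ≤ 1 / 2 ^ 19) (h' : 0 ≤ r' ∧ r' ≤ 1 / 2 ^ 19) :
    |r - r'| ≤ 1 / 2 ^ 19 := by
  rw [abs_le]
  constructor <;> linarith [h.1, h.2, h'.1, h'.2]

private theorem tang_rec {r r' p p' q q' d : ℝ} (h1 : r * (p - b * q) = 1)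
    (h2 : r' * (p' - b * q') = 1) (h : 0 ≤ r ∧ r ≤ 1 / 2 ^ 19) (h' : 0 ≤ r' ∧ r' ≤ 1 / 2 ^ 19)
    (hd : |p - p'| ≤ 2 * eps * d) :
    |r - r'| ≤ 1 / 2 ^ 38 * (2 * eps * d + b * |q - q'|) := by
  have h3 : r - r' = r * r' * ((p' - p) + b * (q - q')) := by
    have h4 : r * r' * ((p' - p) + b * (q - q')) =
        r * (r' * (p' - b * q')) - r' * (r * (p - b * q)) := by ring
    rw [h4, h1, h2]
    ring
  rw [h3, abs_mul, abs_of_nonneg (mul_nonneg h.1 h'.1)]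
  have h5 : r * r' ≤ 1 / 2 ^ 38 := by
    calc r * r' ≤ 1 / 2 ^ 19 * (1 / 2 ^ 19) := mul_le_mul h.2 h'.2 h'.1 (by positivity)
      _ = 1 / 2 ^ 38 := by norm_num
  have h6 : |(p' - p) + b * (q - q')| ≤ 2 * eps * d + b * |q - q'| := by
    refine (abs_add_le _ _).trans ?_
    rw [abs_mul, abs_of_pos b_pos, abs_sub_comm p' p]
    linarith
  exact mul_le_mul h5 h6 (abs_nonneg _) (by positivity)

private theorem tang_P1 (F : Fam) {a : Fin 8 → ℝ} (ha : Cube a) {s s' : ℤ → Lt}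
    (hs : Adm (symOf s)) (hs' : Adm (symOf s')) {n : ℤ} {c : Pl} (hn : s n = .p c)
    (hn' : s' n = .p c) :
    |F.P1 a (xs F a (symOf s) n) - F.P1 a (xs F a (symOf s') n)| ≤
      2 * eps * |xs F a (symOf s) n - xs F a (symOf s') n| := by
  have hx := xs_W F ha hs n
  have hy := xs_W F ha hs' n
  rw [hn] at hx
  rw [hn'] at hy
  set x := xs F a (symOf s) n
  set y := xs F a (symOf s') n
  by_cases hxy : x = y
  · rw [hxy, sub_self, sub_self, abs_zero, mul_zero]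
  · obtain ⟨q, hq1, hq2, -⟩ := dd_pl F ha c hx hy
    obtain ⟨q', hq1', hq2', -⟩ := dd_pl F ha c hy hx
    have h1 : q' = q := by
      have h2 : q' * (y - x) = q * (y - x) := by
        rw [← hq1']
        have h3 : q * (y - x) = -(q * (x - y)) := by ring
        rw [h3, ← hq1]
        ring
      exact mul_right_cancel₀ (sub_ne_zero.2 (Ne.symm hxy)) h2
    rw [h1, abs_sub_comm y x] at hq2'
    have h4 : F.P1 a x - F.P1 a y = (q - F.P1 a y) - (q - F.P1 a x) := by ring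
    rw [h4]
    exact (abs_sub _ _).trans (by linarith)

private theorem tang_lin {u v w q z : ℝ} (hu : |u| ≤ 1) (hq : 0 ≤ q) (hz : |z| ≤ 4)
    (h : v = u * w + q * z) : |v| ≤ |w| + 4 * q := by
  rw [h]
  refine (abs_add_le _ _).trans ?_
  rw [abs_mul, abs_mul, abs_of_nonneg hq]
  have h1 := mul_le_mul_of_nonneg_right hu (abs_nonneg w)
  have h2 := mul_le_mul_of_nonneg_left hz hq
  linarith

private theorem tang_q {u r q : ℝ} (hu : u ≤ 1) (hr : 1 / 2 ^ 21 ≤ r) (hq : 0 ≤ q) :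
    u * q ≤ 2 ^ 21 * (r * q) := by
  have h1 : 1 ≤ 2 ^ 21 * r := by
    calc (1 : ℝ) = 2 ^ 21 * (1 / 2 ^ 21) := by norm_num
      _ ≤ 2 ^ 21 * r := by gcongr
  have h2 := mul_le_mul_of_nonneg_right hu hq
  have h3 := mul_le_mul_of_nonneg_right h1 hq
  linarith

private theorem tang_eps : eps ≤ 1 / 2 ^ 60 := by
  have h1 := eps_le_b
  have h2 := b_pos
  have h3 : b / 2 ^ 800 ≤ b := div_le_self h2.le (one_le_pow₀ (by norm_num))
  have h4 : b ≤ 1 / 2 ^ 60 := by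
    unfold b
    norm_num
  exact (h1.trans h3).trans h4

private theorem tang_b : b ≤ 1 / 2 ^ 60 := by
  unfold b
  norm_num

private theorem tang_gen (m : ℕ) (R D Q : ℕ → ℝ) (hR : R m ≤ 1 / 2 ^ 19) (hQm : Q m = 1)
    (hst : ∀ n < m, R n ≤ 1 / 2 ^ 38 * (2 * eps * D (n + 1) + b * R (n + 1)))
    (hD : ∀ n < m, D (n + 1) ≤ D n + 4 * Q n) (hQ : ∀ n < m, b * Q (n + 1) ≤ 2 ^ 21 * Q n)
    (hD0 : ∀ n, 0 ≤ D n) (hQ0 : ∀ n ≤ m, 0 ≤ Q n) :
    ∀ n ≤ m, R n ≤ eps * D n + 1 / 2 ^ 18 * Q n := by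
  have he := eps_pos
  have hb := b_pos
  have key : ∀ k ≤ m, R (m - k) ≤ eps * D (m - k) + 1 / 2 ^ 18 * Q (m - k) := by
    intro k
    induction k with
    | zero =>
      intro _
      rw [Nat.sub_zero, hQm]
      have h1 := mul_nonneg he.le (hD0 m)
      have h2 : (1 : ℝ) / 2 ^ 19 ≤ 1 / 2 ^ 18 * 1 := by norm_num
      linarith
    | succ k ih =>
      intro hk
      have ih' := ih (by omega)
      obtain ⟨n, hn⟩ : ∃ n, n = m - (k + 1) := ⟨_, rfl⟩
      have hn1 : m - k = n + 1 := by omega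
      have hnm : n < m := by omega
      rw [hn1] at ih'
      rw [← hn]
      have h1 := hst n hnm
      have h2 := hD n hnm
      have h3 := hQ n hnm
      have h4 := hD0 n
      have h5 := hQ0 n hnm.le
      have h6 := hD0 (n + 1)
      have hb1 := tang_b
      have he1 := tang_eps
      have h7 : b * R (n + 1) ≤ b * (eps * D (n + 1)) + 1 / 2 ^ 18 * (2 ^ 21 * Q n) := by
        have h8 := mul_le_mul_of_nonneg_left ih' hb.le
        nlinarith
      have h9 : b * (eps * D (n + 1)) ≤ eps * D (n + 1) :=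
        mul_le_of_le_one_left (mul_nonneg he.le h6) b_lt_one.le
      have h10 : eps * D (n + 1) ≤ eps * D n + 4 * (eps * Q n) := by
        have h11 := mul_le_mul_of_nonneg_left h2 he.le
        linarith
      have h12 : eps * Q n ≤ 1 / 2 ^ 60 * Q n := mul_le_mul_of_nonneg_right he1 h5
      have h13 : 0 ≤ eps * D n := mul_nonneg he.le h4
      have h14 : R n ≤ 1 / 2 ^ 38 * (3 * (eps * D n + 4 * (1 / 2 ^ 60 * Q n)) +
          1 / 2 ^ 18 * (2 ^ 21 * Q n)) := by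
        refine h1.trans (mul_le_mul_of_nonneg_left ?_ (by positivity))
        linarith
      refine h14.trans ?_
      have h15 : (1 : ℝ) / 2 ^ 38 * (3 * (eps * D n + 4 * (1 / 2 ^ 60 * Q n)) +
          1 / 2 ^ 18 * (2 ^ 21 * Q n)) = 3 / 2 ^ 38 * (eps * D n) +
            (12 / 2 ^ 98 + 1 / 2 ^ 35) * Q n := by ring
      rw [h15]
      have h16 : (3 : ℝ) / 2 ^ 38 * (eps * D n) ≤ 1 * (eps * D n) :=
        mul_le_mul_of_nonneg_right (by norm_num) h13
      have h17 : ((12 : ℝ) / 2 ^ 98 + 1 / 2 ^ 35) * Q n ≤ 1 / 2 ^ 18 * Q n :=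
        mul_le_mul_of_nonneg_right (by norm_num) h5
      linarith
  intro n hn
  have h1 := key (m - n) (Nat.sub_le _ _)
  have h2 : m - (m - n) = n := by omega
  rwa [h2] at h1

private theorem tang_two {u v : ℝ} (hv : 0 ≤ v) (h : |u - v| ≤ 1 / 2 ^ 135 * v) : u ≤ 2 * v := by
  have h1 := (abs_le.1 h).2
  have h2 : (1 : ℝ) / 2 ^ 135 * v ≤ 1 * v := mul_le_mul_of_nonneg_right (by norm_num) hv
  linarith

private theorem tang_fin0 {e B d u v x y : ℝ} (he : 0 < e) (he1 : e ≤ 1 / 2 ^ 60) (hB : 0 < B)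
    (hB1 : B ≤ 1) (hB2 : B = 1 / 2 ^ 100) (hd : 0 ≤ d) (hx : 0 ≤ x) (hy : 0 ≤ y)
    (h : (2 ^ 21 - e) * d ≤ B * (u + v)) (hu : u ≤ e * d + 1 / 2 ^ 17 * x)
    (hv : v ≤ e * d + 1 / 2 ^ 17 * y) : d ≤ 1 / 2 ^ 130 * (x + y) := by
  have h0 : u + v ≤ 2 * (e * d) + 1 / 2 ^ 17 * (x + y) := by linarith
  have h1 : B * (u + v) ≤ B * (2 * (e * d) + 1 / 2 ^ 17 * (x + y)) :=
    mul_le_mul_of_nonneg_left h0 hB.le
  have h2 : B * (2 * (e * d)) ≤ 2 * (e * d) :=
    mul_le_of_le_one_left (by positivity) hB1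
  have h3 : e * d ≤ 1 / 2 ^ 60 * d := mul_le_mul_of_nonneg_right he1 hd
  have h4 : (2 ^ 21 - 3 / 2 ^ 60) * d ≤ B * (1 / 2 ^ 17 * (x + y)) := by
    have h5 : (2 ^ 21 - e) * d = 2 ^ 21 * d - e * d := by ring
    rw [h5] at h
    have h6 : ((2 : ℝ) ^ 21 - 3 / 2 ^ 60) * d = 2 ^ 21 * d - 3 * (1 / 2 ^ 60 * d) := by ring
    rw [h6]
    have h7 : B * (2 * (e * d) + 1 / 2 ^ 17 * (x + y)) =
        B * (2 * (e * d)) + B * (1 / 2 ^ 17 * (x + y)) := by ring
    rw [h7] at h1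
    linarith
  have h8 : (2 : ℝ) ^ 20 * d ≤ (2 ^ 21 - 3 / 2 ^ 60) * d :=
    mul_le_mul_of_nonneg_right (by norm_num) hd
  have h9 : B * (1 / 2 ^ 17 * (x + y)) = 1 / 2 ^ 117 * (x + y) := by
    have h0 : (1 : ℝ) / 2 ^ 117 = 1 / 2 ^ 100 * (1 / 2 ^ 17) := by norm_num
    rw [hB2, h0, mul_assoc]
  have h10 : (2 : ℝ) ^ 20 * d ≤ 1 / 2 ^ 117 * (x + y) := h8.trans (h4.trans h9.le)
  have h11 : d = 1 / 2 ^ 20 * (2 ^ 20 * d) := by ring
  rw [h11]
  calc (1 : ℝ) / 2 ^ 20 * (2 ^ 20 * d) ≤ 1 / 2 ^ 20 * (1 / 2 ^ 117 * (x + y)) := by gcongr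
    _ = 1 / 2 ^ 137 * (x + y) := by ring
    _ ≤ 1 / 2 ^ 130 * (x + y) :=
      mul_le_mul_of_nonneg_right (by norm_num) (add_nonneg hx hy)

private theorem tang_fin {d u v x y : ℝ} (hd : 0 ≤ d) (hx : 0 ≤ x) (hy : 0 ≤ y)
    (h : (2 ^ 21 - eps) * d ≤ b * (u + v)) (hu : u ≤ eps * d + 1 / 2 ^ 17 * x)
    (hv : v ≤ eps * d + 1 / 2 ^ 17 * y) : d ≤ 1 / 2 ^ 130 * (x + y) :=
  tang_fin0 eps_pos tang_eps b_pos b_lt_one.le b_eq hd hx hy h hu hv

/-- **O4** displacement of the tangency point.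
Proof. `|Δ_0| ≤ b 2^-20.9 (|r_1 - r'_1| + |t_{-1} - t'_{-1}|)` (subtract `fox`, slope of `P1`
at least
`2^21 - eps`). `|r_n - r'_n| ≤ 2^-38 (eps |Δ_n| + b |r_{n+1} - r'_{n+1}|)` on `1..l`, iterate;
by O2
`|Δ_n| ≤ 2^(-119 n) |Δ_0| + 2 (∏_{k ≥ n-1} ρ_k) |Δ_{l+1}|` and `∏_{k ≥ n-1} ρ_k ≤ 2^(21 (n-1))
∏_{k ≥ 0} ρ_k`,
`(b 2^-38)^l ≤ 2^(-117 l) ∏ ρ`; so `|r_1 - r'_1| ≤ 2^-1000 |Δ_0| + 2^-18 prodR * 1.01`. The
same on
the other side with `∏ (b τ) ≥ 2^(-121 N)`: `|t_{-1} - t'_{-1}| ≤ 2^-1000 |Δ_0| + 2^-18 * 1.01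
* prodT / b`
(`(b 2^-38)^(n-1) 2^(121 (n-1))` is summable). -/
theorem tang_shift (F : Fam) {a : Fin 8 → ℝ} (ha : Cube a) {s s' : ℤ → Lt} (hs : Adm (symOf s))
    (hs' : Adm (symOf s')) {i : Fin 8} {l N : ℕ} (h0 : s 0 = .d i) (h0' : s' 0 = .d i)
    (hp : ∀ n : ℕ, n < l → ∃ j, s (n + 1) = .p (.f j) ∧ s' (n + 1) = .p (.f j))
    (hm : ∀ n : ℕ, n < N → ∃ c, s (-(n : ℤ) - 1) = .p (.e c) ∧ s' (-(n : ℤ) - 1) = .p (.e c)) :
    |xs F a (symOf s) 0 - xs F a (symOf s') 0| ≤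
      1 / 2 ^ 130 * (prodR F a s l + prodT F a s N / b) := by
  have hb := b_pos
  have h00 : s 0 = s' 0 := h0.trans h0'.symm
  -- forward part
  obtain ⟨ρ, hρ, hρ2, hρ3⟩ := fut F ha hs hs' h00 hp
  have hf := tang_gen l (fun n : ℕ => |rs F a (symOf s) (n + 1) - rs F a (symOf s') (n + 1)|)
    (fun n : ℕ => |xs F a (symOf s) n - xs F a (symOf s') n|) (fun n => ∏ k ∈ Finset.Ico n l, ρ k)
    (tang_abs (rs_b F ha hs _) (rs_b F ha hs' _)) (by simp)
    (by
      intro n hn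
      obtain ⟨j, hj, hj'⟩ := hp n hn
      have h1 := rs_rec F ha hs hj
      have h2 := rs_rec F ha hs' hj'
      have h3 := tang_P1 F ha hs hs' hj hj'
      have h4 := tang_rec h1 h2 (rs_b F ha hs _) (rs_b F ha hs' _) h3
      push_cast
      exact h4)
    (by
      intro n hn
      have h1 := hρ2 n hn
      have h2 := hρ n hn
      have h3 : 0 ≤ ∏ k ∈ Finset.Ico n l, ρ k := by
        refine Finset.prod_nonneg fun k hk => ?_
        have h4 := hρ k (Finset.mem_Ico.1 hk).2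
        exact le_trans (by positivity) h4.1
      have h5 := xs_dist F ha ha hs hs' (l + 1) (l + 1)
      have h6 : |b * ρ n| ≤ 1 := by
        rw [abs_of_nonneg (mul_nonneg hb.le (le_trans (by positivity) h2.1))]
        have h7 : ρ n ≤ 1 := h2.2.trans (by norm_num)
        have h8 := b_lt_one
        nlinarith
      have h9 := tang_lin h6 h3 h5 h1
      push_cast
      exact h9)
    (by
      intro n hn
      have h2 := hρ n hn
      have h3 : 0 ≤ ∏ k ∈ Finset.Ico (n + 1) l, ρ k := by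
        refine Finset.prod_nonneg fun k hk => ?_
        have h4 := hρ k (Finset.mem_Ico.1 hk).2
        exact le_trans (by positivity) h4.1
      have h4 : ∏ k ∈ Finset.Ico n l, ρ k = ρ n * ∏ k ∈ Finset.Ico (n + 1) l, ρ k :=
        Finset.prod_eq_prod_Ico_succ_bot hn _
      rw [h4]
      exact tang_q b_lt_one.le h2.1 h3)
    (fun n => abs_nonneg _)
    (by
      intro n hn
      refine Finset.prod_nonneg fun k hk => ?_
      have h4 := hρ k (Finset.mem_Ico.1 hk).2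
      exact le_trans (by positivity) h4.1)
  have hf0 := hf 0 (Nat.zero_le _)
  -- backward part
  obtain ⟨τ, hτ, hτ2, hτ3⟩ := pst F ha hs hs' h00 hm
  have hg := tang_gen N
    (fun n : ℕ => |ts F a (symOf s) (-(n : ℤ) - 1) - ts F a (symOf s') (-(n : ℤ) - 1)|)
    (fun n : ℕ => |xs F a (symOf s) (-(n : ℤ)) - xs F a (symOf s') (-(n : ℤ))|)
    (fun n => ∏ k ∈ Finset.Ico n N, (b * τ k))
    (tang_abs (ts_b F ha hs _) (ts_b F ha hs' _)) (by simp)
    (by
      intro n hn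
      obtain ⟨j, hj, hj'⟩ := hm n hn
      have h1 := ts_rec F ha hs hj
      have h2 := ts_rec F ha hs' hj'
      have h3 := tang_P1 F ha hs hs' hj hj'
      have h4 := tang_rec h1 h2 (ts_b F ha hs _) (ts_b F ha hs' _) h3
      have h5 : -((n + 1 : ℕ) : ℤ) = -(n : ℤ) - 1 := by
        push_cast
        ring
      simp only [h5]
      exact h4)
    (by
      intro n hn
      have h1 := hτ2 n hn
      have h2 := hτ n hn
      have h3 : 0 ≤ ∏ k ∈ Finset.Ico n N, (b * τ k) := by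
        refine Finset.prod_nonneg fun k hk => mul_nonneg hb.le ?_
        have h4 := hτ k (Finset.mem_Ico.1 hk).2
        exact le_trans (by positivity) h4.1
      have h5 := xs_dist F ha ha hs hs' (-(N : ℤ) - 1) (-(N : ℤ) - 1)
      have h6 : |τ n| ≤ 1 := by
        rw [abs_of_nonneg (le_trans (by positivity) h2.1)]
        exact h2.2.trans (by norm_num)
      have h9 := tang_lin h6 h3 h5 h1
      have h10 : -((n + 1 : ℕ) : ℤ) = -(n : ℤ) - 1 := by
        push_cast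
        ring
      simp only [h10]
      exact h9)
    (by
      intro n hn
      have h2 := hτ n hn
      have h3 : 0 ≤ ∏ k ∈ Finset.Ico (n + 1) N, (b * τ k) := by
        refine Finset.prod_nonneg fun k hk => mul_nonneg hb.le ?_
        have h4 := hτ k (Finset.mem_Ico.1 hk).2
        exact le_trans (by positivity) h4.1
      have h4 : ∏ k ∈ Finset.Ico n N, (b * τ k) =
          b * τ n * ∏ k ∈ Finset.Ico (n + 1) N, (b * τ k) :=
        Finset.prod_eq_prod_Ico_succ_bot hn _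
      rw [h4]
      have h5 := tang_q le_rfl h2.1 (mul_nonneg hb.le h3)
      calc b * ∏ k ∈ Finset.Ico (n + 1) N, (b * τ k)
          = 1 * (b * ∏ k ∈ Finset.Ico (n + 1) N, (b * τ k)) := by rw [one_mul]
        _ ≤ 2 ^ 21 * (τ n * (b * ∏ k ∈ Finset.Ico (n + 1) N, (b * τ k))) := h5
        _ = 2 ^ 21 * (b * τ n * ∏ k ∈ Finset.Ico (n + 1) N, (b * τ k)) := by ring)
    (fun n => abs_nonneg _)
    (by
      intro n hn
      refine Finset.prod_nonneg fun k hk => mul_nonneg hb.le ?_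
      have h4 := hτ k (Finset.mem_Ico.1 hk).2
      exact le_trans (by positivity) h4.1)
  have hg0 := hg 0 (Nat.zero_le _)
  -- the products
  have hR0 : 0 ≤ prodR F a s l := by
    refine Finset.prod_nonneg fun k _ => (rs_b F ha hs _).1
  have hT0 : 0 ≤ prodT F a s N := by
    refine mul_nonneg hb.le (Finset.prod_nonneg fun k _ => mul_nonneg hb.le (ts_b F ha hs _).1)
  have hR1 : ∏ k ∈ Finset.range l, ρ k ≤ 2 * prodR F a s l := tang_two hR0 hρ3
  have hT1 : b * ∏ k ∈ Finset.range N, (b * τ k) ≤ 2 * prodT F a s N := tang_two hT0 hτ3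
  have hT2 : ∏ k ∈ Finset.range N, (b * τ k) ≤ 2 * (prodT F a s N / b) := by
    rw [mul_div_assoc', le_div_iff₀ hb]
    linarith
  -- the fold
  have e1 := fold_eq F ha hs h0
  have e2 := fold_eq F ha hs' h0'
  have hW := xs_W F ha hs 0
  have hW' := xs_W F ha hs' 0
  rw [h0] at hW
  rw [h0'] at hW'
  have e3 := fo_slope F ha i hW hW'
  have e4 : |F.P1 a (xs F a (symOf s) 0) - F.P1 a (xs F a (symOf s') 0)| ≤
      b * (|rs F a (symOf s) (0 + 1) - rs F a (symOf s') (0 + 1)| +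
        |ts F a (symOf s) (0 - 1) - ts F a (symOf s') (0 - 1)|) := by
    rw [e1, e2]
    have h1 : b * (rs F a (symOf s) (0 + 1) + ts F a (symOf s) (0 - 1)) -
        b * (rs F a (symOf s') (0 + 1) + ts F a (symOf s') (0 - 1)) =
        b * ((rs F a (symOf s) (0 + 1) - rs F a (symOf s') (0 + 1)) +
          (ts F a (symOf s) (0 - 1) - ts F a (symOf s') (0 - 1))) := by ring
    rw [h1, abs_mul, abs_of_pos hb]
    exact mul_le_mul_of_nonneg_left (abs_add_le _ _) hb.le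
  simp only [Finset.range_eq_Ico] at hR1 hT2
  simp only [Nat.cast_zero, neg_zero] at hf0 hg0
  have h9 : 0 ≤ prodT F a s N / b := div_nonneg hT0 hb.le
  exact tang_fin (abs_nonneg _) hR0 h9 (e3.trans e4) (hf0.trans (by linarith))
    (hg0.trans (by linarith))

end Pool.Agent.WildW
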